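import Pool.Agent.Helper10.P4.PalAll
import Pool.Agent.Helper10.P5.Cnt

/-! Project SQ (MP_540de1_nt): square divisors of decimal palindromes with an odd number of digits.
Definitions. Memo: memo_MP_540de1_nt_SQ_helper10.md. -/

namespace Pool.Agent.Helper10.SQ

open Finset Pool.Agent.Helper10 Pool.Agent.Helper10.P5 Pool.Agent.Helper10.P4

open Classical in
/-- the palindromes with `2 * n + 1` decimal digits -/
noncomputable def Pal (n : ℕ) : Finset ℕ := (range (10 ^ (2 * n + 1))).filter (IsPalD (2 * n + 1))

/-- number of palindromes with `2 * n + 1` digits in a residue class -/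
noncomputable def cl (n q a : ℕ) : ℕ := ((Pal n).filter (fun N => N ≡ a [MOD q])).card

/-- coefficients of the outer digits: digit number `2 * n + 1 - t + i` and its mirror image
`t - 1 - i`, for `i < t` -/
def gw (n t i : ℕ) : ℕ := 10 ^ (2 * n + 1 - t + i) + 10 ^ (t - 1 - i)

/-- value of the outer part (`t` digits at each end) of a palindrome -/
def Gv (n t : ℕ) (b : Fin t → ℕ) : ℕ := ∑ i : Fin t, b i * gw n t i

/-- the phase of an outer part; `w` is an inverse of `10 ^ t` modulo `q` -/
noncomputable def xi (n t q w a : ℕ) (b : Fin t → ℕ) : ℝ :=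
  (w : ℝ) * ((a : ℝ) - (Gv n t b : ℝ)) / q

/-- the frequency of the digit number `i` -/
noncomputable def th (n t q w i : ℕ) : ℝ := (w : ℝ) * (gw n t i : ℝ) / q

/-- weight of a decimal digit -/
noncomputable def gg (e : ℕ) : ℝ := if e = 0 ∨ e = 9 then 1 else 6049 / 6050

/-- weight of an integer: every second one of its last `2 * m` decimal digits -/
noncomputable def wt (m Z : ℕ) : ℝ := ∏ l ∈ range m, gg (Z / 10 ^ (2 * m - 2 * l - 1) % 10)

/-- mean weight of a digit -/
noncomputable def rho : ℝ := 15123 / 15125

end Pool.Agent.Helper10.SQ
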