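import Mathlib
import Pool.Agent.Helper10.P4.Level
import Pool.Agent.Helper10.P4.PalAll
import Pool.Agent.Helper10.SQ.Defs

/-! SQ: level of distribution three tenths (copy of the landed hand-in LevelThreeTenths), in terms of `cl`. -/

namespace Pool.Agent.Helper10.SQ

open Finset Pool.Agent.Helper10 Pool.Agent.Helper10.P5 Pool.Agent.Helper10.P4

/-- the digit vectors of all palindromes -/
noncomputable def EE (n : ℕ) : Finset (ℕ × ℕ × (Fin (n - 1) → ℕ)) :=
  Icc 1 9 ×ˢ (range 10 ×ˢ KK (n - 1) 10)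

lemma mem_EE (n : ℕ) (x : ℕ × ℕ × (Fin (n - 1) → ℕ)) :
    x ∈ EE n ↔ (1 ≤ x.1 ∧ x.1 ≤ 9) ∧ x.2.1 < 10 ∧ x.2.2 ∈ KK (n - 1) 10 := by
  unfold EE
  rw [Finset.mem_product, Finset.mem_product, Finset.mem_Icc, Finset.mem_range]

lemma ncard_eq (n : ℕ) (hn : 1 ≤ n) (P : ℕ → Prop) [DecidablePred P] :
    {N : ℕ | IsPalD (2 * n + 1) N ∧ P N}.ncard =
      ((EE n).filter (fun x => P (PN n x.1 x.2.1 x.2.2))).card := by
  classical
  have h1 : {N : ℕ | IsPalD (2 * n + 1) N ∧ P N} =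
      ((((EE n).filter (fun x => P (PN n x.1 x.2.1 x.2.2))).image
        (fun x => PN n x.1 x.2.1 x.2.2) : Finset ℕ) : Set ℕ) := by
    ext N
    rw [Set.mem_ofPred_eq, Finset.mem_coe, Finset.mem_image]
    constructor
    · rintro ⟨h1, h2⟩
      obtain ⟨c, d, f, hf, hc0, hc, hd, hN⟩ := PN_surj n hn N h1
      refine ⟨(c, d, f), ?_, hN.symm⟩
      rw [Finset.mem_filter, mem_EE]
      refine ⟨⟨⟨by omega, by omega⟩, hd, hf⟩, ?_⟩
      rw [← hN]
      exact h2
    · rintro ⟨x, hx, rfl⟩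
      rw [Finset.mem_filter, mem_EE] at hx
      exact ⟨PN_pal n x.1 x.2.1 hn (by omega) (by omega) hx.1.2.1 x.2.2 hx.1.2.2, hx.2⟩
  rw [h1, Set.ncard_coe_finset]
  apply Finset.card_image_of_injOn
  intro x hx y hy hxy
  rw [Finset.mem_coe, Finset.mem_filter, mem_EE] at hx hy
  obtain ⟨h2, h3, h4⟩ := PN_inj n hn x.1 x.2.1 y.1 y.2.1 x.2.2 y.2.2 (by omega) (by omega)
    hx.1.2.1 hx.1.2.2 (by omega) (by omega) hy.1.2.1 hy.1.2.2 hxy
  exact Prod.ext h2 (Prod.ext h3 h4)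

/-- shift of the residue class -/
def sh (n c d q a : ℕ) : ℕ := c * (10 ^ (2 * n) + 1) + d * 10 ^ n + (q - a % q)

lemma PN_mod (n c d q a : ℕ) (hq : 0 < q) (f : Fin (n - 1) → ℕ) :
    PN n c d f ≡ a [MOD q] ↔ q ∣ sh n c d q a + 10 * vl (n - 1) f := by
  have h1 : sh n c d q a + 10 * vl (n - 1) f = PN n c d f + (q - a % q) := by
    unfold sh PN
    ring
  have h2 : a % q < q := Nat.mod_lt _ hq
  rw [h1, ← Nat.modEq_zero_iff_dvd]
  have h3 : a + (q - a % q) ≡ 0 [MOD q] := by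
    have : a % q + (q - a % q) ≡ 0 [MOD q] := by
      rw [Nat.add_sub_cancel' h2.le]
      exact (Nat.modEq_zero_iff_dvd).mpr (dvd_refl q)
    exact (Nat.ModEq.add_right _ (Nat.mod_modEq a q).symm).trans this
  constructor
  · intro h
    exact (Nat.ModEq.add_right _ h).trans h3
  · intro h
    exact Nat.ModEq.add_right_cancel' _ (h.trans h3.symm)

lemma card_total (n : ℕ) (hn : 1 ≤ n) : ((EE n).card : ℝ) = 9 * 10 ^ n := by
  unfold EE
  rw [Finset.card_product, Finset.card_product, Nat.card_Icc, Finset.card_range]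
  push_cast
  rw [KK_card]
  obtain ⟨k, rfl⟩ : ∃ k, n = k + 1 := ⟨n - 1, by omega⟩
  rw [Nat.add_sub_cancel, pow_succ]
  norm_num
  ring

lemma card_class (n q a : ℕ) (hq : 0 < q) :
    ((EE n).filter (fun x => PN n x.1 x.2.1 x.2.2 ≡ a [MOD q])).card =
      ∑ c ∈ Icc 1 9, ∑ d ∈ range 10, cnt5 10 (n - 1) (sh n c d q a) q := by
  classical
  rw [Finset.card_filter]
  unfold EE
  rw [Finset.sum_product]
  apply Finset.sum_congr rfl
  intro c _
  rw [Finset.sum_product]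
  apply Finset.sum_congr rfl
  intro d _
  unfold cnt5
  rw [Finset.card_filter]
  apply Finset.sum_congr rfl
  intro f _
  simp only [PN_mod n c d q a hq f]

/-- the remainder in one residue class -/
lemma class_bound (n q a : ℕ) (hn : 1 ≤ n) (hq : 0 < q) :
    |(({N : ℕ | IsPalD (2 * n + 1) N ∧ N ≡ a [MOD q]}.ncard : ℝ)) -
      ({N : ℕ | IsPalD (2 * n + 1) N}.ncard : ℝ) / q| ≤
      90 * (10 ^ (n - 1) / q * ∑ d ∈ q.divisors.erase 1, Psi5 10 (n - 1) d) := by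
  classical
  have h1 : {N : ℕ | IsPalD (2 * n + 1) N}.ncard = (EE n).card := by
    have := ncard_eq n hn (fun _ => True)
    simpa using this
  rw [ncard_eq n hn (fun N => N ≡ a [MOD q]), h1, card_total n hn, card_class n q a hq]
  have h2 : (9 * (10 : ℝ) ^ n) / q = ∑ c ∈ Icc 1 9, ∑ d ∈ range 10, (10 : ℝ) ^ (n - 1) / q := by
    rw [Finset.sum_const, Finset.sum_const, Nat.card_Icc, Finset.card_range]
    obtain ⟨k, rfl⟩ : ∃ k, n = k + 1 := ⟨n - 1, by omega⟩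
    rw [Nat.add_sub_cancel, pow_succ]
    simp only [nsmul_eq_mul]
    push_cast
    ring
  rw [h2]
  push_cast
  rw [← Finset.sum_sub_distrib]
  refine (Finset.abs_sum_le_sum_abs _ _).trans ?_
  have h3 : ∀ c ∈ Icc 1 9, |∑ d ∈ range 10, ((cnt5 10 (n - 1) (sh n c d q a) q : ℕ) : ℝ) -
      ∑ d ∈ range 10, (10 : ℝ) ^ (n - 1) / q| ≤
      10 * (10 ^ (n - 1) / q * ∑ d ∈ q.divisors.erase 1, Psi5 10 (n - 1) d) := by
    intro c _
    rw [← Finset.sum_sub_distrib]
    refine (Finset.abs_sum_le_sum_abs _ _).trans ?_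
    calc ∑ d ∈ range 10, |((cnt5 10 (n - 1) (sh n c d q a) q : ℕ) : ℝ) - (10 : ℝ) ^ (n - 1) / q|
        ≤ ∑ d ∈ range 10, (10 ^ (n - 1) / q * ∑ d ∈ q.divisors.erase 1, Psi5 10 (n - 1) d) :=
          Finset.sum_le_sum fun d _ => count5 10 (n - 1) (sh n c d q a) q hq
      _ = _ := by
          rw [Finset.sum_const, Finset.card_range, nsmul_eq_mul]
          norm_num
  refine (Finset.sum_le_sum h3).trans ?_
  rw [Finset.sum_const, Nat.card_Icc, nsmul_eq_mul]
  apply le_of_eq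
  push_cast
  ring

/-- **Level of distribution `3/10` for decimal palindromes with an odd number of digits.**
Palindromes with `2 * n + 1` digits are between `10 ^ (2 * n)` and `10 ^ (2 * n + 1)`, and the moduli
go up to the power `3 / 10 - ε / 2` of `10 ^ (2 * n)`; each modulus has its own, arbitrary, residue
class, and the weight is the cube of the number of divisors. -/
theorem result0 (ε : ℝ) (hε : 0 < ε) (A : ℕ) : ∃ n0 : ℕ, ∀ n : ℕ, n0 ≤ n → ∀ Q : ℕ,
    (Q : ℝ) ≤ (10 : ℝ) ^ ((3 / 5 - ε) * (n : ℝ)) → ∀ a : ℕ → ℕ,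
    ∑ q ∈ (Icc 1 Q).filter (fun q => q.Coprime 10), (q.divisors.card : ℝ) ^ 3 *
      |({N : ℕ | IsPalD (2 * n + 1) N ∧ N ≡ a q [MOD q]}.ncard : ℝ) -
        ({N : ℕ | IsPalD (2 * n + 1) N}.ncard : ℝ) / q| ≤ (10 : ℝ) ^ n / (n : ℝ) ^ A := by
  obtain ⟨g, hg⟩ := exists_nat_gt (1 / ε)
  obtain ⟨T0, hT0⟩ := bnd_err4 (g + 1) (by omega) (A + 1)
  obtain ⟨n1, hn1⟩ := exists_nat_gt (10 / ε)
  refine ⟨T0 + n1 + 100 + 9 * 2 ^ (A + 1), ?_⟩
  intro n hn Q hQ a
  have hn0 : 1 ≤ n := by omega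
  have hnR : (1 : ℝ) ≤ n := by exact_mod_cast hn0
  -- the exponent
  set J := ⌈(3 / 5 - ε) * (n : ℝ)⌉₊ with hJ
  have hQJ : Q ≤ 10 ^ J := by
    have h1 : (10 : ℝ) ^ ((3 / 5 - ε) * (n : ℝ)) ≤ (10 : ℝ) ^ (J : ℝ) := by
      apply Real.rpow_le_rpow_of_exponent_le (by norm_num)
      exact Nat.le_ceil _
    rw [Real.rpow_natCast] at h1
    exact_mod_cast hQ.trans h1
  have hnn : n1 ≤ n := by omega
  have hεn : 10 ≤ ε * n := by
    have h1 : (n1 : ℝ) ≤ n := by exact_mod_cast hnn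
    rw [div_lt_iff₀ hε] at hn1
    nlinarith
  have hJ2 : 5 * J + 3 * (J / (g + 1)) ≤ 3 * (n - 1) := by
    rcases le_or_gt ((3 / 5 - ε) * (n : ℝ)) 0 with h0 | h0
    · have : J = 0 := by
        rw [hJ]
        exact Nat.ceil_eq_zero.mpr h0
      rw [this]
      simp
    · have h1 : (J : ℝ) < (3 / 5 - ε) * n + 1 := Nat.ceil_lt_add_one h0.le
      have h2 : ((J / (g + 1) : ℕ) : ℝ) ≤ J / ((g : ℝ) + 1) := by
        have := @Nat.cast_div_le ℝ _ _ _ J (g + 1)
        push_cast at this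
        exact this
      have hg0 : (0 : ℝ) ≤ g := Nat.cast_nonneg g
      have h3 : (J : ℝ) / ((g : ℝ) + 1) ≤ ε * J := by
        rw [div_le_iff₀ (by positivity)]
        rw [div_lt_iff₀ hε] at hg
        have hJ0 : (0 : ℝ) ≤ J := Nat.cast_nonneg J
        nlinarith
      have hJn : (J : ℝ) ≤ n := by nlinarith
      have h4 : ε * (J : ℝ) ≤ ε * n := mul_le_mul_of_nonneg_left hJn hε.le
      have h5 : (5 : ℝ) * J + 3 * ((J / (g + 1) : ℕ) : ℝ) ≤ 3 * (n - 1) := by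
        nlinarith
      have h6 : ((n - 1 : ℕ) : ℝ) = (n : ℝ) - 1 := by
        rw [Nat.cast_sub hn0]
        norm_num
      rw [← h6] at h5
      exact_mod_cast h5
  have hκ : ∀ q : ℕ, q.Coprime 10 → q.Coprime 10 := fun q h => h
  have h1 := hT0 (n - 1) (by omega) 10 Q J hκ hQJ hJ2
  calc ∑ q ∈ (Icc 1 Q).filter (fun q => q.Coprime 10), (q.divisors.card : ℝ) ^ 3 *
      |({N : ℕ | IsPalD (2 * n + 1) N ∧ N ≡ a q [MOD q]}.ncard : ℝ) -
        ({N : ℕ | IsPalD (2 * n + 1) N}.ncard : ℝ) / q|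
      ≤ ∑ q ∈ (Icc 1 Q).filter (fun q => q.Coprime 10), (q.divisors.card : ℝ) ^ 3 *
        (90 * (10 ^ (n - 1) / q * ∑ d ∈ q.divisors.erase 1, Psi5 10 (n - 1) d)) := by
        apply Finset.sum_le_sum
        intro q hq
        rw [Finset.mem_filter, Finset.mem_Icc] at hq
        exact mul_le_mul_of_nonneg_left (class_bound n q (a q) hn0 (by omega)) (by positivity)
    _ = 90 * bnd4 10 (n - 1) Q := by
        unfold bnd4 tau
        rw [Finset.mul_sum]
        apply Finset.sum_congr rfl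
        intro q _
        ring
    _ ≤ 90 * (10 ^ (n - 1) / ((n - 1 : ℕ) : ℝ) ^ (A + 1)) := by linarith
    _ ≤ (10 : ℝ) ^ n / (n : ℝ) ^ A := by
        have h6 : ((n - 1 : ℕ) : ℝ) = (n : ℝ) - 1 := by
          rw [Nat.cast_sub hn0]
          norm_num
        have h7 : (n : ℝ) / 2 ≤ ((n - 1 : ℕ) : ℝ) := by
          have : (2 : ℝ) ≤ n := by exact_mod_cast (by omega : 2 ≤ n)
          rw [h6]
          linarith
        have h8 : ((n : ℝ) / 2) ^ (A + 1) ≤ ((n - 1 : ℕ) : ℝ) ^ (A + 1) :=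
          pow_le_pow_left₀ (by positivity) h7 _
        have h9 : (9 : ℝ) * 2 ^ (A + 1) ≤ n := by
          have : 9 * 2 ^ (A + 1) ≤ n := by omega
          exact_mod_cast this
        have h10 : (10 : ℝ) ^ n = 10 * 10 ^ (n - 1) := by
          rw [← pow_succ']
          congr 1
          omega
        calc 90 * (10 ^ (n - 1) / ((n - 1 : ℕ) : ℝ) ^ (A + 1))
            ≤ 90 * ((10 : ℝ) ^ (n - 1) / ((n : ℝ) / 2) ^ (A + 1)) := by
              apply mul_le_mul_of_nonneg_left _ (by norm_num)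
              exact div_le_div_of_nonneg_left (by positivity) (by positivity) h8
          _ = (10 ^ n / (n : ℝ) ^ A) * (9 * 2 ^ (A + 1) / n) := by
              rw [h10, div_pow, pow_succ (n : ℝ) A]
              field_simp
              ring
          _ ≤ (10 ^ n / (n : ℝ) ^ A) * 1 := by
              apply mul_le_mul_of_nonneg_left _ (by positivity)
              rw [div_le_one (by linarith)]
              exact h9
          _ = _ := mul_one _



lemma lt_of_isPal (l N : ℕ) (h : IsPalD l N) : N < 10 ^ l := by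
  have := Nat.lt_base_pow_length_digits (b := 10) (m := N) (by norm_num)
  rw [h.1] at this
  exact this

lemma mem_Pal (n N : ℕ) : N ∈ Pal n ↔ IsPalD (2 * n + 1) N := by
  classical
  unfold Pal
  simp only [Finset.mem_filter, Finset.mem_range]
  exact ⟨fun h => h.2, fun h => ⟨lt_of_isPal _ _ h, h⟩⟩

lemma cl_eq (n q a : ℕ) : {N : ℕ | IsPalD (2 * n + 1) N ∧ N ≡ a [MOD q]}.ncard = cl n q a := by
  have : {N : ℕ | IsPalD (2 * n + 1) N ∧ N ≡ a [MOD q]} =
      (((Pal n).filter (fun N => N ≡ a [MOD q]) : Finset ℕ) : Set ℕ) := by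
    ext N
    simp [mem_Pal]
  rw [this, Set.ncard_coe_finset]
  rfl

/-- number of all palindromes with `2 * n + 1` digits -/
theorem card_Pal (n : ℕ) (hn : 1 ≤ n) : ((Pal n).card : ℝ) = 9 * 10 ^ n := by
  have h1 : {N : ℕ | IsPalD (2 * n + 1) N}.ncard = (EE n).card := by
    have := ncard_eq n hn (fun _ => True)
    simpa using this
  have h2 : {N : ℕ | IsPalD (2 * n + 1) N} = ((Pal n : Finset ℕ) : Set ℕ) := by
    ext N
    simp [mem_Pal]
  rw [← card_total n hn, ← h1, h2, Set.ncard_coe_finset]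

/-- **level of distribution three tenths**, in terms of `cl` -/
theorem level (ε : ℝ) (hε : 0 < ε) (A : ℕ) : ∃ n0 : ℕ, ∀ n : ℕ, n0 ≤ n → ∀ Q : ℕ,
    (Q : ℝ) ≤ (10 : ℝ) ^ ((3 / 5 - ε) * (n : ℝ)) → ∀ a : ℕ → ℕ,
    ∑ q ∈ (Icc 1 Q).filter (fun q => q.Coprime 10),
      |((cl n q (a q) : ℕ) : ℝ) - 9 * 10 ^ n / q| ≤ (10 : ℝ) ^ n / (n : ℝ) ^ A := by
  obtain ⟨n0, h0⟩ := result0 ε hε A
  refine ⟨n0 + 1, fun n hn Q hQ a => ?_⟩
  refine le_trans ?_ (h0 n (by omega) Q hQ a)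
  apply Finset.sum_le_sum
  intro q hq
  rw [Finset.mem_filter, Finset.mem_Icc] at hq
  have h2 : ({N : ℕ | IsPalD (2 * n + 1) N}.ncard : ℝ) = 9 * 10 ^ n := by
    have h2 : {N : ℕ | IsPalD (2 * n + 1) N} = ((Pal n : Finset ℕ) : Set ℕ) := by
      ext N
      simp [mem_Pal]
    rw [h2, Set.ncard_coe_finset, card_Pal n (by omega)]
  rw [cl_eq, h2]
  have h3 : (1 : ℝ) ≤ (q.divisors.card : ℝ) ^ 3 := by
    apply one_le_pow₀
    have : 0 < q.divisors.card := Finset.card_pos.mpr ⟨1, Nat.one_mem_divisors.mpr (by omega)⟩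
    exact_mod_cast this
  exact le_mul_of_one_le_left (abs_nonneg _) h3

end Pool.Agent.Helper10.SQ
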