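import Pool.Agent.Helper10.SQ.A7
import Pool.Agent.Helper10.SQ.Level

/-! SQ-B2: Theorem 1, square moduli up to `10^((2-2ε) n)`, i.e. up to the power `1 - ε` of the palindromes.

PROOF. WLOG `ε ≤ 1/4` (the sum over `D ≤ 10^((1-ε)n)` for a larger `ε` is a part). `D1 = ⌊10^(0.29 n)⌋`. For `d ≤ D1`: `q = d^2 ≤ 10^(0.58 n)`;
`level` (file `Level.lean`) with `ε' = 1/100` (so `Q = ⌊10^(0.59 n)⌋`), exponent `A + 1`, and classes `a' q = a (Nat.sqrt q)`: drop the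
weights `(tau q)^3 ≥ 1` and all `q` that are not squares (`Finset.sum_le_sum_of_subset_of_nonneg` after reindexing by `d ↦ d^2`, injective);
`card (Pal n) = 9 * 10^n` (`level_card`). For `D1 < d ≤ D`: `|cl - 9 10^n/d^2| ≤ cl + 9 10^n/d^2`; `∑_{d > D1} 9 10^n/d^2 ≤ 18 * 10^n/D1`;
the `cl` are summed over the blocks `10^k ≤ d < 10^(k+1)`, `k = ⌊0.29 n⌋ - 1 .. ⌊(1-ε)n⌋` (at most `n` of them; `d ≤ 10^((1-ε)n)` gives
`k ≤ (1-ε) n`), `sqA7` with `min ε (1/5)`: total `≤ n 10^((1-δ) n)`. All three parts are `≤ 10^n/(3 n^A)` for large `n`. -/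

namespace Pool.Agent.Helper10.SQ

open Finset Pool.Agent.Helper10 Pool.Agent.Helper10.P5 Pool.Agent.Helper10.P4

/-- polynomials are smaller than exponentials -/
lemma b2_growth (A : ℕ) (B c : ℝ) (hB : 0 < B) (hc : 0 < c) : ∃ n0 : ℕ, ∀ n : ℕ, n0 ≤ n →
    B * (n : ℝ) ^ A ≤ (10 : ℝ) ^ (c * (n : ℝ)) := by
  set r : ℝ := (10 : ℝ) ^ (-c) with hr
  have hr0 : 0 < r := by positivity
  have hr1 : r < 1 := Real.rpow_lt_one_of_one_lt_of_neg (by norm_num) (by linarith)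
  have ht := tendsto_pow_const_mul_const_pow_of_abs_lt_one A
    (show |r| < 1 by rw [abs_of_pos hr0]; exact hr1)
  have hev := ht.eventually (gt_mem_nhds (show (0 : ℝ) < 1 / B by positivity))
  rw [Filter.eventually_atTop] at hev
  obtain ⟨n0, hn0⟩ := hev
  refine ⟨n0, fun n hn => ?_⟩
  have h1 := hn0 n hn
  have h2 : r ^ n * (10 : ℝ) ^ (c * (n : ℝ)) = 1 := by
    rw [hr, ← Real.rpow_natCast, ← Real.rpow_mul (by norm_num), ← Real.rpow_add (by norm_num)]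
    have : -c * (n : ℝ) + c * (n : ℝ) = 0 := by ring
    rw [this, Real.rpow_zero]
  have h3 : (0 : ℝ) < (10 : ℝ) ^ (c * (n : ℝ)) := by positivity
  have h4 : B * ((n : ℝ) ^ A * r ^ n) ≤ 1 := by
    have := mul_le_mul_of_nonneg_left h1.le hB.le
    rwa [mul_one_div_cancel hB.ne'] at this
  calc B * (n : ℝ) ^ A = B * ((n : ℝ) ^ A * r ^ n) * (10 : ℝ) ^ (c * (n : ℝ)) := by
        rw [show B * ((n : ℝ) ^ A * r ^ n) * (10 : ℝ) ^ (c * (n : ℝ)) =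
          B * (n : ℝ) ^ A * (r ^ n * (10 : ℝ) ^ (c * (n : ℝ))) by ring, h2, mul_one]
    _ ≤ 1 * (10 : ℝ) ^ (c * (n : ℝ)) := mul_le_mul_of_nonneg_right h4 h3.le
    _ = _ := one_mul _

/-- the small moduli -/
lemma b2_small (A n k : ℕ) (hk : (100 : ℝ) * k ≤ 29 * n)
    (hlev : ∀ Q : ℕ, (Q : ℝ) ≤ (10 : ℝ) ^ ((3 / 5 - 1 / 100) * (n : ℝ)) → ∀ a : ℕ → ℕ,
      ∑ q ∈ (Icc 1 Q).filter (fun q => q.Coprime 10),
        |((cl n q (a q) : ℕ) : ℝ) - 9 * 10 ^ n / q| ≤ (10 : ℝ) ^ n / (n : ℝ) ^ (A + 1))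
    (S : Finset ℕ) (hS : ∀ d ∈ S, 1 ≤ d ∧ d < 10 ^ k ∧ d.Coprime 10) (a : ℕ → ℕ) :
    ∑ d ∈ S, |((cl n (d ^ 2) (a d) : ℕ) : ℝ) - 9 * 10 ^ n / ((d : ℝ) ^ 2)| ≤
      (10 : ℝ) ^ n / (n : ℝ) ^ (A + 1) := by
  have hQ : ((10 ^ (2 * k) : ℕ) : ℝ) ≤ (10 : ℝ) ^ ((3 / 5 - 1 / 100) * (n : ℝ)) := by
    push_cast
    rw [← Real.rpow_natCast]
    apply Real.rpow_le_rpow_of_exponent_le (by norm_num)
    push_cast
    have : (0 : ℝ) ≤ n := Nat.cast_nonneg n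
    linarith
  refine le_trans ?_ (hlev (10 ^ (2 * k)) hQ (fun q => a (Nat.sqrt q)))
  have hinj : ∀ x ∈ S, ∀ y ∈ S, x ^ 2 = y ^ 2 → x = y := fun x _ y _ h =>
    Nat.pow_left_injective (by norm_num : (2 : ℕ) ≠ 0) h
  have e : ∑ d ∈ S, |((cl n (d ^ 2) (a d) : ℕ) : ℝ) - 9 * 10 ^ n / ((d : ℝ) ^ 2)| =
      ∑ q ∈ S.image (fun d => d ^ 2),
        |((cl n q (a (Nat.sqrt q)) : ℕ) : ℝ) - 9 * 10 ^ n / (q : ℝ)| := by
    rw [Finset.sum_image hinj]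
    apply Finset.sum_congr rfl
    intro d _
    rw [Nat.sqrt_eq']
    push_cast
    rfl
  rw [e]
  apply Finset.sum_le_sum_of_subset_of_nonneg
  · intro q hq
    rw [Finset.mem_image] at hq
    obtain ⟨d, hd, rfl⟩ := hq
    obtain ⟨h1, h2, h3⟩ := hS d hd
    rw [Finset.mem_filter, Finset.mem_Icc]
    refine ⟨⟨Nat.one_le_pow _ _ h1, ?_⟩, h3.pow_left 2⟩
    rw [mul_comm 2 k, pow_mul]
    exact Nat.pow_le_pow_left h2.le 2
  · intro q _ _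
    exact abs_nonneg _

/-- the sum of the main terms -/
lemma b2_tail (n k D : ℕ) (S : Finset ℕ) (hS : ∀ d ∈ S, 10 ^ k ≤ d ∧ d ≤ D) :
    ∑ d ∈ S, 9 * (10 : ℝ) ^ n / ((d : ℝ) ^ 2) ≤ 18 * 10 ^ n / 10 ^ k := by
  have hp : 1 ≤ 10 ^ k := Nat.one_le_pow _ _ (by norm_num)
  have hsub : S ⊆ Ioo (10 ^ k - 1) (D + 1) := by
    intro d hd
    obtain ⟨h1, h2⟩ := hS d hd
    rw [Finset.mem_Ioo]
    omega
  have h1 : ∑ d ∈ S, 9 * (10 : ℝ) ^ n / ((d : ℝ) ^ 2) ≤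
      ∑ d ∈ Ioo (10 ^ k - 1) (D + 1), 9 * (10 : ℝ) ^ n / ((d : ℝ) ^ 2) :=
    Finset.sum_le_sum_of_subset_of_nonneg hsub (fun d _ _ => by positivity)
  have h2 : ∑ d ∈ Ioo (10 ^ k - 1) (D + 1), 9 * (10 : ℝ) ^ n / ((d : ℝ) ^ 2) =
      9 * (10 : ℝ) ^ n * ∑ d ∈ Ioo (10 ^ k - 1) (D + 1), ((d : ℝ) ^ 2)⁻¹ := by
    rw [Finset.mul_sum]
    rfl
  have h3 := @sum_Ioo_inv_sq_le ℝ _ _ _ (10 ^ k - 1) (D + 1)
  have h4 : (((10 ^ k - 1 : ℕ) : ℝ) + 1) = 10 ^ k := by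
    rw [Nat.cast_sub hp]
    push_cast
    ring
  rw [h4] at h3
  calc _ ≤ _ := h1
    _ = _ := h2
    _ ≤ 9 * (10 : ℝ) ^ n * (2 / 10 ^ k) := mul_le_mul_of_nonneg_left h3 (by positivity)
    _ = 18 * 10 ^ n / 10 ^ k := by ring

/-- the large moduli -/
lemma b2_blocks (n k0 D : ℕ) (ε Z : ℝ) (hε : 0 < ε) (hn : 1 ≤ n) (hk0 : ε * n ≤ k0)
    (hD : (D : ℝ) ≤ (10 : ℝ) ^ ((1 - ε) * (n : ℝ))) (a : ℕ → ℕ) (hZ : 0 ≤ Z)
    (hblk : ∀ k : ℕ, ε * n ≤ k → (k : ℝ) ≤ (1 - ε) * n →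
      ∑ d ∈ (Ico (10 ^ k) (10 ^ (k + 1))).filter (fun d : ℕ => d.Coprime 10),
        ((cl n (d ^ 2) (a d) : ℕ) : ℝ) ≤ Z)
    (S : Finset ℕ) (hS : ∀ d ∈ S, 10 ^ k0 ≤ d ∧ d ≤ D ∧ d.Coprime 10) :
    ∑ d ∈ S, ((cl n (d ^ 2) (a d) : ℕ) : ℝ) ≤ n * Z := by
  have hlog : ∀ k : ℕ, 10 ^ k ≤ D → (k : ℝ) ≤ (1 - ε) * n := by
    intro k hk
    have h1 : (10 : ℝ) ^ (k : ℝ) ≤ (10 : ℝ) ^ ((1 - ε) * (n : ℝ)) := by
      rw [Real.rpow_natCast]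
      refine le_trans ?_ hD
      exact_mod_cast hk
    exact (Real.rpow_le_rpow_left_iff (by norm_num)).mp h1
  set T := (range n).filter (fun k => k0 ≤ k ∧ 10 ^ k ≤ D) with hT
  have hmaps : ∀ d ∈ S, Nat.log 10 d ∈ T := by
    intro d hd
    obtain ⟨h1, h2, _⟩ := hS d hd
    have hd0 : d ≠ 0 := by
      have : 1 ≤ 10 ^ k0 := Nat.one_le_pow _ _ (by norm_num)
      omega
    have h3 : 10 ^ Nat.log 10 d ≤ d := Nat.pow_log_le_self 10 hd0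
    have h4 : k0 ≤ Nat.log 10 d := Nat.le_log_of_pow_le (by norm_num) h1
    have h5 := hlog _ (h3.trans h2)
    rw [hT, Finset.mem_filter, Finset.mem_range]
    refine ⟨?_, h4, h3.trans h2⟩
    have hnR : (0 : ℝ) < n := by exact_mod_cast hn
    have h6 : ((Nat.log 10 d : ℕ) : ℝ) < n := by nlinarith
    exact_mod_cast h6
  rw [← Finset.sum_fiberwise_of_maps_to hmaps]
  have h1 : ∀ k ∈ T, ∑ d ∈ S with Nat.log 10 d = k, ((cl n (d ^ 2) (a d) : ℕ) : ℝ) ≤ Z := by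
    intro k hk
    rw [hT, Finset.mem_filter] at hk
    obtain ⟨_, hk1, hk2⟩ := hk
    have hk1R : (k0 : ℝ) ≤ k := by exact_mod_cast hk1
    refine le_trans ?_ (hblk k (hk0.trans hk1R) (hlog k hk2))
    apply Finset.sum_le_sum_of_subset_of_nonneg
    · intro d hd
      rw [Finset.mem_filter] at hd
      obtain ⟨h1, h2, h3⟩ := hS d hd.1
      have hd0 : d ≠ 0 := by
        have : 1 ≤ 10 ^ k0 := Nat.one_le_pow _ _ (by norm_num)
        omega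
      rw [Finset.mem_filter, Finset.mem_Ico]
      refine ⟨⟨?_, ?_⟩, h3⟩
      · rw [← hd.2]
        exact Nat.pow_log_le_self 10 hd0
      · rw [← hd.2]
        exact Nat.lt_pow_succ_log_self (by norm_num) d
    · intro d _ _
      exact Nat.cast_nonneg _
  calc ∑ k ∈ T, ∑ d ∈ S with Nat.log 10 d = k, ((cl n (d ^ 2) (a d) : ℕ) : ℝ) ≤ ∑ _k ∈ T, Z :=
        Finset.sum_le_sum h1
    _ = (T.card : ℝ) * Z := by rw [Finset.sum_const, nsmul_eq_mul]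
    _ ≤ n * Z := by
        apply mul_le_mul_of_nonneg_right _ hZ
        have : T.card ≤ n := by
          refine le_trans (Finset.card_filter_le _ _) ?_
          rw [Finset.card_range]
        exact_mod_cast this

theorem sqB2 (ε : ℝ) (hε : 0 < ε) (A : ℕ) : ∃ n0 : ℕ, ∀ n : ℕ, n0 ≤ n → ∀ D : ℕ,
    (D : ℝ) ≤ (10 : ℝ) ^ ((1 - ε) * (n : ℝ)) → ∀ a : ℕ → ℕ,
    ∑ d ∈ (Icc 1 D).filter (fun d : ℕ => d.Coprime 10),
      |((cl n (d ^ 2) (a d) : ℕ) : ℝ) - 9 * 10 ^ n / ((d : ℝ) ^ 2)| ≤ (10 : ℝ) ^ n / (n : ℝ) ^ A := by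
  set e := min ε (1 / 5) with he
  have he0 : 0 < e := lt_min hε (by norm_num)
  have he1 : e ≤ 1 / 5 := min_le_right _ _
  have heε : e ≤ ε := min_le_left _ _
  obtain ⟨δ, hδ, n1, h7⟩ := sqA7 e he0
  obtain ⟨n2, hlev⟩ := level (1 / 100) (by norm_num) (A + 1)
  obtain ⟨n3, hg1⟩ := b2_growth A 540 (1 / 4) (by norm_num) (by norm_num)
  obtain ⟨n4, hg2⟩ := b2_growth (A + 1) 3 δ (by norm_num) hδ
  refine ⟨n1 + n2 + n3 + n4 + 100, fun n hn D hD a => ?_⟩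
  set k := 29 * n / 100 with hk
  have hk1 : 100 * k ≤ 29 * n := Nat.mul_div_le _ _
  have hk2 : 29 * n < 100 * k + 100 := by omega
  have hk1R : (100 : ℝ) * k ≤ 29 * n := by exact_mod_cast hk1
  have hk2R : (29 : ℝ) * n < 100 * k + 100 := by exact_mod_cast hk2
  have hn100 : (100 : ℝ) ≤ n := by exact_mod_cast (by omega : 100 ≤ n)
  have hn0 : (0 : ℝ) < n := by linarith
  have hD' : (D : ℝ) ≤ (10 : ℝ) ^ ((1 - e) * (n : ℝ)) := by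
    refine le_trans hD ?_
    apply Real.rpow_le_rpow_of_exponent_le (by norm_num)
    apply mul_le_mul_of_nonneg_right _ hn0.le
    linarith
  set F := (Icc 1 D).filter (fun d : ℕ => d.Coprime 10) with hF
  have hsplit := Finset.sum_filter_add_sum_filter_not F (fun d => d < 10 ^ k)
    (fun d => |((cl n (d ^ 2) (a d) : ℕ) : ℝ) - 9 * 10 ^ n / ((d : ℝ) ^ 2)|)
  rw [← hsplit]
  have p1 : ∑ d ∈ F.filter (fun d => d < 10 ^ k),
      |((cl n (d ^ 2) (a d) : ℕ) : ℝ) - 9 * 10 ^ n / ((d : ℝ) ^ 2)| ≤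
      (10 : ℝ) ^ n / (n : ℝ) ^ (A + 1) := by
    apply b2_small A n k hk1R (fun Q hQ a => hlev n (by omega) Q hQ a)
    intro d hd
    rw [Finset.mem_filter, hF, Finset.mem_filter, Finset.mem_Icc] at hd
    exact ⟨hd.1.1.1, hd.2, hd.1.2⟩
  have p2 : ∑ d ∈ F.filter (fun d => ¬ d < 10 ^ k),
      |((cl n (d ^ 2) (a d) : ℕ) : ℝ) - 9 * 10 ^ n / ((d : ℝ) ^ 2)| ≤
      n * (10 : ℝ) ^ ((1 - δ) * (n : ℝ)) + 18 * 10 ^ n / 10 ^ k := by
    have q1 : ∑ d ∈ F.filter (fun d => ¬ d < 10 ^ k),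
      |((cl n (d ^ 2) (a d) : ℕ) : ℝ) - 9 * 10 ^ n / ((d : ℝ) ^ 2)| ≤
      ∑ d ∈ F.filter (fun d => ¬ d < 10 ^ k),
        (((cl n (d ^ 2) (a d) : ℕ) : ℝ) + 9 * 10 ^ n / ((d : ℝ) ^ 2)) := by
      apply Finset.sum_le_sum
      intro d _
      refine le_trans (abs_sub _ _) ?_
      rw [abs_of_nonneg (Nat.cast_nonneg _), abs_of_nonneg (by positivity)]
    rw [Finset.sum_add_distrib] at q1
    have hmem : ∀ d ∈ F.filter (fun d => ¬ d < 10 ^ k), 10 ^ k ≤ d ∧ d ≤ D ∧ d.Coprime 10 := by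
      intro d hd
      rw [Finset.mem_filter, hF, Finset.mem_filter, Finset.mem_Icc] at hd
      exact ⟨by omega, hd.1.1.2, hd.1.2⟩
    have q2 := b2_blocks n k D e ((10 : ℝ) ^ ((1 - δ) * (n : ℝ))) he0 (by omega)
      (by nlinarith) hD' a (by positivity) (fun k h1 h2 => h7 n k (by omega) h1 h2 a)
      (F.filter (fun d => ¬ d < 10 ^ k)) hmem
    have q3 := b2_tail n k D (F.filter (fun d => ¬ d < 10 ^ k))
      (fun d hd => ⟨(hmem d hd).1, (hmem d hd).2.1⟩)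
    linarith
  -- the three parts
  have hnA : (0 : ℝ) < (n : ℝ) ^ A := by positivity
  have h10 : (0 : ℝ) < (10 : ℝ) ^ n := by positivity
  have r1 : (10 : ℝ) ^ n / (n : ℝ) ^ (A + 1) ≤ (10 : ℝ) ^ n / (n : ℝ) ^ A / 3 := by
    rw [div_div]
    apply div_le_div_of_nonneg_left h10.le (by positivity)
    rw [pow_succ]
    exact mul_le_mul_of_nonneg_left (by linarith) hnA.le
  have r2 : 18 * (10 : ℝ) ^ n / 10 ^ k ≤ (10 : ℝ) ^ n / (n : ℝ) ^ A / 3 := by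
    have g1 := hg1 n (by omega)
    have g2 : (10 : ℝ) ^ (1 / 4 * (n : ℝ)) ≤ 10 * 10 ^ k := by
      have : (10 : ℝ) * 10 ^ k = (10 : ℝ) ^ ((k : ℝ) + 1) := by
        rw [Real.rpow_add (by norm_num), Real.rpow_natCast, Real.rpow_one]
        ring
      rw [this]
      apply Real.rpow_le_rpow_of_exponent_le (by norm_num)
      linarith
    have g3 : 54 * (n : ℝ) ^ A ≤ 10 ^ k := by linarith
    rw [div_div, div_le_div_iff₀ (by positivity) (by positivity)]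
    have := mul_le_mul_of_nonneg_left g3 h10.le
    linarith
  have r3 : n * (10 : ℝ) ^ ((1 - δ) * (n : ℝ)) ≤ (10 : ℝ) ^ n / (n : ℝ) ^ A / 3 := by
    have g1 := hg2 n (by omega)
    have g2 : (10 : ℝ) ^ ((1 - δ) * (n : ℝ)) * (10 : ℝ) ^ (δ * (n : ℝ)) = 10 ^ n := by
      rw [← Real.rpow_add (by norm_num)]
      have : (1 - δ) * (n : ℝ) + δ * (n : ℝ) = n := by ring
      rw [this, Real.rpow_natCast]
    have g3 : (0 : ℝ) < (10 : ℝ) ^ ((1 - δ) * (n : ℝ)) := by positivity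
    rw [div_div, le_div_iff₀ (by positivity), ← g2]
    have := mul_le_mul_of_nonneg_left g1 g3.le
    rw [pow_succ] at this
    linarith
  linarith

end Pool.Agent.Helper10.SQ
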