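import Pool.Agent.Helper10.SQ.B1
import Pool.Agent.Helper10.SQ.B2

/-! SQ: uniform bound for the number of palindromes with a square divisor larger than `z ^ 2`. -/

namespace Pool.Agent.Helper10.SQ

open Finset Filter Topology Pool.Agent.Helper10 Pool.Agent.Helper10.P5 Pool.Agent.Helper10.P4

lemma sum_inv_sq (z D : ℕ) (hz : 1 ≤ z) :
    ∑ d ∈ Icc z D, (1 : ℝ) / (d : ℝ) ^ 2 ≤ 2 / z := by
  have hz' : (1 : ℝ) ≤ z := by exact_mod_cast hz
  by_cases hD : z ≤ D
  · have key : ∀ k : ℕ, ∑ d ∈ Icc z (z + k), (1 : ℝ) / (d : ℝ) ^ 2 ≤ 2 / z - 1 / ((z : ℝ) + k) := by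
      intro k
      induction k with
      | zero =>
        simp only [Nat.add_zero, Finset.Icc_self, Finset.sum_singleton, Nat.cast_zero, add_zero]
        have h1 : (1 : ℝ) / (z : ℝ) ^ 2 ≤ 1 / z := by
          apply one_div_le_one_div_of_le (by linarith)
          nlinarith
        have h2 : (2 : ℝ) / z - 1 / z = 1 / z := by ring
        linarith
      | succ k ih =>
        have h0 : Icc z (z + (k + 1)) = insert (z + (k + 1)) (Icc z (z + k)) := by
          ext x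
          simp only [Finset.mem_Icc, Finset.mem_insert]
          omega
        rw [h0, Finset.sum_insert (by simp)]
        have h1 : (1 : ℝ) / (((z + (k + 1) : ℕ) : ℝ)) ^ 2 ≤
            1 / ((z : ℝ) + k) - 1 / ((z : ℝ) + (k + 1 : ℕ)) := by
          push_cast
          have hk : (0 : ℝ) ≤ k := Nat.cast_nonneg k
          rw [div_sub_div _ _ (by positivity) (by positivity), div_le_div_iff₀ (by positivity)
            (by positivity)]
          nlinarith
        linarith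
    obtain ⟨k, rfl⟩ := Nat.exists_eq_add_of_le hD
    have h1 := key k
    have h2 : (0 : ℝ) ≤ 1 / ((z : ℝ) + k) := by positivity
    linarith
  · rw [Finset.Icc_eq_empty hD]
    simp only [Finset.sum_empty]
    positivity

open Classical in
/-- the palindromes with a square divisor `d ^ 2`, `d ≥ z` -/
noncomputable def big (n z : ℕ) : Finset ℕ :=
  (Pal n).filter (fun P => ∃ d : ℕ, z ≤ d ∧ d.Coprime 10 ∧ d ^ 2 ∣ P)

theorem tail : ∃ n0 : ℕ, ∀ n : ℕ, n0 ≤ n → ∀ z : ℕ, 1 ≤ z →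
    ((big n z).card : ℝ) ≤ 18 * 10 ^ n / z + 2 * (10 ^ n / (n : ℝ) ^ 2) := by
  classical
  obtain ⟨n1, h1⟩ := sqB2 (1 / 10) (by norm_num) 2
  -- the second error term is small
  have hlim : Tendsto (fun n : ℕ => ((n : ℝ) ^ 2) * ((10 : ℝ) ^ (-(1 / 10 : ℝ))) ^ n) atTop (𝓝 0) := by
    have h := tendsto_pow_const_mul_const_pow_of_abs_lt_one 2
      (r := (10 : ℝ) ^ (-(1 / 10 : ℝ))) (by
        rw [abs_of_pos (Real.rpow_pos_of_pos (by norm_num) _)]
        exact Real.rpow_lt_one_of_one_lt_of_neg (by norm_num) (by norm_num))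
    exact_mod_cast h
  have hev := hlim.eventually (gt_mem_nhds (show (0 : ℝ) < 1 / 10 ^ 8 by norm_num))
  obtain ⟨n2, h2⟩ := Filter.eventually_atTop.mp hev
  refine ⟨n1 + n2 + 100, fun n hn z hz => ?_⟩
  have hn0 : 1 ≤ n := by omega
  have hnR : (1 : ℝ) ≤ n := by exact_mod_cast hn0
  set D := 10 ^ (n - (n / 10 + 1)) with hD
  have hDr : (D : ℝ) ≤ (10 : ℝ) ^ ((1 - 1 / 10) * (n : ℝ)) := by
    rw [hD]
    push_cast
    rw [← Real.rpow_natCast]
    apply Real.rpow_le_rpow_of_exponent_le (by norm_num)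
    have h3 : n ≤ 10 * (n / 10 + 1) := by omega
    have h4 : (n : ℝ) ≤ 10 * ((n / 10 + 1 : ℕ) : ℝ) := by exact_mod_cast h3
    rw [Nat.cast_sub (by omega)]
    linarith
  have hB2 := h1 n (by omega) D hDr (fun _ => 0)
  have hB1 := sqB1 n (n / 10 + 1) (by omega)
  -- splitting
  have hsub : big n z ⊆
      (((Icc z D).filter (fun d : ℕ => d.Coprime 10)).biUnion
        (fun d => (Pal n).filter (fun N => N ≡ 0 [MOD d ^ 2]))) ∪
      (Pal n).filter (fun P => ∃ d : ℕ, 10 ^ (n - (n / 10 + 1)) ≤ d ∧ d ^ 2 ∣ P) := by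
    intro P hP
    unfold big at hP
    rw [Finset.mem_filter] at hP
    obtain ⟨hP1, d, hd1, hd2, hd3⟩ := hP
    rw [Finset.mem_union]
    by_cases h : d ≤ D
    · left
      rw [Finset.mem_biUnion]
      refine ⟨d, ?_, ?_⟩
      · rw [Finset.mem_filter, Finset.mem_Icc]
        exact ⟨⟨hd1, h⟩, hd2⟩
      · rw [Finset.mem_filter]
        exact ⟨hP1, (Nat.modEq_zero_iff_dvd).mpr hd3⟩
    · right
      rw [Finset.mem_filter]
      exact ⟨hP1, d, by rw [← hD]; omega, hd3⟩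
  have hcard : ((big n z).card : ℝ) ≤
      ∑ d ∈ (Icc z D).filter (fun d : ℕ => d.Coprime 10), ((cl n (d ^ 2) 0 : ℕ) : ℝ) +
        (10 ^ (2 * (n / 10 + 1) + 1) * 10 ^ (n / 2 + 1) : ℕ) := by
    have h3 := (Finset.card_le_card hsub).trans (Finset.card_union_le _ _)
    have h4 := (add_le_add (Finset.card_biUnion_le (s := (Icc z D).filter (fun d : ℕ => d.Coprime 10))
      (t := fun d => (Pal n).filter (fun N => N ≡ 0 [MOD d ^ 2]))) hB1)
    have h5 := h3.trans h4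
    unfold cl
    exact_mod_cast h5
  refine hcard.trans ?_
  have h5 : ∑ d ∈ (Icc z D).filter (fun d : ℕ => d.Coprime 10), ((cl n (d ^ 2) 0 : ℕ) : ℝ) ≤
      18 * 10 ^ n / z + 10 ^ n / (n : ℝ) ^ 2 := by
    have h6 : ∀ d ∈ (Icc z D).filter (fun d : ℕ => d.Coprime 10), ((cl n (d ^ 2) 0 : ℕ) : ℝ) ≤
        9 * 10 ^ n / (d : ℝ) ^ 2 +
        |((cl n (d ^ 2) 0 : ℕ) : ℝ) - 9 * 10 ^ n / ((d : ℝ) ^ 2)| := by
      intro d _
      have := le_abs_self (((cl n (d ^ 2) 0 : ℕ) : ℝ) - 9 * 10 ^ n / ((d : ℝ) ^ 2))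
      linarith
    refine (Finset.sum_le_sum h6).trans ?_
    rw [Finset.sum_add_distrib]
    apply add_le_add
    · calc ∑ d ∈ (Icc z D).filter (fun d : ℕ => d.Coprime 10), 9 * (10 : ℝ) ^ n / (d : ℝ) ^ 2
          ≤ ∑ d ∈ Icc z D, 9 * (10 : ℝ) ^ n / (d : ℝ) ^ 2 :=
            Finset.sum_le_sum_of_subset_of_nonneg (Finset.filter_subset _ _)
              (fun d _ _ => by positivity)
        _ = 9 * 10 ^ n * ∑ d ∈ Icc z D, (1 : ℝ) / (d : ℝ) ^ 2 := by
            rw [Finset.mul_sum]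
            apply Finset.sum_congr rfl
            intro d _
            ring
        _ ≤ 9 * 10 ^ n * (2 / z) := mul_le_mul_of_nonneg_left (sum_inv_sq z D hz) (by positivity)
        _ = 18 * 10 ^ n / z := by ring
    · refine le_trans ?_ hB2
      apply Finset.sum_le_sum_of_subset_of_nonneg
      · intro d hd
        rw [Finset.mem_filter, Finset.mem_Icc] at hd ⊢
        exact ⟨⟨by omega, hd.1.2⟩, hd.2⟩
      · intro d _ _
        exact abs_nonneg _
  have h6 : ((10 ^ (2 * (n / 10 + 1) + 1) * 10 ^ (n / 2 + 1) : ℕ) : ℝ) ≤ 10 ^ n / (n : ℝ) ^ 2 := by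
    rw [← pow_add]
    push_cast
    rw [le_div_iff₀ (by positivity)]
    have h7 := (h2 n (by omega)).le
    have h8 : (10 : ℝ) ^ (2 * (n / 10 + 1) + 1 + (n / 2 + 1)) ≤
        10 ^ 8 * (10 : ℝ) ^ n * ((10 : ℝ) ^ (-(1 / 10 : ℝ))) ^ n := by
      have e1 : ((10 : ℝ) ^ (-(1 / 10 : ℝ))) ^ n = (10 : ℝ) ^ (-(1 / 10 : ℝ) * n) := by
        rw [Real.rpow_mul (by norm_num), Real.rpow_natCast]
      rw [e1, ← Real.rpow_natCast, ← Real.rpow_natCast, ← Real.rpow_natCast,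
        ← Real.rpow_add (by norm_num), ← Real.rpow_add (by norm_num)]
      apply Real.rpow_le_rpow_of_exponent_le (by norm_num)
      have h9 : 10 * (2 * (n / 10 + 1) + 1 + (n / 2 + 1)) ≤ 7 * n + 40 := by omega
      have h10 : (10 : ℝ) * ((2 * (n / 10 + 1) + 1 + (n / 2 + 1) : ℕ) : ℝ) ≤ 7 * n + 40 := by
        exact_mod_cast h9
      have h11 : ((8 : ℕ) : ℝ) = 8 := by norm_num
      rw [h11]
      linarith
    calc (10 : ℝ) ^ (2 * (n / 10 + 1) + 1 + (n / 2 + 1)) * (n : ℝ) ^ 2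
        ≤ (10 ^ 8 * (10 : ℝ) ^ n * ((10 : ℝ) ^ (-(1 / 10 : ℝ))) ^ n) * (n : ℝ) ^ 2 :=
          mul_le_mul_of_nonneg_right h8 (by positivity)
      _ = 10 ^ 8 * (10 : ℝ) ^ n * ((n : ℝ) ^ 2 * ((10 : ℝ) ^ (-(1 / 10 : ℝ))) ^ n) := by ring
      _ ≤ 10 ^ 8 * (10 : ℝ) ^ n * (1 / 10 ^ 8) := mul_le_mul_of_nonneg_left h7 (by positivity)
      _ = 10 ^ n := by ring
  have h7 := add_le_add h5 h6
  refine h7.trans (le_of_eq ?_)
  ring

end Pool.Agent.Helper10.SQ
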