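import Pool.Agent.Helper10.SQ.Defs

/-! SQ-A1: palindromes in a residue class inject into the outer digit vectors with small phase.

PROOF. Let `P ∈ Pal n`, digits `δ_i = P / 10 ^ i % 10` (`i < 2 n + 1`), symmetric
(`Helper10/PalBasics.lean`: `eq_sum_digits`, `digit_symm`). Put `b i = δ_(2n+1-t+i)` for `i < t`
(`b ∈ KK t 10 = Fintype.piFinset (fun _ => range 10)`). The digits with number `< t` are
`δ_(t-1-i) = b i`, so `P = Gv n t b + 10 ^ t * mid`, `mid = P / 10 ^ t % 10 ^ (2n+1-2t) < 10 ^ (2n+1-2t)`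
(`mid` is the block of the digits number `t .. 2n-t`).
If `P ≡ a [MOD q]` then, over `ℤ`, `w (a - Gv b) ≡ w 10 ^ t mid ≡ mid` mod `q`, so
`xi = mid / q + integer` with `0 ≤ mid / q < 10 ^ (2n+1-2t) / q ≤ L`, `mid / q < 1`
(`h2`): `Int.fract (xi ..) = mid / q < L`.
Injective: `P, P'` in the class with the same `b`: `P - P' = 10 ^ t (mid - mid')` is divisible by `q`,
`q` is coprime to `10`, so `q ∣ mid - mid'`, `|mid - mid'| < 10 ^ (2n+1-2t) ≤ q`, so `mid = mid'`.
(`Finset.card_le_card_of_injOn`.) -/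

namespace Pool.Agent.Helper10.SQ

open Finset Pool.Agent.Helper10 Pool.Agent.Helper10.P5 Pool.Agent.Helper10.P4

private lemma a1_mod (M t : ℕ) : M % 10 ^ t = ∑ i ∈ range t, (M / 10 ^ i % 10) * 10 ^ i := by
  induction t with
  | zero => rw [pow_zero, Nat.mod_one, Finset.sum_range_zero]
  | succ t ih =>
    rw [Nat.mod_pow_succ, Finset.sum_range_succ, ih, mul_comm (10 ^ t)]

/-- the outer digits -/
private def a1_out (n t N : ℕ) : Fin t → ℕ := fun i => N / 10 ^ (2 * n + 1 - t + (i : ℕ)) % 10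

/-- the middle block -/
private def a1_mid (n t N : ℕ) : ℕ := N / 10 ^ t % 10 ^ (2 * n + 1 - 2 * t)

private lemma a1_decomp (n t N : ℕ) (ht : t ≤ n) (hN : N ∈ Pal n) :
    N = Gv n t (a1_out n t N) + 10 ^ t * a1_mid n t N := by
  classical
  unfold Pal at hN
  obtain ⟨hlt, hlen, hrev⟩ := Finset.mem_filter.1 hN
  rw [Finset.mem_range] at hlt
  have h1 : N % 10 ^ t + 10 ^ t * (N / 10 ^ t) = N := Nat.mod_add_div _ _
  have h2 : N / 10 ^ t % 10 ^ (2 * n + 1 - 2 * t) + 10 ^ (2 * n + 1 - 2 * t) *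
      (N / 10 ^ t / 10 ^ (2 * n + 1 - 2 * t)) = N / 10 ^ t := Nat.mod_add_div _ _
  rw [Nat.div_div_eq_div_mul, ← pow_add] at h2
  have he : t + (2 * n + 1 - 2 * t) = 2 * n + 1 - t := by omega
  rw [he] at h2
  have h3 : N / 10 ^ (2 * n + 1 - t) =
      ∑ i ∈ range t, (N / 10 ^ (2 * n + 1 - t + i) % 10) * 10 ^ i := by
    have h4 : N / 10 ^ (2 * n + 1 - t) < 10 ^ t := by
      rw [Nat.div_lt_iff_lt_mul (by positivity), ← pow_add]
      have : t + (2 * n + 1 - t) = 2 * n + 1 := by omega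
      rwa [this]
    rw [← Nat.mod_eq_of_lt h4, a1_mod]
    apply Finset.sum_congr rfl
    intro i _
    rw [Nat.div_div_eq_div_mul, ← pow_add]
  have h5 : N % 10 ^ t =
      ∑ i ∈ range t, (N / 10 ^ (2 * n + 1 - t + i) % 10) * 10 ^ (t - 1 - i) := by
    rw [a1_mod, ← Finset.sum_range_reflect]
    apply Finset.sum_congr rfl
    intro i hi
    rw [Finset.mem_range] at hi
    congr 1
    rw [← digit_symm N (2 * n + 1) hlen hrev (t - 1 - i) (by omega)]
    congr 3
    omega
  have h6 : Gv n t (a1_out n t N) = 10 ^ (2 * n + 1 - t) * (N / 10 ^ (2 * n + 1 - t)) +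
      N % 10 ^ t := by
    unfold Gv gw a1_out
    rw [Fin.sum_univ_eq_sum_range (fun i => N / 10 ^ (2 * n + 1 - t + i) % 10 *
      (10 ^ (2 * n + 1 - t + i) + 10 ^ (t - 1 - i))) t]
    conv_rhs => rw [h3, h5]
    rw [Finset.mul_sum, ← Finset.sum_add_distrib]
    apply Finset.sum_congr rfl
    intro i _
    rw [pow_add]
    ring
  rw [h6]
  unfold a1_mid
  have h7 : 10 ^ t * (N / 10 ^ t) = 10 ^ t * (N / 10 ^ t % 10 ^ (2 * n + 1 - 2 * t)) +
      10 ^ (2 * n + 1 - t) * (N / 10 ^ (2 * n + 1 - t)) := by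
    conv_lhs => rw [← h2]
    rw [mul_add, ← mul_assoc, ← pow_add, he]
  omega

theorem sqA1 (n t q w a : ℕ) (ht : t ≤ n) (hq : q.Coprime 10)
    (hw : 10 ^ t * w ≡ 1 [MOD q]) (L : ℝ) (h1 : (10 : ℝ) ^ (2 * n + 1 - 2 * t) ≤ L * q)
    (h2 : 10 ^ (2 * n + 1 - 2 * t) ≤ q) :
    cl n q a ≤ ((KK t 10).filter (fun b => Int.fract (xi n t q w a b) < L)).card := by
  unfold cl
  have hqpos : 0 < q := lt_of_lt_of_le (by positivity) h2
  have hmid : ∀ N, a1_mid n t N < q := fun N =>
    lt_of_lt_of_le (Nat.mod_lt _ (by positivity)) h2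
  apply Finset.card_le_card_of_injOn (a1_out n t)
  · intro N hN
    rw [Finset.mem_coe, Finset.mem_filter] at hN
    obtain ⟨hP, hNa⟩ := hN
    rw [Finset.mem_coe, Finset.mem_filter]
    refine ⟨?_, ?_⟩
    · unfold KK
      rw [Fintype.mem_piFinset]
      intro i
      rw [Finset.mem_range]
      exact Nat.mod_lt _ (by norm_num)
    · obtain ⟨s, hs⟩ : ∃ s : ℤ, (a : ℤ) = N + q * s := by
        obtain ⟨s, hs⟩ := hNa.dvd
        exact ⟨s, by linarith⟩
      obtain ⟨r, hr⟩ : ∃ r : ℤ, (10 : ℤ) ^ t * w = 1 + q * r := by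
        obtain ⟨r, hr⟩ := hw.symm.dvd
        push_cast at hr
        exact ⟨r, by linarith⟩
      have hdec := a1_decomp n t N ht hP
      have hdec' : (N : ℤ) = Gv n t (a1_out n t N) + 10 ^ t * a1_mid n t N := by
        exact_mod_cast hdec
      have hz : (w : ℤ) * ((a : ℤ) - Gv n t (a1_out n t N)) =
          a1_mid n t N + q * (r * a1_mid n t N + w * s) := by
        rw [hs, hdec']
        linear_combination (a1_mid n t N : ℤ) * hr
      have hzR : (w : ℝ) * ((a : ℝ) - (Gv n t (a1_out n t N) : ℝ)) =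
          (a1_mid n t N : ℝ) + q * (r * a1_mid n t N + w * s) := by
        exact_mod_cast hz
      have hqR : (0 : ℝ) < q := by exact_mod_cast hqpos
      have hxi : xi n t q w a (a1_out n t N) =
          (a1_mid n t N : ℝ) / q + ((r * a1_mid n t N + w * s : ℤ) : ℝ) := by
        unfold xi
        rw [hzR, add_div, mul_div_cancel_left₀ _ hqR.ne']
        push_cast
        ring
      have hmR : (a1_mid n t N : ℝ) / q < 1 := by
        rw [div_lt_one hqR]
        exact_mod_cast hmid N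
      rw [hxi, Int.fract_add_intCast, Int.fract_eq_self.2 ⟨by positivity, hmR⟩, div_lt_iff₀ hqR]
      refine lt_of_lt_of_le ?_ h1
      have h3 : a1_mid n t N < 10 ^ (2 * n + 1 - 2 * t) := Nat.mod_lt _ (by positivity)
      exact_mod_cast h3
  · intro N hN N' hN' heq
    rw [Finset.mem_coe, Finset.mem_filter] at hN hN'
    have hd := a1_decomp n t N ht hN.1
    have hd' := a1_decomp n t N' ht hN'.1
    have heq' : a1_out n t N = a1_out n t N' := heq
    rw [heq'] at hd
    have hmod : Gv n t (a1_out n t N') + 10 ^ t * a1_mid n t N ≡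
        Gv n t (a1_out n t N') + 10 ^ t * a1_mid n t N' [MOD q] := by
      rw [← hd, ← hd']
      exact hN.2.trans hN'.2.symm
    have h3 := Nat.ModEq.add_left_cancel' _ hmod
    have hcop : Nat.gcd q (10 ^ t) = 1 := Nat.Coprime.pow_right t hq
    have h4 := Nat.ModEq.cancel_left_of_coprime hcop h3
    have h5 := Nat.ModEq.eq_of_lt_of_lt h4 (hmid N) (hmid N')
    calc N = Gv n t (a1_out n t N') + 10 ^ t * a1_mid n t N := hd
      _ = Gv n t (a1_out n t N') + 10 ^ t * a1_mid n t N' := by rw [h5]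
      _ = N' := hd'.symm

end Pool.Agent.Helper10.SQ
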