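import Pool.Agent.Helper10.SQ.Defs

/-! SQ-A2: Fejer majorant: the number of digit vectors with small phase.

PROOF. Put `ξ b = xi n t q w a b = w a / q - ∑ i, b i * th n t q w i`. If `x = Int.fract (ξ b) < 1/(10K)`
then for `j < K` the real part of `ee (j * ξ b) = ee (j * x)` is `cos (2 π j x) ≥ cos (π / 5) ≥ 3/4`
(`ee x = exp (2 π i x)`, `Helper10/Circ.lean`; `cos (π/5) ≥ 1 - (π/5)^2/2 ≥ 3/4`), so
`‖∑ j ∈ range K, ee (j * ξ b)‖ ^ 2 ≥ (3K/4)^2 ≥ K^2/2`. Hence
`card ≤ (2/K^2) ∑_{b ∈ KK t 10} ‖∑_{j<K} ee (j ξ b)‖^2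
      = (2/K^2) ∑_{j,j'<K} ∑_b ee ((j-j') ξ b) ≤ (2/K^2) ∑_{j,j'<K} ‖∑_b ee ((j-j') ξ b)‖`,
and `‖∑_b ee (r ξ b)‖ = ∏_{i<t} ‖∑_{c<10} ee (-r c th i)‖ = 10^t ∏_{i<t} ph (r * th i)` for every integer `r`
(`ph` is even: `‖conj z‖ = ‖z‖`; `Finset.prod_univ_sum`, cf. `full_expand` in `P5/Cnt.lean`). There are `K`
pairs with `j = j'` and at most `2 K` pairs with `|j - j'| = h`, `1 ≤ h < K`. -/

namespace Pool.Agent.Helper10.SQ

open Finset Pool.Agent.Helper10 Pool.Agent.Helper10.P5 Pool.Agent.Helper10.P4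

lemma ph_even (x : ℝ) : ph (-x) = ph x := by
  unfold ph
  have h : ∑ d ∈ range 10, ee ((d : ℝ) * -x) =
      (starRingEnd ℂ) (∑ d ∈ range 10, ee ((d : ℝ) * x)) := by
    rw [map_sum]
    refine Finset.sum_congr rfl fun d _ => ?_
    rw [← ee_neg]
    congr 1
    ring
  rw [h, Complex.norm_conj]

lemma ph_at_zero : ph 0 = 1 := by
  unfold ph
  simp [ee_zero]

lemma phase_sum (n t q w a : ℕ) (r : ℝ) :
    ‖∑ b ∈ KK t 10, ee (r * xi n t q w a b)‖ =
      10 ^ t * ∏ i ∈ range t, ph (r * th n t q w i) := by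
  have h1 : ∀ b ∈ KK t 10, ee (r * xi n t q w a b) = ee (r * ((w : ℝ) * a / q)) *
      ∏ i : Fin t, ee ((b i : ℝ) * (-(r * th n t q w i))) := by
    intro b _
    rw [← ee_sum, ← ee_add]
    congr 1
    unfold xi Gv th
    push_cast
    rw [mul_sub, sub_div, mul_sub, sub_eq_add_neg]
    congr 1
    rw [Finset.mul_sum, Finset.sum_div, Finset.mul_sum, ← Finset.sum_neg_distrib]
    refine Finset.sum_congr rfl fun i _ => ?_
    ring
  rw [Finset.sum_congr rfl h1, ← Finset.mul_sum, norm_mul, norm_ee, one_mul]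
  have h2 : ∑ b ∈ KK t 10, ∏ i : Fin t, ee ((b i : ℝ) * (-(r * th n t q w i))) =
      ∏ i : Fin t, ∑ c ∈ range 10, ee ((c : ℝ) * (-(r * th n t q w i))) := by
    unfold KK
    rw [Finset.prod_univ_sum (fun _ : Fin t => range 10)]
  rw [h2, norm_prod]
  have h3 : ∀ i : Fin t, ‖∑ c ∈ range 10, ee ((c : ℝ) * (-(r * th n t q w i)))‖ =
      10 * ph (r * th n t q w i) := by
    intro i
    rw [← ph_even]
    unfold ph
    ring
  rw [Finset.prod_congr rfl fun i _ => h3 i, Finset.prod_mul_distrib, Finset.prod_const,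
    Finset.card_univ, Fintype.card_fin, Finset.prod_range]

lemma cos_small {y : ℝ} (h0 : 0 ≤ y) (h1 : y ≤ Real.pi / 5) : 3 / 4 ≤ Real.cos y := by
  have h2 := Real.one_sub_sq_div_two_le_cos (x := y)
  have h3 : Real.pi < 3.15 := Real.pi_lt_d2
  have h4 : y ≤ 0.63 := by linarith
  nlinarith

lemma ee_re (x : ℝ) : (ee x).re = Real.cos (2 * Real.pi * x) := by
  unfold ee
  rw [mul_comm, Complex.exp_mul_I, Complex.add_re, Complex.mul_re, Complex.I_re, Complex.I_im,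
    ← Complex.ofReal_cos, ← Complex.ofReal_sin, Complex.ofReal_re, Complex.ofReal_im]
  ring

lemma small_phase {K : ℕ} (hK : 1 ≤ K) {x : ℝ} (h : Int.fract x < 1 / (10 * K)) :
    (K : ℝ) ^ 2 / 2 ≤ ‖∑ j ∈ range K, ee ((j : ℝ) * x)‖ ^ 2 := by
  have hK' : (1 : ℝ) ≤ K := by exact_mod_cast hK
  have h1 : ∀ j ∈ range K, 3 / 4 ≤ (ee ((j : ℝ) * x)).re := by
    intro j hj
    have hj' : (j : ℝ) ≤ K := by exact_mod_cast (Finset.mem_range.1 hj).le
    have h2 : ee ((j : ℝ) * x) = ee ((j : ℝ) * Int.fract x) := by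
      have h3 : (j : ℝ) * x = (j : ℝ) * Int.fract x + (((j : ℤ) * ⌊x⌋ : ℤ) : ℝ) := by
        push_cast
        rw [← mul_add, Int.fract_add_floor]
      rw [h3, ee_add_int]
    rw [h2, ee_re]
    have h0 := Int.fract_nonneg x
    have hj0 : (0 : ℝ) ≤ j := Nat.cast_nonneg j
    have h5 : (j : ℝ) * Int.fract x ≤ 1 / 10 := by
      have h6 : (j : ℝ) * Int.fract x ≤ K * (1 / (10 * K)) :=
        mul_le_mul hj' h.le h0 (by positivity)
      have h7 : (K : ℝ) * (1 / (10 * K)) = 1 / 10 := by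
        field_simp
      rwa [h7] at h6
    have hpi := Real.pi_pos
    apply cos_small
    · positivity
    · nlinarith [mul_nonneg hj0 h0]
  have h2 : (3 / 4 : ℝ) * K ≤ (∑ j ∈ range K, ee ((j : ℝ) * x)).re := by
    rw [Complex.re_sum]
    calc (3 / 4 : ℝ) * K = ∑ _j ∈ range K, (3 / 4 : ℝ) := by
          rw [Finset.sum_const, Finset.card_range, nsmul_eq_mul]
          ring
      _ ≤ _ := Finset.sum_le_sum h1
  have h3 : (3 / 4 : ℝ) * K ≤ ‖∑ j ∈ range K, ee ((j : ℝ) * x)‖ := h2.trans (Complex.re_le_norm _)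
  have h4 : (0 : ℝ) ≤ 3 / 4 * K := by positivity
  nlinarith [mul_le_mul h3 h3 h4 (norm_nonneg _)]

lemma sq_expand (K : ℕ) (x : ℝ) :
    ((‖∑ j ∈ range K, ee ((j : ℝ) * x)‖ ^ 2 : ℝ) : ℂ) =
      ∑ j ∈ range K, ∑ j' ∈ range K, ee (((j : ℝ) - j') * x) := by
  have h : ((‖∑ j ∈ range K, ee ((j : ℝ) * x)‖ ^ 2 : ℝ) : ℂ) =
      (∑ j ∈ range K, ee ((j : ℝ) * x)) * (starRingEnd ℂ) (∑ j ∈ range K, ee ((j : ℝ) * x)) := by
    rw [Complex.mul_conj, Complex.normSq_eq_norm_sq]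
  rw [h, map_sum, Finset.sum_mul_sum]
  refine Finset.sum_congr rfl fun j _ => Finset.sum_congr rfl fun j' _ => ?_
  rw [← ee_neg, ← ee_add]
  congr 1
  ring

lemma diag_sum {K : ℕ} (F : ℝ → ℝ) (h0 : ∀ x, 0 ≤ F x) (he : ∀ x, F (-x) = F x) :
    ∑ j ∈ range K, ∑ j' ∈ range K, F ((j : ℝ) - j') ≤
      K * (F 0 + 2 * ∑ h ∈ Ico 1 K, F h) := by
  have h1 : ∀ j ∈ range K, ∑ j' ∈ range K, F ((j : ℝ) - j') ≤
      F 0 + 2 * ∑ h ∈ Ico 1 K, F h := by
    intro j hj
    have hj' := Finset.mem_range.1 hj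
    have h2 : ∑ j' ∈ range K, F ((j : ℝ) - j') =
        ∑ j' ∈ range j, F ((j : ℝ) - j') + (F 0 + ∑ j' ∈ Ico (j + 1) K, F ((j : ℝ) - j')) := by
      rw [Finset.range_eq_Ico, ← Finset.sum_Ico_consecutive _ (Nat.zero_le j) hj'.le,
        Finset.range_eq_Ico, Finset.sum_eq_sum_Ico_succ_bot hj']
      simp
    have h3 : ∑ j' ∈ range j, F ((j : ℝ) - j') ≤ ∑ h ∈ Ico 1 K, F h := by
      have h4 : ∑ j' ∈ range j, F ((j : ℝ) - j') = ∑ h ∈ (range j).image (fun i => j - i), F h := by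
        rw [Finset.sum_image]
        · refine Finset.sum_congr rfl fun i hi => ?_
          rw [Nat.cast_sub (Finset.mem_range.1 hi).le]
        · intro x hx y hy hxy
          have hx' := Finset.mem_range.1 hx
          have hy' := Finset.mem_range.1 hy
          simp only at hxy
          omega
      rw [h4]
      refine Finset.sum_le_sum_of_subset_of_nonneg ?_ fun _ _ _ => h0 _
      intro h hh
      obtain ⟨i, hi, rfl⟩ := Finset.mem_image.1 hh
      have hi' := Finset.mem_range.1 hi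
      rw [Finset.mem_Ico]
      omega
    have h5 : ∑ j' ∈ Ico (j + 1) K, F ((j : ℝ) - j') ≤ ∑ h ∈ Ico 1 K, F h := by
      have h4 : ∑ j' ∈ Ico (j + 1) K, F ((j : ℝ) - j') =
          ∑ h ∈ (Ico (j + 1) K).image (fun i => i - j), F h := by
        rw [Finset.sum_image]
        · refine Finset.sum_congr rfl fun i hi => ?_
          have hi' := Finset.mem_Ico.1 hi
          rw [Nat.cast_sub (by omega : j ≤ i), ← he]
          congr 1
          ring
        · intro x hx y hy hxy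
          have hx' := Finset.mem_Ico.1 hx
          have hy' := Finset.mem_Ico.1 hy
          simp only at hxy
          omega
      rw [h4]
      refine Finset.sum_le_sum_of_subset_of_nonneg ?_ fun _ _ _ => h0 _
      intro h hh
      obtain ⟨i, hi, rfl⟩ := Finset.mem_image.1 hh
      have hi' := Finset.mem_Ico.1 hi
      rw [Finset.mem_Ico]
      omega
    rw [h2]
    linarith
  calc ∑ j ∈ range K, ∑ j' ∈ range K, F ((j : ℝ) - j') ≤
      ∑ _j ∈ range K, (F 0 + 2 * ∑ h ∈ Ico 1 K, F h) := Finset.sum_le_sum h1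
    _ = _ := by rw [Finset.sum_const, Finset.card_range, nsmul_eq_mul]

theorem sqA2 (n t K q w a : ℕ) (hK : 1 ≤ K) (hq : 0 < q) :
    (((KK t 10).filter (fun b => Int.fract (xi n t q w a b) < 1 / (10 * K))).card : ℝ) ≤
      2 * 10 ^ t / K *
        (1 + 2 * ∑ h ∈ Ico 1 K, ∏ i ∈ range t, ph ((h : ℝ) * th n t q w i)) := by
  have hK' : (1 : ℝ) ≤ K := by exact_mod_cast hK
  set S : ℝ := ∑ b ∈ KK t 10, ‖∑ j ∈ range K, ee ((j : ℝ) * xi n t q w a b)‖ ^ 2 with hS
  set F : ℝ → ℝ := fun r => ∏ i ∈ range t, ph (r * th n t q w i) with hF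
  have hF0 : ∀ x, 0 ≤ F x := fun x => Finset.prod_nonneg fun i _ => ph_nonneg _
  have hFe : ∀ x, F (-x) = F x := by
    intro x
    simp only [hF]
    refine Finset.prod_congr rfl fun i _ => ?_
    rw [neg_mul, ph_even]
  have hF1 : F 0 = 1 := by
    simp only [hF, zero_mul, ph_at_zero, Finset.prod_const_one]
  -- lower bound
  have h1 : (((KK t 10).filter (fun b => Int.fract (xi n t q w a b) < 1 / (10 * K))).card : ℝ) *
      ((K : ℝ) ^ 2 / 2) ≤ S := by
    rw [← nsmul_eq_mul, ← Finset.sum_const, hS]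
    calc ∑ _b ∈ (KK t 10).filter (fun b => Int.fract (xi n t q w a b) < 1 / (10 * K)),
          (K : ℝ) ^ 2 / 2 ≤
        ∑ b ∈ (KK t 10).filter (fun b => Int.fract (xi n t q w a b) < 1 / (10 * K)),
          ‖∑ j ∈ range K, ee ((j : ℝ) * xi n t q w a b)‖ ^ 2 := by
          refine Finset.sum_le_sum fun b hb => ?_
          exact small_phase hK (Finset.mem_filter.1 hb).2
      _ ≤ _ := Finset.sum_le_sum_of_subset_of_nonneg (Finset.filter_subset _ _)
          fun _ _ _ => by positivity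
  -- upper bound
  have h2 : S ≤ 10 ^ t * (K * (1 + 2 * ∑ h ∈ Ico 1 K, F h)) := by
    have h3 : (S : ℂ) = ∑ j ∈ range K, ∑ j' ∈ range K, ∑ b ∈ KK t 10,
        ee (((j : ℝ) - j') * xi n t q w a b) := by
      rw [hS, Complex.ofReal_sum, Finset.sum_congr rfl fun b _ => sq_expand K _, Finset.sum_comm]
      refine Finset.sum_congr rfl fun j _ => ?_
      rw [Finset.sum_comm]
    have hS0 : 0 ≤ S := by
      rw [hS]
      positivity
    have h4 : S = ‖(S : ℂ)‖ := by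
      rw [Complex.norm_real, Real.norm_eq_abs, abs_of_nonneg hS0]
    rw [h4, h3]
    calc ‖∑ j ∈ range K, ∑ j' ∈ range K, ∑ b ∈ KK t 10,
          ee (((j : ℝ) - j') * xi n t q w a b)‖ ≤
        ∑ j ∈ range K, ∑ j' ∈ range K, ‖∑ b ∈ KK t 10,
          ee (((j : ℝ) - j') * xi n t q w a b)‖ := by
          refine (norm_sum_le _ _).trans (Finset.sum_le_sum fun j _ => norm_sum_le _ _)
      _ = 10 ^ t * ∑ j ∈ range K, ∑ j' ∈ range K, F ((j : ℝ) - j') := by
          rw [Finset.mul_sum]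
          refine Finset.sum_congr rfl fun j _ => ?_
          rw [Finset.mul_sum]
          refine Finset.sum_congr rfl fun j' _ => ?_
          rw [phase_sum]
      _ ≤ 10 ^ t * (K * (F 0 + 2 * ∑ h ∈ Ico 1 K, F h)) :=
          mul_le_mul_of_nonneg_left (diag_sum F hF0 hFe) (by positivity)
      _ = _ := by rw [hF1]
  have h5 := h1.trans h2
  have hKpos : (0 : ℝ) < K := by linarith
  have h6 : 2 * 10 ^ t / (K : ℝ) * (1 + 2 * ∑ h ∈ Ico 1 K, F h) =
      10 ^ t * (K * (1 + 2 * ∑ h ∈ Ico 1 K, F h)) / ((K : ℝ) ^ 2 / 2) := by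
    field_simp
  have h7 : (((KK t 10).filter (fun b => Int.fract (xi n t q w a b) < 1 / (10 * K))).card : ℝ) ≤
      2 * 10 ^ t / (K : ℝ) * (1 + 2 * ∑ h ∈ Ico 1 K, F h) := by
    rw [h6, le_div_iff₀ (by positivity)]
    exact h5
  exact h7

end Pool.Agent.Helper10.SQ
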