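import Pool.Agent.Helper10.SQ.Defs

/-! SQ-A3: the key relation between consecutive frequencies, and the pair bound.

PROOF of `th_rel`. `10 gw(i+1) - gw(i) = 99 * 10 ^ (2n+1-t+i)` (the powers `10 ^ (t-1-i)` cancel), and
`10 ^ (2n+1-t+i) = 10 ^ i * 10 ^ (2n+1-2t) * 10 ^ t`. So
`10 th(i+1) - th(i) - 99 * 10^i * 10^(2n+1-2t) / q = 99 * 10^i * 10^(2n+1-2t) * (w 10^t - 1) / q`,
an integer because `q ∣ 10^t w - 1` (in `ℤ`).

PROOF of `sqA3`. `y = 99 h lam ≥ 0`, `Z = ⌊10^(2m) y⌋₊`. For `l < m`: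
`Z / 10^(2m-2l-1) = ⌊10^(2l+1) y⌋₊` (`Nat.floor_div_natCast`). Let `e` be its last digit. If `e = 0` or
`e = 9` use `ph ≤ 1` twice. Otherwise `Int.fract (10^(2l) y) ∈ [1/10, 9/10)`, so `nd (10^(2l) y) ≥ 1/10`.
With `x = h θ(2l)`, `x' = h θ(2l+1)`: `10 x' - x = 10^(2l) y + h z`, so `1/10 ≤ nd (10 x' - x) ≤ 10 nd x' + nd x`:
`nd x ≥ 1/110` or `nd x' ≥ 1/110`. Finally `ph u ^ 2 ≤ ‖(1 + ee u)/2‖ ^ 2 ≤ 1 - 4 nd u ^ 2` (`P5.ph_le`,
`norm_one_add_ee_sq` in `Circ.lean`), so the corresponding `ph` is `≤ sqrt(1 - 4/12100) ≤ 6049/6050`, the other is `≤ 1`.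
Multiply over `l` (`∏ i ∈ range (2m) = ∏ l ∈ range m` of pairs: `Finset.prod_range_succ` induction). -/

namespace Pool.Agent.Helper10.SQ

open Finset Pool.Agent.Helper10 Pool.Agent.Helper10.P5 Pool.Agent.Helper10.P4

theorem th_rel (n t q w i : ℕ) (ht : t ≤ n) (hi : i + 1 < t) (hq : 0 < q)
    (hw : 10 ^ t * w ≡ 1 [MOD q]) :
    ∃ z : ℤ, 10 * th n t q w (i + 1) - th n t q w i -
      99 * 10 ^ i * ((10 : ℝ) ^ (2 * n + 1 - 2 * t) / q) = z := by
  have h1 : 10 * (gw n t (i + 1) : ℝ) - (gw n t i : ℝ) =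
      99 * 10 ^ i * ((10 : ℝ) ^ (2 * n + 1 - 2 * t) * 10 ^ t) := by
    obtain ⟨s, rfl⟩ : ∃ s, t = i + 2 + s := ⟨t - (i + 2), by omega⟩
    obtain ⟨r, rfl⟩ : ∃ r, n = i + 2 + s + r := ⟨n - (i + 2 + s), by omega⟩
    have e1 : 2 * (i + 2 + s + r) + 1 - (i + 2 + s) + (i + 1) = (2 * i + s + 2 * r + 3) + 1 := by
      omega
    have e2 : i + 2 + s - 1 - (i + 1) = s := by omega
    have e3 : 2 * (i + 2 + s + r) + 1 - (i + 2 + s) + i = 2 * i + s + 2 * r + 3 := by omega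
    have e4 : i + 2 + s - 1 - i = s + 1 := by omega
    have e5 : 2 * (i + 2 + s + r) + 1 - 2 * (i + 2 + s) = 2 * r + 1 := by omega
    rw [gw, gw, e1, e2, e3, e4, e5]
    push_cast
    ring
  have h2 : (q : ℤ) ∣ ((10 ^ t * w : ℕ) : ℤ) - ((1 : ℕ) : ℤ) :=
    (Nat.modEq_iff_dvd.1 hw.symm)
  obtain ⟨z, hz⟩ := h2
  have hz' : (10 : ℝ) ^ t * w - 1 = q * z := by
    have := congrArg (fun x : ℤ => (x : ℝ)) hz
    push_cast at this
    exact this
  have hq' : (q : ℝ) ≠ 0 := by positivity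
  refine ⟨99 * 10 ^ i * 10 ^ (2 * n + 1 - 2 * t) * z, ?_⟩
  have h3 : 10 * th n t q w (i + 1) - th n t q w i =
      w * (99 * 10 ^ i * ((10 : ℝ) ^ (2 * n + 1 - 2 * t) * 10 ^ t)) / q := by
    rw [th, th, ← h1]
    ring
  rw [h3]
  push_cast
  rw [div_sub' hq', div_eq_iff hq']
  have h4 : (w : ℝ) * 10 ^ t = 1 + q * z := by linarith
  field_simp
  linear_combination h4

private lemma prod_pairs (f : ℕ → ℝ) (m : ℕ) :
    ∏ i ∈ range (2 * m), f i = ∏ l ∈ range m, (f (2 * l) * f (2 * l + 1)) := by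
  induction m with
  | zero => simp
  | succ m ih =>
    rw [show 2 * (m + 1) = 2 * m + 1 + 1 by ring, prod_range_succ, prod_range_succ,
      prod_range_succ, ih, mul_assoc]

private lemma ph_small (x : ℝ) (h : 1 / 110 ≤ nd x) : ph x ≤ 6049 / 6050 := by
  refine (ph_le x).trans ?_
  refine abs_le_of_sq_le_sq' ?_ (by norm_num) |>.2
  refine (norm_one_add_ee_sq x).trans ?_
  have : (1 / 110 : ℝ) ^ 2 ≤ nd x ^ 2 := pow_le_pow_left₀ (by norm_num) h 2
  nlinarith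

private lemma pair_bound (x x' u : ℝ) (hu : 0 ≤ u) (z : ℤ) (h : 10 * x' - x = u + z) :
    ph x * ph x' ≤ gg (⌊10 * u⌋₊ % 10) := by
  have hx := ph_le_one x
  have hx' := ph_le_one x'
  have h0 := ph_nonneg x
  have h0' := ph_nonneg x'
  set N := ⌊10 * u⌋₊ with hN
  by_cases he : N % 10 = 0 ∨ N % 10 = 9
  · rw [gg, if_pos he]
    nlinarith
  · rw [gg, if_neg he]
    push Not at he
    have h1 : (N : ℝ) ≤ 10 * u := Nat.floor_le (by positivity)
    have h2 : 10 * u < N + 1 := Nat.lt_floor_add_one _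
    obtain ⟨a, e, ha, he1, he8⟩ : ∃ a e : ℕ, N = 10 * a + e ∧ 1 ≤ e ∧ e ≤ 8 :=
      ⟨N / 10, N % 10, by omega, by omega, by omega⟩
    have ha' : (N : ℝ) = 10 * a + e := by exact_mod_cast ha
    have he1' : (1 : ℝ) ≤ e := by exact_mod_cast he1
    have he8' : (e : ℝ) ≤ 8 := by exact_mod_cast he8
    have hu1 : (a : ℝ) + 1 / 10 ≤ u := by linarith
    have hu2 : u < (a : ℝ) + 9 / 10 := by linarith
    have hnd : 1 / 10 ≤ nd u := by
      unfold nd
      rcases le_or_gt (round u) (a : ℤ) with hk | hk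
      · have hk' : ((round u : ℤ) : ℝ) ≤ a := by exact_mod_cast hk
        refine le_trans ?_ (le_abs_self _)
        linarith
      · have hk' : (a : ℝ) + 1 ≤ (round u : ℤ) := by exact_mod_cast hk
        refine le_trans ?_ (neg_le_abs _)
        linarith
    have h3 : nd u = nd (10 * x' - x) := by rw [h, nd_add_int]
    have h4 : nd (10 * x' - x) ≤ 10 * nd x' + nd x := by
      refine (nd_le _ (10 * round x' - round x)).trans ?_
      push_cast
      rw [show 10 * x' - x - (10 * (round x' : ℝ) - round x) =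
        10 * (x' - round x') - (x - round x) by ring]
      refine (abs_sub _ _).trans ?_
      rw [abs_mul, abs_of_pos (by norm_num : (0 : ℝ) < 10)]
      exact le_refl _
    rcases le_or_gt (1 / 110) (nd x) with h5 | h5
    · have := ph_small x h5
      nlinarith
    · have h6 : 1 / 110 ≤ nd x' := by linarith
      have := ph_small x' h6
      nlinarith

theorem sqA3 (θ : ℕ → ℝ) (lam : ℝ) (m h : ℕ) (hlam : 0 ≤ lam)
    (hrel : ∀ i, i + 1 < 2 * m → ∃ z : ℤ, 10 * θ (i + 1) - θ i - 99 * 10 ^ i * lam = z) :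
    ∏ i ∈ range (2 * m), ph ((h : ℝ) * θ i) ≤ wt m ⌊(10 : ℝ) ^ (2 * m) * (99 * h * lam)⌋₊ := by
  set y : ℝ := 99 * h * lam with hy
  have hy0 : 0 ≤ y := by positivity
  rw [prod_pairs, wt]
  refine prod_le_prod (fun l _ => mul_nonneg (ph_nonneg _) (ph_nonneg _)) fun l hl => ?_
  rw [mem_range] at hl
  have h1 : ⌊(10 : ℝ) ^ (2 * m) * y⌋₊ / 10 ^ (2 * m - 2 * l - 1) = ⌊10 * (10 ^ (2 * l) * y)⌋₊ := by
    rw [show (10 : ℕ) ^ (2 * m - 2 * l - 1) = ((10 ^ (2 * m - 2 * l - 1) : ℕ)) from rfl,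
      ← Nat.floor_div_natCast]
    congr 1
    push_cast
    rw [div_eq_iff (by positivity)]
    have : (10 : ℝ) ^ (2 * m) = 10 * 10 ^ (2 * l) * 10 ^ (2 * m - 2 * l - 1) := by
      rw [← pow_succ', ← pow_add]
      congr 1
      omega
    rw [this]
    ring
  rw [h1]
  obtain ⟨z, hz⟩ := hrel (2 * l) (by omega)
  refine pair_bound _ _ _ (by positivity) ((h : ℤ) * z) ?_
  push_cast
  rw [← hz, hy]
  ring

end Pool.Agent.Helper10.SQ
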