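import Pool.Agent.Helper10.SQ.Defs

/-! SQ-A4: sums of the digit weight over cells.

PROOF. `⌊10^(2m) y d⌋₊ < 10^(2m+1)`; group the `d` by this value `z`:
`∑_d wt m ⌊..⌋₊ = ∑_{z < 10^(2m+1)} card(fibre) * wt m z ≤ M ∑_{z < 10^(2m+1)} wt m z` (`wt ≥ 0`), and
`∑_{z < 10^(2m+1)} wt m z = 10 * 100^m * rho^m`: `wt m z` depends only on `z mod 10^(2m)`; induction on `m`:
with `z = 10^(2m) * (10 e + e') + z'`.. (or `z = 100 z' + u`): the two last digits of `z` (`l = m-1`: exponent `1`,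
the digit number 1) contribute the factor `∑_{u<100} gg (u/10 % 10) = 10 * (2 + 8 * 6049/6050) = 100 * rho`, and
`wt (m+1) (100 z' + u) = wt m z' * gg (u/10%10)` because `(100 z' + u) / 10^(2(m+1)-2l-1) = z' / 10^(2m-2l-1)` for
`l < m`. -/

namespace Pool.Agent.Helper10.SQ

open Finset Pool.Agent.Helper10 Pool.Agent.Helper10.P5 Pool.Agent.Helper10.P4

theorem gg_nonneg (e : ℕ) : 0 ≤ gg e := by
  unfold gg
  split_ifs <;> norm_num

theorem wt_nonneg (m Z : ℕ) : 0 ≤ wt m Z := by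
  unfold wt
  exact Finset.prod_nonneg fun _ _ => gg_nonneg _

private theorem wt_succ (m z u : ℕ) (hu : u < 100) :
    wt (m + 1) (100 * z + u) = wt m z * gg (u / 10 % 10) := by
  unfold wt
  rw [Finset.prod_range_succ]
  congr 1
  · refine Finset.prod_congr rfl fun l hl => ?_
    have hl' := Finset.mem_range.1 hl
    have h1 : 2 * (m + 1) - 2 * l - 1 = 2 + (2 * m - 2 * l - 1) := by omega
    have h2 : (100 * z + u) / 10 ^ 2 = z := by omega
    rw [h1, pow_add, ← Nat.div_div_eq_div_mul, h2]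
  · have h1 : 2 * (m + 1) - 2 * m - 1 = 1 := by omega
    have h2 : (100 * z + u) / 10 ^ 1 % 10 = u / 10 % 10 := by omega
    rw [h1, h2]

private theorem sum_gg : ∑ u ∈ range 100, gg (u / 10 % 10) = 100 * rho := by
  unfold gg rho
  simp only [Finset.sum_range_succ, Finset.sum_range_zero]
  norm_num

private theorem sum_blocks (N : ℕ) (f : ℕ → ℝ) :
    ∑ z ∈ range (100 * N), f z = ∑ z ∈ range N, ∑ u ∈ range 100, f (100 * z + u) := by
  induction N with
  | zero => simp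
  | succ N ih =>
    rw [Finset.sum_range_succ, ← ih, mul_add, mul_one, Finset.sum_range_add]

private theorem sum_wt (m : ℕ) : ∑ z ∈ range (10 * 100 ^ m), wt m z = 10 * 100 ^ m * rho ^ m := by
  induction m with
  | zero =>
    simp [wt]
  | succ m ih =>
    have h1 : 10 * 100 ^ (m + 1) = 100 * (10 * 100 ^ m) := by ring
    rw [h1, sum_blocks]
    have h2 : ∀ z ∈ range (10 * 100 ^ m), ∑ u ∈ range 100, wt (m + 1) (100 * z + u) =
        wt m z * (100 * rho) := by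
      intro z _
      rw [← sum_gg, Finset.mul_sum]
      exact Finset.sum_congr rfl fun u hu => wt_succ m z u (Finset.mem_range.1 hu)
    rw [Finset.sum_congr rfl h2, ← Finset.sum_mul, ih]
    ring

theorem sqA4 (m M : ℕ) (D : Finset ℕ) (y : ℕ → ℝ) (hy : ∀ d ∈ D, 0 ≤ y d ∧ y d < 10)
    (hM : ∀ z : ℕ, (D.filter (fun d => ⌊(10 : ℝ) ^ (2 * m) * y d⌋₊ = z)).card ≤ M) :
    ∑ d ∈ D, wt m ⌊(10 : ℝ) ^ (2 * m) * y d⌋₊ ≤ M * 10 * 100 ^ m * rho ^ m := by
  have hmaps : ∀ d ∈ D, ⌊(10 : ℝ) ^ (2 * m) * y d⌋₊ ∈ range (10 * 100 ^ m) := by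
    intro d hd
    obtain ⟨h0, h1⟩ := hy d hd
    rw [Finset.mem_range, Nat.floor_lt (by positivity)]
    push_cast
    have h2 : (100 : ℝ) ^ m = 10 ^ (2 * m) := by
      rw [pow_mul]
      norm_num
    rw [h2]
    have h3 : (0 : ℝ) < 10 ^ (2 * m) := by positivity
    calc (10 : ℝ) ^ (2 * m) * y d < 10 ^ (2 * m) * 10 := mul_lt_mul_of_pos_left h1 h3
      _ = 10 * 10 ^ (2 * m) := by ring
  rw [← Finset.sum_fiberwise_of_maps_to hmaps]
  have h1 : ∀ z ∈ range (10 * 100 ^ m),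
      ∑ d ∈ D with ⌊(10 : ℝ) ^ (2 * m) * y d⌋₊ = z, wt m ⌊(10 : ℝ) ^ (2 * m) * y d⌋₊ ≤
        M * wt m z := by
    intro z _
    have h2 : ∑ d ∈ D with ⌊(10 : ℝ) ^ (2 * m) * y d⌋₊ = z, wt m ⌊(10 : ℝ) ^ (2 * m) * y d⌋₊ =
        ∑ d ∈ D with ⌊(10 : ℝ) ^ (2 * m) * y d⌋₊ = z, wt m z := by
      refine Finset.sum_congr rfl fun d hd => ?_
      rw [(Finset.mem_filter.1 hd).2]
    rw [h2, Finset.sum_const, nsmul_eq_mul]
    exact mul_le_mul_of_nonneg_right (by exact_mod_cast hM z) (wt_nonneg m z)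
  refine (Finset.sum_le_sum h1).trans ?_
  rw [← Finset.mul_sum, sum_wt]
  apply le_of_eq
  ring

end Pool.Agent.Helper10.SQ
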