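import Pool.Agent.Helper10.SQ.Defs

/-! SQ-A5: spacing of the reals `99 h 10^(2k-2s-1) / d^2`, `10^k ≤ d < 10^(k+1)`.

PROOF. Put `y d = 99 h 10^(2k-2s-1) / d^2`. For `d < d'` in the block:
`1/d^2 - 1/d'^2 = (d'-d)(d'+d)/(d^2 d'^2) ≥ (d'-d)/(d^2 d') ≥ (d'-d) / 10^(3k+3)`, so
`y d - y d' ≥ 99 (d'-d) 10^(2k-2s-1-3k-3) ≥ (d'-d) 10^(-(k+2s+3))`. If both are in the cell
`⌊10^(2m) y⌋₊ = z` then `10^(2m) (y d - y d') < 1`, so `d' - d < 10^(k+2s+3-2m)` (`2m ≤ k`). A finite set of naturals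
whose differences are `< B` has at most `B` elements (it lies in `Ico d0 (d0+B)`, `d0` its minimum). -/

namespace Pool.Agent.Helper10.SQ

open Finset Pool.Agent.Helper10 Pool.Agent.Helper10.P5 Pool.Agent.Helper10.P4

private lemma sqA5_aux (k s m h d d' : ℕ) (hs : s + 1 ≤ k) (hm : 2 * m ≤ k) (hh : 1 ≤ h)
    (hd : 10 ^ k ≤ d) (hd2 : d < 10 ^ (k + 1)) (hd' : d' < 10 ^ (k + 1))
    (hdd : d + 10 ^ (k + 2 * s + 3 - 2 * m) ≤ d') :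
    (10 : ℝ) ^ (2 * m) * (99 * h * ((10 : ℝ) ^ (2 * k - 2 * s - 1) / ((d' ^ 2 : ℕ) : ℝ))) + 1 ≤
      (10 : ℝ) ^ (2 * m) * (99 * h * ((10 : ℝ) ^ (2 * k - 2 * s - 1) / ((d ^ 2 : ℕ) : ℝ))) := by
  obtain ⟨A, hA⟩ : ∃ A : ℝ, A = (10 : ℝ) ^ (2 * m) := ⟨_, rfl⟩
  obtain ⟨B, hB⟩ : ∃ B : ℝ, B = (10 : ℝ) ^ (2 * k - 2 * s - 1) := ⟨_, rfl⟩
  obtain ⟨C, hC⟩ : ∃ C : ℝ, C = (10 : ℝ) ^ (k + 2 * s + 3 - 2 * m) := ⟨_, rfl⟩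
  have hABC : A * B * C = (10 : ℝ) ^ (3 * k + 2) := by
    rw [hA, hB, hC, ← pow_add, ← pow_add]
    congr 1
    omega
  have hA0 : 0 < A := by rw [hA]; positivity
  have hB0 : 0 < B := by rw [hB]; positivity
  have hC0 : 0 < C := by rw [hC]; positivity
  have hdpos : (0 : ℝ) < (d : ℝ) := by
    have : 0 < d := lt_of_lt_of_le (by positivity) hd
    exact_mod_cast this
  have hlt : (d : ℝ) + C ≤ (d' : ℝ) := by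
    rw [hC]
    exact_mod_cast hdd
  have hd'pos : (0 : ℝ) < (d' : ℝ) := by linarith
  have hdle : (d : ℝ) ≤ (10 : ℝ) ^ (k + 1) := by exact_mod_cast hd2.le
  have hd'le : (d' : ℝ) ≤ (10 : ℝ) ^ (k + 1) := by exact_mod_cast hd'.le
  have hh1 : (1 : ℝ) ≤ (h : ℝ) := by exact_mod_cast hh
  rw [← hA, ← hB]
  push_cast
  have e1 : A * (99 * (h : ℝ) * (B / (d : ℝ) ^ 2)) - A * (99 * (h : ℝ) * (B / (d' : ℝ) ^ 2)) =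
      (99 * (h : ℝ) * A * B * ((d' : ℝ) ^ 2 - (d : ℝ) ^ 2)) / ((d : ℝ) ^ 2 * (d' : ℝ) ^ 2) := by
    field_simp
  have e2 : C * (d' : ℝ) ≤ (d' : ℝ) ^ 2 - (d : ℝ) ^ 2 := by
    nlinarith
  have e3 : 99 * (A * B * C) * (d' : ℝ) ≤
      99 * (h : ℝ) * A * B * ((d' : ℝ) ^ 2 - (d : ℝ) ^ 2) := by
    have h1 : 0 ≤ 99 * A * B := by positivity
    have h2 := mul_le_mul_of_nonneg_left e2 h1
    have h3 : 0 ≤ 99 * A * B * ((d' : ℝ) ^ 2 - (d : ℝ) ^ 2) :=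
      mul_nonneg h1 ((mul_pos hC0 hd'pos).le.trans e2)
    have h4 := mul_le_mul_of_nonneg_right hh1 h3
    calc 99 * (A * B * C) * (d' : ℝ) = 99 * A * B * (C * (d' : ℝ)) := by ring
      _ ≤ 99 * A * B * ((d' : ℝ) ^ 2 - (d : ℝ) ^ 2) := h2
      _ = 1 * (99 * A * B * ((d' : ℝ) ^ 2 - (d : ℝ) ^ 2)) := by ring
      _ ≤ (h : ℝ) * (99 * A * B * ((d' : ℝ) ^ 2 - (d : ℝ) ^ 2)) := h4
      _ = _ := by ring
  have e4 : (d : ℝ) ^ 2 * (d' : ℝ) ^ 2 ≤ 99 * (A * B * C) * (d' : ℝ) := by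
    rw [hABC]
    have h5 : (d : ℝ) ^ 2 ≤ ((10 : ℝ) ^ (k + 1)) ^ 2 := pow_le_pow_left₀ hdpos.le hdle 2
    have h6 : (d : ℝ) ^ 2 * (d' : ℝ) ≤ ((10 : ℝ) ^ (k + 1)) ^ 2 * (10 : ℝ) ^ (k + 1) :=
      mul_le_mul h5 hd'le hd'pos.le (by positivity)
    have h7 : ((10 : ℝ) ^ (k + 1)) ^ 2 * (10 : ℝ) ^ (k + 1) = 10 * (10 : ℝ) ^ (3 * k + 2) := by
      rw [← pow_mul, ← pow_add, ← pow_succ']
      congr 1
      ring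
    have h8 : (0 : ℝ) ≤ (10 : ℝ) ^ (3 * k + 2) := by positivity
    calc (d : ℝ) ^ 2 * (d' : ℝ) ^ 2 = (d : ℝ) ^ 2 * (d' : ℝ) * (d' : ℝ) := by ring
      _ ≤ (10 * (10 : ℝ) ^ (3 * k + 2)) * (d' : ℝ) := by
        rw [← h7]
        exact mul_le_mul_of_nonneg_right h6 hd'pos.le
      _ ≤ 99 * (10 : ℝ) ^ (3 * k + 2) * (d' : ℝ) := by
        apply mul_le_mul_of_nonneg_right _ hd'pos.le
        linarith
  have e5 : 1 ≤ (99 * (h : ℝ) * A * B * ((d' : ℝ) ^ 2 - (d : ℝ) ^ 2)) /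
      ((d : ℝ) ^ 2 * (d' : ℝ) ^ 2) := by
    rw [le_div_iff₀ (by positivity), one_mul]
    exact e4.trans e3
  linarith

theorem sqA5 (k s m h z : ℕ) (hs : s + 1 ≤ k) (hm : 2 * m ≤ k) (hh : 1 ≤ h) :
    ((Ico (10 ^ k) (10 ^ (k + 1))).filter (fun d : ℕ =>
      ⌊(10 : ℝ) ^ (2 * m) * (99 * h * ((10 : ℝ) ^ (2 * k - 2 * s - 1) / ((d ^ 2 : ℕ) : ℝ)))⌋₊ = z)).card ≤
      10 ^ (k + 2 * s + 3 - 2 * m) := by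
  obtain ⟨S, hS⟩ : ∃ S : Finset ℕ, S = (Ico (10 ^ k) (10 ^ (k + 1))).filter (fun d : ℕ =>
      ⌊(10 : ℝ) ^ (2 * m) * (99 * h * ((10 : ℝ) ^ (2 * k - 2 * s - 1) / ((d ^ 2 : ℕ) : ℝ)))⌋₊ = z) :=
    ⟨_, rfl⟩
  rw [← hS]
  have hmem : ∀ d, d ∈ S ↔ (10 ^ k ≤ d ∧ d < 10 ^ (k + 1)) ∧
      ⌊(10 : ℝ) ^ (2 * m) * (99 * h * ((10 : ℝ) ^ (2 * k - 2 * s - 1) / ((d ^ 2 : ℕ) : ℝ)))⌋₊ = z := by
    intro d
    rw [hS, Finset.mem_filter, Finset.mem_Ico]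
  rcases S.eq_empty_or_nonempty with h0 | hne
  · rw [h0]
    simp
  obtain ⟨d0, hd0, hmin⟩ := S.exists_min_image (fun d => d) hne
  have hsub : S ⊆ Ico d0 (d0 + 10 ^ (k + 2 * s + 3 - 2 * m)) := by
    intro d hd
    rw [Finset.mem_Ico]
    refine ⟨hmin d hd, ?_⟩
    by_contra hcon
    push Not at hcon
    obtain ⟨⟨ha, hb⟩, hc⟩ := (hmem d0).1 hd0
    obtain ⟨⟨ha', hb'⟩, hc'⟩ := (hmem d).1 hd
    have key := sqA5_aux k s m h d0 d hs hm hh ha hb hb' hcon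
    have h1 := Nat.lt_floor_add_one ((10 : ℝ) ^ (2 * m) *
      (99 * h * ((10 : ℝ) ^ (2 * k - 2 * s - 1) / ((d0 ^ 2 : ℕ) : ℝ))))
    have h2 : ((⌊(10 : ℝ) ^ (2 * m) *
      (99 * h * ((10 : ℝ) ^ (2 * k - 2 * s - 1) / ((d ^ 2 : ℕ) : ℝ)))⌋₊ : ℕ) : ℝ) ≤
      (10 : ℝ) ^ (2 * m) * (99 * h * ((10 : ℝ) ^ (2 * k - 2 * s - 1) / ((d ^ 2 : ℕ) : ℝ))) :=
      Nat.floor_le (by positivity)
    rw [hc] at h1
    rw [hc'] at h2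
    linarith
  calc S.card ≤ (Ico d0 (d0 + 10 ^ (k + 2 * s + 3 - 2 * m))).card := Finset.card_le_card hsub
    _ = 10 ^ (k + 2 * s + 3 - 2 * m) := by simp

end Pool.Agent.Helper10.SQ
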