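import Pool.Agent.Helper10.SQ.A1
import Pool.Agent.Helper10.SQ.A2
import Pool.Agent.Helper10.SQ.A3
import Pool.Agent.Helper10.SQ.A4
import Pool.Agent.Helper10.SQ.A5

/-! SQ-A6: the block bound (finite form).

PROOF. `t = n + 1 + s - k`, so `2n + 1 - 2t = 2k - 2s - 1`, `2m ≤ t ≤ n`; `K = 10^(2s)`; `q = d^2`, coprime to 10;
`w` with `10^t w ≡ 1 [MOD q]` exists (`Nat.exists_mul_mod_eq_one_of_coprime` or via `ZMod`/`Int` inverse; for `q = 1`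
anything). `10 K 10^(2n+1-2t) = 10^(2k) ≤ d^2 = q`. `sqA1` with `L = 1/(10K)` and `sqA2`:
`cl n q (a d) ≤ 2 10^t/K (1 + 2 ∑_{1≤h<K} ∏_{i<t} ph (h th i))`, `∏_{i<t} ≤ ∏_{i<2m}` (`ph ≤ 1`), and `th_rel`, `sqA3`
with `lam = 10^(2k-2s-1)/d^2`: `∏ ≤ wt m ⌊10^(2m) (99 h lam_d)⌋₊`. For fixed `h < K` the reals `99 h lam_d` are in
`[0,10)` (`99 * 10^(2s) * 10^(2k-2s-1) ≤ 9.9 * 10^(2k)`), so by `sqA4`, `sqA5`
`∑_d wt ≤ 10^(k+2s+3-2m) * 10 * 100^m * rho^m = 10^(k+2s+4) rho^m` (filtering by coprimality only makes the sum and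
the fibres smaller). Total: `2 10^t/10^(2s) (9 10^k + 2 * 10^(2s) * 10^(k+2s+4) rho^m)`, `10^t 10^k = 10^(n+1+s)`. -/

namespace Pool.Agent.Helper10.SQ

open Finset Pool.Agent.Helper10 Pool.Agent.Helper10.P5 Pool.Agent.Helper10.P4

private theorem exists_inv (q t : ℕ) (hq : q.Coprime 10) :
    ∃ w : ℕ, 10 ^ t * w ≡ 1 [MOD q] := by
  have hc : (10 ^ t).Coprime q := Nat.Coprime.pow_left t hq.symm
  rcases Nat.lt_or_ge 1 q with h | h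
  · obtain ⟨w, -, hw⟩ := Nat.exists_mul_mod_eq_one_of_coprime hc h
    refine ⟨w, ?_⟩
    have h1 : 1 % q = 1 := Nat.mod_eq_of_lt h
    exact hw.trans h1.symm
  · rcases Nat.eq_zero_or_pos q with h0 | h0
    · subst h0
      rw [Nat.coprime_zero_left] at hq
      omega
    · have h1 : q = 1 := by omega
      subst h1
      exact ⟨0, Nat.modEq_one⟩

private theorem cl_le (n k s m d a : ℕ) (hs : s + 1 ≤ k)
    (hm' : 2 * m + k ≤ n + 1 + s) (hd : 10 ^ k ≤ d) (hc : d.Coprime 10) :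
    ((cl n (d ^ 2) a : ℕ) : ℝ) ≤ 2 * 10 ^ (n + 1 + s - k) / 10 ^ (2 * s) *
      (1 + 2 * ∑ h ∈ Ico (1 : ℕ) (10 ^ (2 * s)),
        wt m ⌊(10 : ℝ) ^ (2 * m) * (99 * h * ((10 : ℝ) ^ (2 * k - 2 * s - 1) / ((d ^ 2 : ℕ) : ℝ)))⌋₊) := by
  obtain ⟨t, ht⟩ : ∃ t, t = n + 1 + s - k := ⟨_, rfl⟩
  have htn : t ≤ n := by omega
  have e1 : 2 * n + 1 - 2 * t = 2 * k - 2 * s - 1 := by omega
  have hd0 : 0 < d := lt_of_lt_of_le (by positivity) hd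
  have hq0 : 0 < d ^ 2 := by positivity
  have hqc : (d ^ 2).Coprime 10 := Nat.Coprime.pow_left 2 hc
  have hqd : 10 ^ (2 * k) ≤ d ^ 2 := by
    calc 10 ^ (2 * k) = (10 ^ k) ^ 2 := by rw [← pow_mul, mul_comm]
      _ ≤ d ^ 2 := Nat.pow_le_pow_left hd 2
  have hqd' : (10 : ℝ) ^ (2 * k) ≤ ((d ^ 2 : ℕ) : ℝ) := by exact_mod_cast hqd
  obtain ⟨w, hw⟩ := exists_inv (d ^ 2) t hqc
  have h1 : (10 : ℝ) ^ (2 * n + 1 - 2 * t) ≤
      1 / (10 * ((10 ^ (2 * s) : ℕ) : ℝ)) * ((d ^ 2 : ℕ) : ℝ) := by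
    rw [e1, one_div, inv_mul_eq_div, le_div_iff₀ (by positivity)]
    refine le_trans (le_of_eq ?_) hqd'
    push_cast
    rw [← pow_succ', ← pow_add]
    congr 1
    omega
  have h2 : 10 ^ (2 * n + 1 - 2 * t) ≤ d ^ 2 :=
    le_trans (Nat.pow_le_pow_right (by norm_num) (by omega)) hqd
  have hA := sqA1 n t (d ^ 2) w a htn hqc hw _ h1 h2
  have hB := sqA2 n t (10 ^ (2 * s)) (d ^ 2) w a (Nat.one_le_pow _ _ (by norm_num)) hq0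
  have hA' : ((cl n (d ^ 2) a : ℕ) : ℝ) ≤ (((KK t 10).filter (fun b => Int.fract (xi n t (d ^ 2) w a b) <
      1 / (10 * ((10 ^ (2 * s) : ℕ) : ℝ)))).card : ℝ) := by exact_mod_cast hA
  refine hA'.trans (hB.trans ?_)
  rw [← ht]
  push_cast
  refine mul_le_mul_of_nonneg_left ?_ (by positivity)
  have hsum : ∑ h ∈ Ico (1 : ℕ) (10 ^ (2 * s)), ∏ i ∈ range t, ph ((h : ℝ) * th n t (d ^ 2) w i) ≤
      ∑ h ∈ Ico (1 : ℕ) (10 ^ (2 * s)),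
        wt m ⌊(10 : ℝ) ^ (2 * m) * (99 * h * ((10 : ℝ) ^ (2 * k - 2 * s - 1) / ((d ^ 2 : ℕ) : ℝ)))⌋₊ := by
    refine sum_le_sum fun h _ => ?_
    have hsub : range (2 * m) ⊆ range t := by
      intro i hi
      rw [mem_range] at hi ⊢
      omega
    have h3 : ∏ i ∈ range t, ph ((h : ℝ) * th n t (d ^ 2) w i) ≤
        ∏ i ∈ range (2 * m), ph ((h : ℝ) * th n t (d ^ 2) w i) := by
      exact prod_le_prod_of_subset_of_le_one hsub (fun i _ => ph_nonneg _)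
        (fun i _ _ => ph_le_one _)
    refine h3.trans ?_
    refine sqA3 (fun i => th n t (d ^ 2) w i) _ m h (by positivity) ?_
    intro i hi
    have := th_rel n t (d ^ 2) w i htn (by omega) hq0 hw
    rw [e1] at this
    exact this
  push_cast at hsum
  linarith

theorem sqA6 (n k s m : ℕ) (hs : s + 1 ≤ k) (hm : 2 * m ≤ k) (hm' : 2 * m + k ≤ n + 1 + s)
    (hm0 : 1 ≤ m) (a : ℕ → ℕ) :
    ∑ d ∈ (Ico (10 ^ k) (10 ^ (k + 1))).filter (fun d : ℕ => d.Coprime 10),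
      ((cl n (d ^ 2) (a d) : ℕ) : ℝ) ≤
      2 * 10 ^ (n + 1) * (9 / 10 ^ s + 2 * 10 ^ (3 * s + 4) * rho ^ m) := by
  have hrho : (0 : ℝ) ≤ rho := by unfold rho; norm_num
  obtain ⟨D, hD⟩ : ∃ D : Finset ℕ, D = (Ico (10 ^ k) (10 ^ (k + 1))).filter
    (fun d : ℕ => d.Coprime 10) := ⟨_, rfl⟩
  rw [← hD]
  have hDmem : ∀ d ∈ D, (10 ^ k ≤ d ∧ d < 10 ^ (k + 1)) ∧ d.Coprime 10 := by
    intro d hd
    rw [hD, mem_filter, mem_Ico] at hd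
    exact hd
  have hDcard : (D.card : ℝ) ≤ 9 * 10 ^ k := by
    have h1 : D.card ≤ 9 * 10 ^ k := by
      rw [hD]
      refine (card_filter_le _ _).trans ?_
      rw [Nat.card_Ico, pow_succ]
      omega
    exact_mod_cast h1
  obtain ⟨t, ht⟩ : ∃ t, t = n + 1 + s - k := ⟨_, rfl⟩
  -- the inner sums
  have hin : ∀ h ∈ Ico (1 : ℕ) (10 ^ (2 * s)), ∑ d ∈ D,
      wt m ⌊(10 : ℝ) ^ (2 * m) * (99 * h * ((10 : ℝ) ^ (2 * k - 2 * s - 1) / ((d ^ 2 : ℕ) : ℝ)))⌋₊ ≤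
        10 ^ (k + 2 * s + 4) * rho ^ m := by
    intro h hh
    rw [mem_Ico] at hh
    refine (sqA4 m (10 ^ (k + 2 * s + 3 - 2 * m)) D (fun d =>
      99 * h * ((10 : ℝ) ^ (2 * k - 2 * s - 1) / ((d ^ 2 : ℕ) : ℝ))) ?_ ?_).trans (le_of_eq ?_)
    · intro d hd
      obtain ⟨⟨hd1, -⟩, -⟩ := hDmem d hd
      refine ⟨by positivity, ?_⟩
      have hqd : 10 ^ (2 * k) ≤ d ^ 2 := by
        calc 10 ^ (2 * k) = (10 ^ k) ^ 2 := by rw [← pow_mul, mul_comm]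
          _ ≤ d ^ 2 := Nat.pow_le_pow_left hd1 2
      have hqd' : (10 : ℝ) ^ (2 * k) ≤ ((d ^ 2 : ℕ) : ℝ) := by exact_mod_cast hqd
      have hh' : (h : ℝ) ≤ 10 ^ (2 * s) := by exact_mod_cast hh.2.le
      have e2 : (10 : ℝ) ^ (2 * k) = 10 * (10 ^ (2 * s) * 10 ^ (2 * k - 2 * s - 1)) := by
        rw [← pow_add, ← pow_succ']
        congr 1
        omega
      have hpos : (0 : ℝ) < ((d ^ 2 : ℕ) : ℝ) := lt_of_lt_of_le (by positivity) hqd'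
      rw [← mul_div_assoc, div_lt_iff₀ hpos]
      have h3 : (h : ℝ) * 10 ^ (2 * k - 2 * s - 1) ≤ 10 ^ (2 * s) * 10 ^ (2 * k - 2 * s - 1) :=
        mul_le_mul_of_nonneg_right hh' (by positivity)
      have h4 : (0 : ℝ) < 10 ^ (2 * s) * 10 ^ (2 * k - 2 * s - 1) := by positivity
      nlinarith
    · intro z
      refine le_trans (card_le_card ?_) (sqA5 k s m h z hs hm hh.1)
      intro d hd
      rw [mem_filter] at hd ⊢
      refine ⟨?_, hd.2⟩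
      rw [mem_Ico]
      exact (hDmem d hd.1).1
    · push_cast
      have h100 : (100 : ℝ) ^ m = 10 ^ (2 * m) := by
        rw [pow_mul]
        norm_num
      have e3 : (10 : ℝ) ^ (k + 2 * s + 3 - 2 * m) * 10 * 10 ^ (2 * m) = 10 ^ (k + 2 * s + 4) := by
        rw [← pow_succ, ← pow_add]
        congr 1
        omega
      rw [h100, e3]
  have hsum : ∑ d ∈ D, ((cl n (d ^ 2) (a d) : ℕ) : ℝ) ≤ ∑ d ∈ D,
      (2 * 10 ^ t / 10 ^ (2 * s) *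
      (1 + 2 * ∑ h ∈ Ico (1 : ℕ) (10 ^ (2 * s)),
        wt m ⌊(10 : ℝ) ^ (2 * m) * (99 * h * ((10 : ℝ) ^ (2 * k - 2 * s - 1) / ((d ^ 2 : ℕ) : ℝ)))⌋₊)) := by
    refine sum_le_sum fun d hd => ?_
    rw [ht]
    exact cl_le n k s m d (a d) hs hm' (hDmem d hd).1.1 (hDmem d hd).2
  refine hsum.trans ?_
  rw [← mul_sum, sum_add_distrib, ← mul_sum, sum_comm, sum_const, nsmul_eq_mul, mul_one]
  have h5 : ∑ h ∈ Ico (1 : ℕ) (10 ^ (2 * s)), ∑ d ∈ D,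
      wt m ⌊(10 : ℝ) ^ (2 * m) * (99 * h * ((10 : ℝ) ^ (2 * k - 2 * s - 1) / ((d ^ 2 : ℕ) : ℝ)))⌋₊ ≤
        10 ^ (2 * s) * (10 ^ (k + 2 * s + 4) * rho ^ m) := by
    refine (sum_le_sum hin).trans ?_
    rw [sum_const, nsmul_eq_mul, Nat.card_Ico]
    refine mul_le_mul_of_nonneg_right ?_ (by positivity)
    have : 10 ^ (2 * s) - 1 ≤ 10 ^ (2 * s) := Nat.sub_le _ _
    exact_mod_cast this
  have h6 : (D.card : ℝ) + 2 * ∑ h ∈ Ico (1 : ℕ) (10 ^ (2 * s)), ∑ d ∈ D,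
      wt m ⌊(10 : ℝ) ^ (2 * m) * (99 * h * ((10 : ℝ) ^ (2 * k - 2 * s - 1) / ((d ^ 2 : ℕ) : ℝ)))⌋₊ ≤
        9 * 10 ^ k + 2 * (10 ^ (2 * s) * (10 ^ (k + 2 * s + 4) * rho ^ m)) := by
    linarith
  refine (mul_le_mul_of_nonneg_left h6 (by positivity)).trans (le_of_eq ?_)
  have e4 : (10 : ℝ) ^ t * 10 ^ k = 10 ^ (n + 1) * 10 ^ s := by
    rw [← pow_add, ← pow_add]
    congr 1
    omega
  have e5 : (10 : ℝ) ^ (k + 2 * s + 4) = 10 ^ k * 10 ^ (2 * s) * 10 ^ 4 := by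
    rw [pow_add, pow_add]
  have e6 : (10 : ℝ) ^ (2 * s) = 10 ^ s * 10 ^ s := by rw [two_mul, pow_add]
  have e7 : (10 : ℝ) ^ (3 * s + 4) = 10 ^ s * 10 ^ s * 10 ^ s * 10 ^ 4 := by
    rw [← pow_add, ← pow_add, ← pow_add]
    congr 1
    omega
  have hs0 : (10 : ℝ) ^ s ≠ 0 := by positivity
  have hs0' : (10 : ℝ) ^ s * 10 ^ s ≠ 0 := by positivity
  have e8 : 2 * (10 : ℝ) ^ t / (10 ^ s * 10 ^ s) *
      (9 * 10 ^ k + 2 * (10 ^ s * 10 ^ s * (10 ^ k * (10 ^ s * 10 ^ s) * 10 ^ 4 * rho ^ m))) =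
      2 * ((10 : ℝ) ^ t * 10 ^ k) / (10 ^ s * 10 ^ s) *
        (9 + 2 * (10 ^ s * 10 ^ s * (10 ^ s * 10 ^ s) * 10 ^ 4 * rho ^ m)) := by
    ring
  rw [e5, e6, e7, e8, e4]
  generalize (10 : ℝ) ^ s = S at hs0
  generalize (10 : ℝ) ^ (n + 1) = N
  generalize rho ^ m = R
  field_simp
  try ring

end Pool.Agent.Helper10.SQ
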