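import Pool.Agent.Helper10.SQ.A6

/-! SQ-A7: the block bound (asymptotic form).

PROOF. `m = ⌊ε n / 2⌋`, `s = ⌊η n⌋` with `η > 0` so small that `10^(4s+5) rho^m ≤ 1` for large `n`
(`η log 10 * 4 < (ε/2) log (1/rho)`, e.g. half of it), `η ≤ ε / 2`; `2m ≤ ε n ≤ k`, `2m + k ≤ ε n + (1-ε) n ≤ n`, `s + 1 ≤ k`,
`m ≥ 1`. Then the right hand side of `sqA6` is `≤ 2 * 10^(n+1) * 11 / 10^s ≤ 10^(n+3-s) ≤ 10^((1-δ) n)`, `δ = η/2`. -/

namespace Pool.Agent.Helper10.SQ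

open Finset Pool.Agent.Helper10 Pool.Agent.Helper10.P5 Pool.Agent.Helper10.P4

theorem sqA7 (ε : ℝ) (hε : 0 < ε) : ∃ δ : ℝ, 0 < δ ∧ ∃ n0 : ℕ, ∀ n k : ℕ, n0 ≤ n →
    ε * n ≤ k → (k : ℝ) ≤ (1 - ε) * n → ∀ a : ℕ → ℕ,
    ∑ d ∈ (Ico (10 ^ k) (10 ^ (k + 1))).filter (fun d : ℕ => d.Coprime 10),
      ((cl n (d ^ 2) (a d) : ℕ) : ℝ) ≤ (10 : ℝ) ^ ((1 - δ) * (n : ℝ)) := by
  have hrho0 : 0 < rho := by unfold rho; norm_num
  have hrho1 : rho < 1 := by unfold rho; norm_num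
  set r : ℝ := -Real.log rho with hr
  have hrpos : 0 < r := by
    rw [hr]
    linarith [Real.log_neg hrho0 hrho1]
  set l : ℝ := Real.log 10 with hl
  have hlpos : 0 < l := Real.log_pos (by norm_num)
  set η : ℝ := min (ε / 2) (ε * r / (16 * l)) with hη
  have hη1 : η ≤ ε / 2 := min_le_left _ _
  have hη2 : η ≤ ε * r / (16 * l) := min_le_right _ _
  have hηpos : 0 < η := lt_min (by linarith) (by positivity)
  refine ⟨η / 2, by linarith, ⌈4 * (5 * l + r) / (ε * r)⌉₊ + ⌈2 / ε⌉₊ + ⌈8 / η⌉₊ + 1, ?_⟩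
  intro n k hn hk1 hk2 a
  have hnR : ((⌈4 * (5 * l + r) / (ε * r)⌉₊ + ⌈2 / ε⌉₊ + ⌈8 / η⌉₊ + 1 : ℕ) : ℝ) ≤ n := by
    exact_mod_cast hn
  push_cast at hnR
  have hc1 := Nat.le_ceil (4 * (5 * l + r) / (ε * r))
  have hc2 := Nat.le_ceil (2 / ε)
  have hc3 := Nat.le_ceil (8 / η)
  have hp1 : (0 : ℝ) ≤ (⌈4 * (5 * l + r) / (ε * r)⌉₊ : ℝ) := Nat.cast_nonneg _
  have hp2 : (0 : ℝ) ≤ (⌈2 / ε⌉₊ : ℝ) := Nat.cast_nonneg _
  have hp3 : (0 : ℝ) ≤ (⌈8 / η⌉₊ : ℝ) := Nat.cast_nonneg _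
  have h1 : 4 * (5 * l + r) / (ε * r) ≤ n := by linarith
  have h2 : 2 / ε ≤ n := by linarith
  have h3 : 8 / η ≤ n := by linarith
  rw [div_le_iff₀ (by positivity)] at h1
  rw [div_le_iff₀ hε] at h2
  rw [div_le_iff₀ hηpos] at h3
  have hn0 : (0 : ℝ) ≤ n := Nat.cast_nonneg n
  set m : ℕ := ⌊ε * n / 2⌋₊ with hm
  set s : ℕ := ⌊η * n⌋₊ with hs
  have hm1 : (m : ℝ) ≤ ε * n / 2 := Nat.floor_le (by positivity)
  have hm2 : ε * n / 2 < m + 1 := Nat.lt_floor_add_one _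
  have hs1 : (s : ℝ) ≤ η * n := Nat.floor_le (by positivity)
  have hs2 : η * n < s + 1 := Nat.lt_floor_add_one _
  have hηn : η * n ≤ ε / 2 * n := mul_le_mul_of_nonneg_right hη1 hn0
  have hsk : s + 1 ≤ k := by
    have : ((s + 1 : ℕ) : ℝ) ≤ k := by
      push_cast
      linarith
    exact_mod_cast this
  have h2m : 2 * m ≤ k := by
    have : ((2 * m : ℕ) : ℝ) ≤ k := by
      push_cast
      linarith
    exact_mod_cast this
  have h2mk : 2 * m + k ≤ n + 1 + s := by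
    have : ((2 * m + k : ℕ) : ℝ) ≤ ((n + 1 + s : ℕ) : ℝ) := by
      push_cast
      have : (0 : ℝ) ≤ s := Nat.cast_nonneg s
      linarith
    exact_mod_cast this
  have hm0 : 1 ≤ m := by
    rw [hm]
    apply Nat.le_floor
    push_cast
    linarith
  have hA := sqA6 n k s m hsk h2m h2mk hm0 a
  -- the second term
  have hexp : (10 : ℝ) ^ (4 * s + 5) * rho ^ m ≤ 1 := by
    have e1 : (10 : ℝ) ^ (4 * s + 5) * rho ^ m =
        Real.exp (((4 * s + 5 : ℕ) : ℝ) * l + (m : ℝ) * Real.log rho) := by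
      rw [Real.exp_add, mul_comm _ l, mul_comm _ (Real.log rho), Real.exp_mul, Real.exp_mul,
        Real.exp_log (by norm_num), Real.exp_log hrho0, Real.rpow_natCast, Real.rpow_natCast]
    rw [e1, Real.exp_le_one_iff]
    push_cast
    have e2 : Real.log rho = -r := by rw [hr, neg_neg]
    rw [e2]
    have e3 : (s : ℝ) * l ≤ ε * r / 16 * n := by
      calc (s : ℝ) * l ≤ (η * n) * l := mul_le_mul_of_nonneg_right hs1 hlpos.le
        _ ≤ (ε * r / (16 * l) * n) * l :=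
          mul_le_mul_of_nonneg_right (mul_le_mul_of_nonneg_right hη2 hn0) hlpos.le
        _ = ε * r / 16 * n := by field_simp
    have e4 : (ε * n / 2 - 1) * r ≤ m * r := mul_le_mul_of_nonneg_right (by linarith) hrpos.le
    nlinarith
  have hexp2 : (10 : ℝ) ^ (3 * s + 4) * rho ^ m ≤ 1 / 10 ^ (s + 1) := by
    rw [le_div_iff₀ (by positivity)]
    calc (10 : ℝ) ^ (3 * s + 4) * rho ^ m * 10 ^ (s + 1) = 10 ^ (4 * s + 5) * rho ^ m := by ring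
      _ ≤ 1 := hexp
  have hB : 2 * (10 : ℝ) ^ (n + 1) * (9 / 10 ^ s + 2 * 10 ^ (3 * s + 4) * rho ^ m) ≤
      10 ^ (n + 3) / 10 ^ s := by
    have e1 : 2 * (10 : ℝ) ^ (3 * s + 4) * rho ^ m ≤ 2 / 10 ^ (s + 1) := by
      calc 2 * (10 : ℝ) ^ (3 * s + 4) * rho ^ m = 2 * (10 ^ (3 * s + 4) * rho ^ m) := by ring
        _ ≤ 2 * (1 / 10 ^ (s + 1)) := mul_le_mul_of_nonneg_left hexp2 (by norm_num)
        _ = 2 / 10 ^ (s + 1) := by ring
    have e2 : (0 : ℝ) < 10 ^ s := by positivity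
    calc 2 * (10 : ℝ) ^ (n + 1) * (9 / 10 ^ s + 2 * 10 ^ (3 * s + 4) * rho ^ m)
        ≤ 2 * (10 : ℝ) ^ (n + 1) * (9 / 10 ^ s + 2 / 10 ^ (s + 1)) :=
          mul_le_mul_of_nonneg_left (by linarith) (by positivity)
      _ = (184 / 1000) * (10 ^ (n + 3) / 10 ^ s) := by
          rw [pow_succ (10 : ℝ) s, pow_add, pow_add]
          field_simp
          norm_num
      _ ≤ 10 ^ (n + 3) / 10 ^ s := by
          have : (0 : ℝ) ≤ 10 ^ (n + 3) / 10 ^ s := by positivity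
          linarith
  refine (hA.trans hB).trans ?_
  have e1 : (10 : ℝ) ^ (n + 3) / 10 ^ s = (10 : ℝ) ^ (((n + 3 : ℕ) : ℝ) - (s : ℝ)) := by
    rw [Real.rpow_sub (by norm_num), Real.rpow_natCast, Real.rpow_natCast]
  rw [e1]
  apply Real.rpow_le_rpow_of_exponent_le (by norm_num)
  push_cast
  nlinarith

end Pool.Agent.Helper10.SQ
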