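import Pool.Agent.Helper10.SQ.Defs

/-! SQ-B1: palindromes with a very large square divisor.

PROOF. Choose for each such `P` a `d = d(P)` with `10^(n-e) ≤ d`, `d^2 ∣ P`, and put `u = P / d^2 < 10^(2e+1)` (`P < 10^(2n+1)`),
`h = n/2 + 1` (floor). The map `P ↦ (u, d % 10^h)` into `range (10^(2e+1)) ×ˢ range (10^h)` is injective: let `P = u d^2`,
`P' = u d'^2`, `d ≡ d'` mod `10^h`, and suppose `d' < d`. Then `P ≡ P'` mod `10^h`: the `h` last digits agree, so (palindromes, `digit_symm`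
in `PalBasics.lean`) the `h` top digits agree (`h ≤ n` or so; for `n ≤ 1` check `h ≤ 2n+1`), `P / 10^(2n+1-h) = P' / 10^(2n+1-h)`, so
`P - P' < 10^(2n+1-h)`. But `P - P' = u (d-d')(d+d') ≥ u 10^h d`, and `(u d)^2 ≥ u d^2 = P ≥ 10^(2n)`, so `u d ≥ 10^n`, and
`P - P' ≥ 10^(n+h) ≥ 10^(2n+1-h)` since `2h ≥ n+1`. Contradiction. -/

namespace Pool.Agent.Helper10.SQ

open Finset Pool.Agent.Helper10 Pool.Agent.Helper10.P5 Pool.Agent.Helper10.P4

/-- the last `h` digits of a palindrome determine the first `h` digits -/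
lemma B1_top_eq {l P P' h : ℕ} (hP : IsPalD l P) (hP' : IsPalD l P') (hl : h ≤ l)
    (hmod : P % 10 ^ h = P' % 10 ^ h) : P / 10 ^ (l - h) = P' / 10 ^ (l - h) := by
  have key : ∀ Q : ℕ, IsPalD l Q →
      Q / 10 ^ (l - h) = Nat.ofDigits 10 ((Nat.digits 10 Q).take h).reverse := by
    intro Q hQ
    rw [Nat.self_div_pow_eq_ofDigits_drop (l - h) Q (by norm_num)]
    congr 1
    conv_lhs => rw [← hQ.2]
    rw [List.drop_reverse]
    have h1 : (Nat.digits 10 Q).length - (l - h) = h := by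
      rw [hQ.1]; omega
    rw [h1]
  rw [key P hP, key P' hP']
  have h2 : (Nat.digits 10 P).take h = (Nat.digits 10 P').take h := by
    rw [Nat.self_mod_pow_eq_ofDigits_take h P (by norm_num),
      Nat.self_mod_pow_eq_ofDigits_take h P' (by norm_num)] at hmod
    apply Nat.ofDigits_inj_of_len_eq (by norm_num : 1 < 10) _ _ _ hmod
    · rw [List.length_take, List.length_take, hP.1, hP'.1]
    · intro d hd
      exact Nat.digits_lt_base (by norm_num) (List.mem_of_mem_take hd)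
    · intro d hd
      exact Nat.digits_lt_base (by norm_num) (List.mem_of_mem_take hd)
  rw [h2]

lemma B1_pow_le {l P : ℕ} (hP : IsPalD (l + 1) P) : 10 ^ l ≤ P := by
  have h1 : P ≠ 0 := by
    rintro rfl
    have := hP.1
    simp at this
  have h2 := Nat.base_pow_length_digits_le 10 P (by norm_num) h1
  rw [hP.1, pow_succ] at h2
  omega

lemma B1_aux {n u d d' : ℕ} (hP : IsPalD (2 * n + 1) (u * d ^ 2))
    (hP' : IsPalD (2 * n + 1) (u * d' ^ 2)) (hd : d % 10 ^ (n / 2 + 1) = d' % 10 ^ (n / 2 + 1))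
    (hlt : d' < d) : False := by
  set h := n / 2 + 1 with hh
  have hle : 10 ^ (2 * n) ≤ u * d ^ 2 := B1_pow_le hP
  have hu : 0 < u := by
    rcases Nat.eq_zero_or_pos u with h0 | h0
    · rw [h0, zero_mul] at hle
      have : 0 < 10 ^ (2 * n) := by positivity
      omega
    · exact h0
  have hmod : (u * d ^ 2) % 10 ^ h = (u * d' ^ 2) % 10 ^ h := by
    have h1 : d ≡ d' [MOD 10 ^ h] := hd
    exact (h1.pow 2).mul_left u
  have htop := B1_top_eq hP hP' (by omega : h ≤ 2 * n + 1) hmod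
  -- the difference is small
  have hsmall : u * d ^ 2 < u * d' ^ 2 + 10 ^ (2 * n + 1 - h) := by
    have a1 := Nat.div_add_mod (u * d ^ 2) (10 ^ (2 * n + 1 - h))
    have a2 := Nat.div_add_mod (u * d' ^ 2) (10 ^ (2 * n + 1 - h))
    have a3 := Nat.mod_lt (u * d ^ 2) (by positivity : 0 < 10 ^ (2 * n + 1 - h))
    rw [htop] at a1
    omega
  -- the difference is large
  have hud : 10 ^ n ≤ u * d := by
    by_contra hcon
    push Not at hcon
    have b1 : (u * d) ^ 2 < (10 ^ n) ^ 2 := Nat.pow_lt_pow_left hcon (by norm_num)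
    have b2 : (u * d) ^ 2 = u * (u * d ^ 2) := by ring
    have b3 : u * d ^ 2 ≤ u * (u * d ^ 2) := Nat.le_mul_of_pos_left _ hu
    have b4 : (10 ^ n) ^ 2 = 10 ^ (2 * n) := by rw [← pow_mul, mul_comm]
    omega
  have hdd : d' + 10 ^ h ≤ d := by
    have c1 : 10 ^ h ∣ d - d' := (Nat.modEq_iff_dvd' hlt.le).1 hd.symm
    have c2 := Nat.le_of_dvd (by omega) c1
    omega
  have hlarge : u * d' ^ 2 + 10 ^ (n + h) ≤ u * d ^ 2 := by
    have e1 : d' ^ 2 + 10 ^ h * d ≤ d ^ 2 := by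
      have e0 : d' ^ 2 ≤ d' * d := by rw [sq]; exact Nat.mul_le_mul_left _ hlt.le
      calc d' ^ 2 + 10 ^ h * d ≤ d' * d + 10 ^ h * d := by omega
        _ = (d' + 10 ^ h) * d := by ring
        _ ≤ d * d := Nat.mul_le_mul_right _ hdd
        _ = d ^ 2 := by ring
    calc u * d' ^ 2 + 10 ^ (n + h) = u * d' ^ 2 + 10 ^ h * 10 ^ n := by rw [pow_add]; ring
      _ ≤ u * d' ^ 2 + 10 ^ h * (u * d) := by
          exact Nat.add_le_add_left (Nat.mul_le_mul_left _ hud) _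
      _ = u * (d' ^ 2 + 10 ^ h * d) := by ring
      _ ≤ u * d ^ 2 := Nat.mul_le_mul_left _ e1
  have hpow : 10 ^ (2 * n + 1 - h) ≤ 10 ^ (n + h) :=
    Nat.pow_le_pow_right (by norm_num) (by omega)
  omega

open Classical in
theorem sqB1 (n e : ℕ) (he : e ≤ n) :
    ((Pal n).filter (fun P => ∃ d : ℕ, 10 ^ (n - e) ≤ d ∧ d ^ 2 ∣ P)).card ≤
      10 ^ (2 * e + 1) * 10 ^ (n / 2 + 1) := by
  have hex : ∀ P : ℕ, ∃ d : ℕ, (∃ d' : ℕ, 10 ^ (n - e) ≤ d' ∧ d' ^ 2 ∣ P) →
      10 ^ (n - e) ≤ d ∧ d ^ 2 ∣ P := by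
    intro P
    by_cases h : ∃ d' : ℕ, 10 ^ (n - e) ≤ d' ∧ d' ^ 2 ∣ P
    · obtain ⟨d, hd⟩ := h
      exact ⟨d, fun _ => hd⟩
    · exact ⟨0, fun h' => absurd h' h⟩
  choose dd hdd using hex
  have hcard : ((range (10 ^ (2 * e + 1))) ×ˢ (range (10 ^ (n / 2 + 1)))).card =
      10 ^ (2 * e + 1) * 10 ^ (n / 2 + 1) := by
    rw [Finset.card_product, Finset.card_range, Finset.card_range]
  rw [← hcard]
  apply Finset.card_le_card_of_injOn (fun P => (P / dd P ^ 2, dd P % 10 ^ (n / 2 + 1)))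
  · intro P hP
    rw [Finset.mem_coe, Finset.mem_filter] at hP
    obtain ⟨hPal, hd⟩ := hP
    obtain ⟨h1, h2⟩ := hdd P hd
    rw [Finset.mem_coe, Finset.mem_product, Finset.mem_range, Finset.mem_range]
    refine ⟨?_, Nat.mod_lt _ (by positivity)⟩
    show P / dd P ^ 2 < 10 ^ (2 * e + 1)
    have h3 : P < 10 ^ (2 * n + 1) := by
      unfold Pal at hPal
      rw [Finset.mem_filter, Finset.mem_range] at hPal
      exact hPal.1
    have h4 : 10 ^ (2 * (n - e)) ≤ dd P ^ 2 := by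
      calc 10 ^ (2 * (n - e)) = (10 ^ (n - e)) ^ 2 := by rw [← pow_mul, mul_comm]
        _ ≤ dd P ^ 2 := Nat.pow_le_pow_left h1 2
    have h5 : 0 < dd P ^ 2 := lt_of_lt_of_le (by positivity) h4
    rw [Nat.div_lt_iff_lt_mul h5]
    calc P < 10 ^ (2 * n + 1) := h3
      _ = 10 ^ (2 * e + 1) * 10 ^ (2 * (n - e)) := by
          rw [← pow_add]; congr 1; omega
      _ ≤ 10 ^ (2 * e + 1) * dd P ^ 2 := Nat.mul_le_mul_left _ h4
  · intro P hP P' hP' heq
    rw [Finset.mem_coe, Finset.mem_filter] at hP hP'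
    obtain ⟨hPal, hd⟩ := hP
    obtain ⟨hPal', hd'⟩ := hP'
    obtain ⟨-, h2⟩ := hdd P hd
    obtain ⟨-, h2'⟩ := hdd P' hd'
    unfold Pal at hPal hPal'
    rw [Finset.mem_filter] at hPal hPal'
    simp only [Prod.mk.injEq] at heq
    obtain ⟨e1, e2⟩ := heq
    have f1 : P = P / dd P ^ 2 * dd P ^ 2 := (Nat.div_mul_cancel h2).symm
    have f2 : P' = P / dd P ^ 2 * dd P' ^ 2 := by
      rw [e1]; exact (Nat.div_mul_cancel h2').symm
    rcases lt_trichotomy (dd P) (dd P') with hlt | heq | hgt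
    · exfalso
      apply B1_aux (n := n) (u := P / dd P ^ 2) (d := dd P') (d' := dd P) _ _ e2.symm hlt
      · rw [← f2]; exact hPal'.2
      · rw [← f1]; exact hPal.2
    · rw [f1, f2, heq]
    · exfalso
      apply B1_aux (n := n) (u := P / dd P ^ 2) (d := dd P) (d' := dd P') _ _ e2 hgt
      · rw [← f1]; exact hPal.2
      · rw [← f2]; exact hPal'.2

end Pool.Agent.Helper10.SQ
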