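import Pool.Agent.Helper10.SQ.Defs

/-! SQ-C1: equidistribution modulo a fixed modulus coprime to `10`, with the two outer digits prescribed.

PROOF. Let `n ≥ 3`. Palindromes with `2n+1` digits are `PN n c d f = c (10^(2n)+1) + d 10^n + 10 vl (n-1) f`, `1 ≤ c ≤ 9`, `d < 10`,
`f ∈ KK (n-1) 10`, uniquely (`P4/PalAll.lean`: `PN_pal`, `PN_surj`, `PN_inj`, `PN_digit`). Digit 0 is `c`, digit 1 is `f (n-2)`
(last coordinate). Splitting off the last coordinate, `10 vl (n-1) f = f_(n-2) (10 + 10^(2n-1)) + 100 vl (n-2) f'`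
(`vl ℓ f = ∑ f i * ww 10 ℓ (i+1)`, `ww b T t = b^(T-t) + b^(T+t)`). So the number of `P` with digits `c`, `c1` and `P ≡ r` mod `M` is
`∑_{d<10} #{f' ∈ KK (n-2) 10 : M ∣ S_d + 100 vl (n-2) f'}`, `S_d = c (10^(2n)+1) + c1 (10^(2n-1)+10) + d 10^n + (M - r % M)`,
`= ∑_d cnt5 100 (n-2) S_d M` (`P5/Cnt.lean`; `cnt5 κ T N0 q = #{f ∈ KK T 10 : q ∣ N0 + κ vl T f}`, `κ = 100` is allowed: `M.Coprime 100`).
`count5`: `|cnt5 - 10^(n-2)/M| ≤ 10^(n-2)/M * ∑_{e ∣ M, e ≠ 1} Psi5 100 (n-2) e`, and `Psi5 100 T e ≤ e ρ^(T/(2k+3))`, `M ≤ 10^k`, by `sup5`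
(as in `blk5_small` in `P5/Err5.lean`), which tends to 0 as `T → ∞`. So the count divided by `10^n` tends to `10 * (1/100) / M = 1/(10 M)`. -/

namespace Pool.Agent.Helper10.SQ

open Finset Filter Topology Pool.Agent.Helper10 Pool.Agent.Helper10.P5 Pool.Agent.Helper10.P4

lemma c1_isPal_lt (l N : ℕ) (h : IsPalD l N) : N < 10 ^ l := by
  have := Nat.lt_base_pow_length_digits (b := 10) (m := N) (by norm_num)
  rw [h.1] at this
  exact this

lemma c1_mem_Pal (n N : ℕ) : N ∈ Pal n ↔ IsPalD (2 * n + 1) N := by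
  classical
  unfold Pal
  simp only [Finset.mem_filter, Finset.mem_range]
  exact ⟨fun h => h.2, fun h => ⟨c1_isPal_lt _ _ h, h⟩⟩

/-- the outer digit `c1` added to a digit vector -/
def c1_sn (T c1 : ℕ) (f : Fin T → ℕ) : Fin (T + 1) → ℕ := Fin.snoc (α := fun _ => ℕ) f c1

lemma c1_sn_last (T c1 : ℕ) (f : Fin T → ℕ) : c1_sn T c1 f (Fin.last T) = c1 := by
  unfold c1_sn
  simp

lemma c1_sn_cast (T c1 : ℕ) (f : Fin T → ℕ) (i : Fin T) : c1_sn T c1 f i.castSucc = f i := by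
  unfold c1_sn
  simp

lemma c1_sn_mem (T c1 : ℕ) (hc1 : c1 < 10) (f : Fin T → ℕ) (hf : f ∈ KK T 10) :
    c1_sn T c1 f ∈ KK (T + 1) 10 := by
  unfold KK at hf ⊢
  rw [Fintype.mem_piFinset] at hf ⊢
  intro i
  refine Fin.lastCases ?_ (fun j => ?_) i
  · rw [c1_sn_last, Finset.mem_range]
    exact hc1
  · rw [c1_sn_cast]
    exact hf j

lemma c1_vl (T c1 : ℕ) (f : Fin T → ℕ) :
    10 * vl (T + 1) (c1_sn T c1 f) = c1 * (10 ^ (2 * T + 3) + 10) + 100 * vl T f := by
  unfold vl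
  rw [Fin.sum_univ_castSucc, c1_sn_last]
  have h1 : ∑ i : Fin T, c1_sn T c1 f i.castSucc * ww 10 (T + 1) (((i.castSucc : Fin (T + 1)) : ℕ) + 1) =
      10 * ∑ i : Fin T, f i * ww 10 T ((i : ℕ) + 1) := by
    rw [Finset.mul_sum]
    apply Finset.sum_congr rfl
    intro i _
    rw [c1_sn_cast, Fin.val_castSucc, ww_succ_left 10 T _ (by omega)]
    ring
  rw [h1, Fin.val_last]
  unfold ww
  rw [Nat.sub_self, pow_zero, show 2 * T + 3 = T + 1 + (T + 1) + 1 by ring, pow_succ]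
  ring

/-- shift of the residue class -/
def c1_S (T c c1 d M r : ℕ) : ℕ :=
  c * (10 ^ (2 * (T + 2)) + 1) + c1 * (10 ^ (2 * T + 3) + 10) + d * 10 ^ (T + 2) + (M - r % M)

lemma c1_PN (T c c1 d : ℕ) (f : Fin T → ℕ) :
    PN (T + 2) c d (c1_sn T c1 f) = c * (10 ^ (2 * (T + 2)) + 1) + d * 10 ^ (T + 2) +
      (c1 * (10 ^ (2 * T + 3) + 10) + 100 * vl T f) := by
  rw [← c1_vl]
  rfl

lemma c1_mod (T c c1 d M r : ℕ) (hM : 0 < M) (f : Fin T → ℕ) :
    PN (T + 2) c d (c1_sn T c1 f) ≡ r [MOD M] ↔ M ∣ c1_S T c c1 d M r + 100 * vl T f := by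
  have h1 : c1_S T c c1 d M r + 100 * vl T f = PN (T + 2) c d (c1_sn T c1 f) + (M - r % M) := by
    rw [c1_PN]
    unfold c1_S
    ring
  have h2 : r % M < M := Nat.mod_lt _ hM
  rw [h1, ← Nat.modEq_zero_iff_dvd]
  have h3 : r + (M - r % M) ≡ 0 [MOD M] := by
    have : r % M + (M - r % M) ≡ 0 [MOD M] := by
      rw [Nat.add_sub_cancel' h2.le]
      exact (Nat.modEq_zero_iff_dvd).mpr (dvd_refl M)
    exact (Nat.ModEq.add_right _ (Nat.mod_modEq r M).symm).trans this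
  constructor
  · intro h
    exact (Nat.ModEq.add_right _ h).trans h3
  · intro h
    exact Nat.ModEq.add_right_cancel' _ (h.trans h3.symm)

lemma c1_digit1 (T c d : ℕ) (hc0 : c ≠ 0) (hc : c < 10) (hd : d < 10) (f : Fin (T + 1) → ℕ)
    (hf : f ∈ KK (T + 1) 10) : PN (T + 2) c d f / 10 % 10 = f (Fin.last T) := by
  have h := PN_digit (T + 2) c d (by omega) hc0 hc hd f hf 1 (by omega)
  rw [pow_one] at h
  rw [h]
  unfold ga fa
  rw [if_neg (by omega), dif_pos (by omega)]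
  congr 1
  apply Fin.ext
  simp only [Fin.val_last]
  omega

lemma c1_digit0 (T c d : ℕ) (hc0 : c ≠ 0) (hc : c < 10) (hd : d < 10) (f : Fin (T + 1) → ℕ)
    (hf : f ∈ KK (T + 1) 10) : PN (T + 2) c d f % 10 = c := by
  have h := PN_digit (T + 2) c d (by omega) hc0 hc hd f hf 0 (by omega)
  rw [pow_zero, Nat.div_one] at h
  rw [h]
  unfold ga fa
  rw [if_neg (by omega), dif_neg (by omega)]

lemma c1_count (T M c c1 r : ℕ) (hM : 0 < M) (hc : 1 ≤ c) (hc' : c < 10) (hc1 : c1 < 10) :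
    ((Pal (T + 2)).filter (fun P => P % 10 = c ∧ P / 10 % 10 = c1 ∧ P ≡ r [MOD M])).card =
      ∑ d ∈ range 10, cnt5 100 T (c1_S T c c1 d M r) M := by
  classical
  set W := (range 10 ×ˢ KK T 10).filter
    (fun x : ℕ × (Fin T → ℕ) => M ∣ c1_S T c c1 x.1 M r + 100 * vl T x.2) with hW
  have h1 : (Pal (T + 2)).filter (fun P => P % 10 = c ∧ P / 10 % 10 = c1 ∧ P ≡ r [MOD M]) =
      W.image (fun x => PN (T + 2) c x.1 (c1_sn T c1 x.2)) := by
    ext P
    rw [Finset.mem_filter, Finset.mem_image, c1_mem_Pal]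
    constructor
    · rintro ⟨h1, h2, h3, h4⟩
      obtain ⟨c', d, f, hf, hc0, hcc, hd, rfl⟩ := PN_surj (T + 2) (by omega) P h1
      have e0 := c1_digit0 T c' d hc0 hcc hd f hf
      have e1 := c1_digit1 T c' d hc0 hcc hd f hf
      have hc'c : c' = c := by rw [← e0]; exact h2
      have hfl : f (Fin.last T) = c1 := by rw [← e1]; exact h3
      subst hc'c
      have hsn : c1_sn T c1 (fun i => f i.castSucc) = f := by
        funext i
        refine Fin.lastCases ?_ (fun j => ?_) i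
        · rw [c1_sn_last]; exact hfl.symm
        · rw [c1_sn_cast]
      refine ⟨(d, fun i => f i.castSucc), ?_, ?_⟩
      · rw [hW, Finset.mem_filter, Finset.mem_product, Finset.mem_range]
        refine ⟨⟨hd, ?_⟩, ?_⟩
        · unfold KK at hf ⊢
          rw [Fintype.mem_piFinset] at hf ⊢
          intro i
          exact hf i.castSucc
        · rw [← c1_mod T c' c1 d M r hM, hsn]
          exact h4
      · simp only
        rw [hsn]
    · rintro ⟨x, hx, rfl⟩
      rw [hW, Finset.mem_filter, Finset.mem_product, Finset.mem_range] at hx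
      obtain ⟨⟨hd, hf⟩, hdvd⟩ := hx
      have hsm := c1_sn_mem T c1 hc1 x.2 hf
      refine ⟨PN_pal (T + 2) c x.1 (by omega) (by omega) hc' hd _ hsm,
        c1_digit0 T c x.1 (by omega) hc' hd _ hsm, ?_, (c1_mod T c c1 x.1 M r hM x.2).mpr hdvd⟩
      rw [c1_digit1 T c x.1 (by omega) hc' hd _ hsm, c1_sn_last]
  rw [h1, Finset.card_image_of_injOn, hW, Finset.card_filter, Finset.sum_product]
  · apply Finset.sum_congr rfl
    intro d _
    unfold cnt5
    rw [Finset.card_filter]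
  · intro x hx y hy hxy
    rw [Finset.mem_coe, hW, Finset.mem_filter, Finset.mem_product, Finset.mem_range] at hx hy
    obtain ⟨_, h2, h3⟩ := PN_inj (T + 2) (by omega) c x.1 c y.1 _ _ (by omega) hc' hx.1.1
      (c1_sn_mem T c1 hc1 x.2 hx.1.2) (by omega) hc' hy.1.1 (c1_sn_mem T c1 hc1 y.2 hy.1.2) hxy
    refine Prod.ext h2 ?_
    funext i
    have := congrFun h3 i.castSucc
    rw [← c1_sn_cast T c1 x.2 i, ← c1_sn_cast T c1 y.2 i]
    exact this

lemma c1_Psi (ρ : ℝ) (hρ0 : 0 < ρ) (T e k : ℕ)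
    (hs : ∀ κ T q a k : ℕ, q.Coprime κ → 1 < q → q.Coprime 10 → a.Coprime q → q ≤ 10 ^ k →
      GF κ T (Icc 1 T) ((a : ℝ) / q) ≤ ρ ^ (T / (2 * k + 3)))
    (he1 : 1 < e) (he : e.Coprime 10) (hk : e ≤ 10 ^ k) :
    Psi5 100 T e ≤ e * ρ ^ (T / (2 * k + 3)) := by
  have he100 : e.Coprime 100 := by
    have := Nat.Coprime.pow_right 2 he
    norm_num at this
    exact this
  unfold Psi5
  calc ∑ a ∈ AA e, GF 100 T (Icc 1 T) ((a : ℝ) / e) ≤ ∑ a ∈ AA e, ρ ^ (T / (2 * k + 3)) := by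
        apply Finset.sum_le_sum
        intro a ha
        unfold AA at ha
        rw [Finset.mem_filter] at ha
        exact hs 100 T e a k he100 he1 he ha.2 hk
    _ = ((AA e).card : ℝ) * ρ ^ (T / (2 * k + 3)) := by
        rw [Finset.sum_const, nsmul_eq_mul]
    _ ≤ e * ρ ^ (T / (2 * k + 3)) := by
        apply mul_le_mul_of_nonneg_right _ (by positivity)
        have : (AA e).card ≤ e := by
          unfold AA
          refine le_trans (Finset.card_filter_le _ _) ?_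
          rw [Finset.card_range]
        exact_mod_cast this

theorem sqC1 (M c c1 r : ℕ) (hM : M.Coprime 10) (hc : 1 ≤ c) (hc' : c < 10) (hc1 : c1 < 10) :
    Tendsto (fun n : ℕ => (((Pal n).filter (fun P => P % 10 = c ∧ P / 10 % 10 = c1 ∧
      P ≡ r [MOD M])).card : ℝ) / 10 ^ n) atTop (𝓝 (1 / (10 * M))) := by
  obtain ⟨ρ, hρ0, hρ1, hs⟩ := sup5
  have hM0 : 0 < M := by
    rcases Nat.eq_zero_or_pos M with h | h
    · rw [h] at hM
      norm_num at hM
    · exact h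
  have hMR : (0 : ℝ) < M := by exact_mod_cast hM0
  have hMM : M ≤ 10 ^ M := (Nat.lt_pow_self (by norm_num)).le
  set B : ℝ := ∑ e ∈ M.divisors.erase 1, (e : ℝ) with hB
  have hB0 : 0 ≤ B := Finset.sum_nonneg fun _ _ => Nat.cast_nonneg _
  have hcnt : ∀ T S : ℕ, |(cnt5 100 T S M : ℝ) - 10 ^ T / M| ≤
      10 ^ T / M * (B * ρ ^ (T / (2 * M + 3))) := by
    intro T S
    refine (count5 100 T S M hM0).trans ?_
    apply mul_le_mul_of_nonneg_left _ (by positivity)
    rw [hB, Finset.sum_mul]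
    apply Finset.sum_le_sum
    intro e he
    rw [Finset.mem_erase, Nat.mem_divisors] at he
    have he0 : e ≠ 0 := by
      rintro rfl
      have := he.2.1
      rw [zero_dvd_iff] at this
      omega
    have hle := Nat.le_of_dvd hM0 he.2.1
    exact c1_Psi ρ hρ0 T e M hs (by omega) (Nat.Coprime.coprime_dvd_left he.2.1 hM) (hle.trans hMM)
  have hbound : ∀ n : ℕ, 2 ≤ n → |(((Pal n).filter (fun P => P % 10 = c ∧ P / 10 % 10 = c1 ∧
      P ≡ r [MOD M])).card : ℝ) / 10 ^ n - 1 / (10 * M)| ≤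
      B / (10 * M) * ρ ^ ((n - 2) / (2 * M + 3)) := by
    intro n hn
    obtain ⟨T, rfl⟩ : ∃ T, n = T + 2 := ⟨n - 2, by omega⟩
    rw [c1_count T M c c1 r hM0 hc hc' hc1, Nat.add_sub_cancel]
    have h1 : |((∑ d ∈ range 10, cnt5 100 T (c1_S T c c1 d M r) M : ℕ) : ℝ) - 10 * (10 ^ T / M)| ≤
        10 * (10 ^ T / M * (B * ρ ^ (T / (2 * M + 3)))) := by
      have e1 : (10 : ℝ) * (10 ^ T / M) = ∑ d ∈ range 10, (10 : ℝ) ^ T / M := by
        rw [Finset.sum_const, Finset.card_range, nsmul_eq_mul]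
        norm_num
      rw [e1]
      push_cast
      rw [← Finset.sum_sub_distrib]
      refine (Finset.abs_sum_le_sum_abs _ _).trans ?_
      calc _ ≤ ∑ d ∈ range 10, (10 : ℝ) ^ T / M * (B * ρ ^ (T / (2 * M + 3))) :=
            Finset.sum_le_sum fun d _ => hcnt T _
        _ = _ := by
            rw [Finset.sum_const, Finset.card_range, nsmul_eq_mul]
            norm_num
    have h10 : (0 : ℝ) < 10 ^ (T + 2) := by positivity
    have e2 : ((∑ d ∈ range 10, cnt5 100 T (c1_S T c c1 d M r) M : ℕ) : ℝ) / 10 ^ (T + 2) -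
        1 / (10 * M) = (((∑ d ∈ range 10, cnt5 100 T (c1_S T c c1 d M r) M : ℕ) : ℝ) -
          10 * (10 ^ T / M)) / 10 ^ (T + 2) := by
      rw [pow_add]
      field_simp
    have e3 : B / (10 * M) * ρ ^ (T / (2 * M + 3)) =
        10 * (10 ^ T / M * (B * ρ ^ (T / (2 * M + 3)))) / 10 ^ (T + 2) := by
      rw [pow_add]
      field_simp
    rw [e2, e3, abs_div, abs_of_pos h10]
    exact div_le_div_of_nonneg_right h1 h10.le
  have hdiv : Tendsto (fun n : ℕ => (n - 2) / (2 * M + 3)) atTop atTop := by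
    rw [tendsto_atTop_atTop]
    intro b
    refine ⟨b * (2 * M + 3) + 2, fun n hn => ?_⟩
    rw [Nat.le_div_iff_mul_le (by omega)]
    omega
  have hlim : Tendsto (fun n : ℕ => B / (10 * M) * ρ ^ ((n - 2) / (2 * M + 3))) atTop (𝓝 0) := by
    have h1 := (tendsto_pow_atTop_nhds_zero_of_lt_one hρ0.le hρ1).comp hdiv
    have h2 := h1.const_mul (B / (10 * M))
    rw [mul_zero] at h2
    exact h2
  rw [tendsto_iff_norm_sub_tendsto_zero]
  apply squeeze_zero' (Eventually.of_forall fun n => norm_nonneg _) _ hlim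
  filter_upwards [eventually_ge_atTop 2] with n hn
  rw [Real.norm_eq_abs]
  exact hbound n hn

end Pool.Agent.Helper10.SQ
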