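import Pool.Agent.Helper10.SQ.C1

/-! SQ-C2: density of the palindromes not divisible by `4`, `25` and finitely many squares of primes.

PROOF. Last digit `c = P % 10 ∈ {1..9}` (a palindrome does not end in 0: its first digit is not 0), `c1 = P / 10 % 10`. `4 ∣ P ↔ 4 ∣ 10 c1 + c`,
`25 ∣ P ↔ 25 ∣ 10 c1 + c`. For fixed `(c, c1)`, a modulus `M` coprime to `10` and to the primes in `S`, and a residue `r`, the number of `P` with these
digits, `P ≡ r` mod `M` and `p^2 ∤ P` for `p ∈ S`, divided by `10^n`, tends to `1/(10 M) ∏_{p ∈ S} (1 - 1/p^2)`: induction on `S`, the case of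
`insert q S` being the difference of the cases `(S, M, r)` and `(S, M q^2, r')` (Chinese remainder). The number of good pairs `(c, c1)` is `68`. -/

namespace Pool.Agent.Helper10.SQ

open Finset Filter Topology Pool.Agent.Helper10 Pool.Agent.Helper10.P5 Pool.Agent.Helper10.P4

lemma pal_mod_ten_ne_zero {n P : ℕ} (hP : P ∈ Pal n) : P % 10 ≠ 0 := by
  classical
  unfold Pal at hP
  obtain ⟨-, hlen, hrev⟩ := Finset.mem_filter.mp hP
  have hP0 : P ≠ 0 := by
    rintro rfl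
    rw [Nat.digits_zero, List.length_nil] at hlen
    omega
  have hne : Nat.digits 10 P ≠ [] := by
    intro h
    rw [h, List.length_nil] at hlen
    omega
  have hlast := Nat.getLast_digit_ne_zero 10 hP0
  have h1 : (Nat.digits 10 P).getLast hne = (Nat.digits 10 P).head hne := by
    have h2 : (Nat.digits 10 P).reverse ≠ [] := by
      rw [hrev]; exact hne
    have h3 : (Nat.digits 10 P).reverse.getLast h2 = (Nat.digits 10 P).head hne :=
      List.getLast_reverse h2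
    rw [← h3]
    congr 1
    exact hrev.symm
  have h4 : (Nat.digits 10 P).head hne = P % 10 := by
    have h5 : Nat.digits 10 P = P % 10 :: Nat.digits 10 (P / 10) :=
      Nat.digits_def' (by norm_num) (Nat.pos_of_ne_zero hP0)
    have h6 : (Nat.digits 10 P).head? = some (P % 10) := by rw [h5]; rfl
    rw [List.head?_eq_some_head hne] at h6
    exact Option.some.inj h6
  rw [← h4, ← h1]
  exact hlast

lemma sqC2_aux (S : Finset ℕ) : (∀ p ∈ S, p.Prime ∧ p ≠ 2 ∧ p ≠ 5) →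
    ∀ (M c c1 r : ℕ), M.Coprime 10 → (∀ p ∈ S, M.Coprime p) → 1 ≤ c → c < 10 → c1 < 10 →
    Tendsto (fun n : ℕ => (((Pal n).filter (fun P => P % 10 = c ∧ P / 10 % 10 = c1 ∧
      P ≡ r [MOD M] ∧ ∀ p ∈ S, ¬ p ^ 2 ∣ P)).card : ℝ) / 10 ^ n) atTop
      (𝓝 (1 / (10 * M) * ∏ p ∈ S, (1 - 1 / (p : ℝ) ^ 2))) := by
  classical
  induction S using Finset.induction_on with
  | empty =>
    intro _ M c c1 r hM _ hc hc' hc1
    have h := sqC1 M c c1 r hM hc hc' hc1
    simpa using h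
  | insert q S hq ih =>
    intro hS M c c1 r hM hMS hc hc' hc1
    have hS' : ∀ p ∈ S, p.Prime ∧ p ≠ 2 ∧ p ≠ 5 := fun p hp => hS p (Finset.mem_insert_of_mem hp)
    have hq' := hS q (Finset.mem_insert_self q S)
    have hMq : M.Coprime (q ^ 2) := (hMS q (Finset.mem_insert_self q S)).pow_right 2
    have hq10 : (q ^ 2).Coprime 10 := by
      apply Nat.Coprime.pow_left
      have h2 : q.Coprime 2 := (Nat.coprime_primes hq'.1 Nat.prime_two).mpr hq'.2.1
      have h5 : q.Coprime 5 := (Nat.coprime_primes hq'.1 Nat.prime_five).mpr hq'.2.2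
      exact Nat.Coprime.mul_right h2 h5
    have hMq10 : (M * q ^ 2).Coprime 10 := Nat.Coprime.mul_left hM hq10
    have hMqS : ∀ p ∈ S, (M * q ^ 2).Coprime p := by
      intro p hp
      apply Nat.Coprime.mul_left (hMS p (Finset.mem_insert_of_mem hp))
      apply Nat.Coprime.pow_left
      apply (Nat.coprime_primes hq'.1 (hS' p hp).1).mpr
      rintro rfl
      exact hq hp
    obtain ⟨r', hr'1, hr'2⟩ := Nat.chineseRemainder hMq r 0
    have hA := ih hS' M c c1 r hM (fun p hp => hMS p (Finset.mem_insert_of_mem hp)) hc hc' hc1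
    have hB := ih hS' (M * q ^ 2) c c1 r' hMq10 hMqS hc hc' hc1
    have hkey : ∀ n : ℕ, (((Pal n).filter (fun P => P % 10 = c ∧ P / 10 % 10 = c1 ∧
        P ≡ r [MOD M] ∧ ∀ p ∈ insert q S, ¬ p ^ 2 ∣ P)).card : ℝ) / 10 ^ n =
        (((Pal n).filter (fun P => P % 10 = c ∧ P / 10 % 10 = c1 ∧
          P ≡ r [MOD M] ∧ ∀ p ∈ S, ¬ p ^ 2 ∣ P)).card : ℝ) / 10 ^ n -
        (((Pal n).filter (fun P => P % 10 = c ∧ P / 10 % 10 = c1 ∧
          P ≡ r' [MOD M * q ^ 2] ∧ ∀ p ∈ S, ¬ p ^ 2 ∣ P)).card : ℝ) / 10 ^ n := by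
      intro n
      rw [← sub_div]
      congr 1
      rw [eq_sub_iff_add_eq, ← Nat.cast_add]
      congr 1
      have h1 := Finset.card_filter_add_card_filter_not
        (s := (Pal n).filter (fun P => P % 10 = c ∧ P / 10 % 10 = c1 ∧
          P ≡ r [MOD M] ∧ ∀ p ∈ S, ¬ p ^ 2 ∣ P)) (fun P => ¬ q ^ 2 ∣ P)
      rw [← h1, Finset.filter_filter, Finset.filter_filter]
      congr 1
      · congr 1
        apply Finset.filter_congr
        intro P _
        constructor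
        · rintro ⟨h1, h2, h3, h4⟩
          exact ⟨⟨h1, h2, h3, fun p hp => h4 p (Finset.mem_insert_of_mem hp)⟩,
            h4 q (Finset.mem_insert_self q S)⟩
        · rintro ⟨⟨h1, h2, h3, h4⟩, h5⟩
          refine ⟨h1, h2, h3, fun p hp => ?_⟩
          rcases Finset.mem_insert.mp hp with rfl | hp
          · exact h5
          · exact h4 p hp
      · congr 1
        apply Finset.filter_congr
        intro P _
        rw [not_not]
        have h6 : P ≡ r' [MOD M * q ^ 2] ↔ (P ≡ r [MOD M] ∧ q ^ 2 ∣ P) := by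
          rw [← Nat.modEq_and_modEq_iff_modEq_mul hMq]
          constructor
          · rintro ⟨h1, h2⟩
            exact ⟨h1.trans hr'1, (Nat.modEq_zero_iff_dvd).mp (h2.trans hr'2)⟩
          · rintro ⟨h1, h2⟩
            exact ⟨h1.trans hr'1.symm, ((Nat.modEq_zero_iff_dvd).mpr h2).trans hr'2.symm⟩
        rw [h6]
        tauto
    simp_rw [hkey]
    have hlim : 1 / (10 * (M : ℝ)) * ∏ p ∈ insert q S, (1 - 1 / (p : ℝ) ^ 2) =
        1 / (10 * (M : ℝ)) * ∏ p ∈ S, (1 - 1 / (p : ℝ) ^ 2) -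
        1 / (10 * ((M * q ^ 2 : ℕ) : ℝ)) * ∏ p ∈ S, (1 - 1 / (p : ℝ) ^ 2) := by
      rw [Finset.prod_insert hq]
      have hq0 : (q : ℝ) ≠ 0 := by exact_mod_cast hq'.1.ne_zero
      have hM0 : (M : ℝ) ≠ 0 := by
        have : M ≠ 0 := by
          rintro rfl
          rw [Nat.coprime_zero_left] at hM
          omega
        exact_mod_cast this
      push_cast
      field_simp
    rw [hlim]
    exact hA.sub hB

lemma exists_goodPairs : ∃ G : Finset (ℕ × ℕ), (∀ x, x ∈ G ↔ (x.1 < 10 ∧ x.2 < 10 ∧ x.1 ≠ 0 ∧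
    ¬ 4 ∣ 10 * x.2 + x.1 ∧ ¬ 25 ∣ 10 * x.2 + x.1)) ∧ G.card = 68 := by
  refine ⟨((range 10) ×ˢ (range 10)).filter (fun x => x.1 ≠ 0 ∧ ¬ 4 ∣ 10 * x.2 + x.1 ∧
    ¬ 25 ∣ 10 * x.2 + x.1), ?_, by decide⟩
  intro x
  rw [Finset.mem_filter, Finset.mem_product, Finset.mem_range, Finset.mem_range, and_assoc]

theorem sqC2 (S : Finset ℕ) (hS : ∀ p ∈ S, p.Prime ∧ p ≠ 2 ∧ p ≠ 5) :
    Tendsto (fun n : ℕ => (((Pal n).filter (fun P => ¬ 4 ∣ P ∧ ¬ 25 ∣ P ∧
      ∀ p ∈ S, ¬ p ^ 2 ∣ P)).card : ℝ) / 10 ^ n) atTop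
      (𝓝 (34 / 5 * ∏ p ∈ S, (1 - 1 / (p : ℝ) ^ 2))) := by
  classical
  obtain ⟨G, hG, hGcard⟩ := exists_goodPairs
  have hkey : ∀ n : ℕ, (((Pal n).filter (fun P => ¬ 4 ∣ P ∧ ¬ 25 ∣ P ∧
      ∀ p ∈ S, ¬ p ^ 2 ∣ P)).card : ℝ) / 10 ^ n = ∑ x ∈ G,
      (((Pal n).filter (fun P => P % 10 = x.1 ∧ P / 10 % 10 = x.2 ∧
        P ≡ 0 [MOD 1] ∧ ∀ p ∈ S, ¬ p ^ 2 ∣ P)).card : ℝ) / 10 ^ n := by
    intro n
    rw [← Finset.sum_div, ← Nat.cast_sum]
    congr 2
    have hmaps : ((((Pal n).filter (fun P => ¬ 4 ∣ P ∧ ¬ 25 ∣ P ∧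
        ∀ p ∈ S, ¬ p ^ 2 ∣ P)) : Finset ℕ) : Set ℕ).MapsTo
        (fun P => (P % 10, P / 10 % 10)) (G : Set (ℕ × ℕ)) := by
      intro P hP
      rw [Finset.mem_coe, Finset.mem_filter] at hP
      have h0 := pal_mod_ten_ne_zero hP.1
      rw [Finset.mem_coe, hG]
      refine ⟨Nat.mod_lt _ (by norm_num), Nat.mod_lt _ (by norm_num), h0, ?_, ?_⟩
      · intro h
        exact hP.2.1 (by simp only at h; omega)
      · intro h
        exact hP.2.2.1 (by simp only at h; omega)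
    rw [Finset.card_eq_sum_card_fiberwise hmaps]
    apply Finset.sum_congr rfl
    intro x hx
    congr 1
    rw [Finset.filter_filter]
    apply Finset.filter_congr
    intro P hP
    rw [hG] at hx
    obtain ⟨hx1, hx2, hx3, hx4, hx5⟩ := hx
    constructor
    · rintro ⟨⟨h1, h2, h3⟩, h4⟩
      have h5 : P % 10 = x.1 := congrArg Prod.fst h4
      have h6 : P / 10 % 10 = x.2 := congrArg Prod.snd h4
      exact ⟨h5, h6, Nat.modEq_one, h3⟩
    · rintro ⟨h1, h2, -, h3⟩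
      refine ⟨⟨?_, ?_, h3⟩, Prod.ext h1 h2⟩
      · intro h
        exact hx4 (by omega)
      · intro h
        exact hx5 (by omega)
  simp_rw [hkey]
  have hsum : (34 / 5 * ∏ p ∈ S, (1 - 1 / (p : ℝ) ^ 2)) =
      ∑ x ∈ G, (1 / (10 * ((1 : ℕ) : ℝ)) * ∏ p ∈ S, (1 - 1 / (p : ℝ) ^ 2)) := by
    rw [Finset.sum_const, hGcard, nsmul_eq_mul]
    push_cast
    ring
  rw [hsum]
  apply tendsto_finsetSum
  intro x hx
  rw [hG] at hx
  exact sqC2_aux S hS 1 x.1 x.2 0 (Nat.coprime_one_left _) (fun p _ => Nat.coprime_one_left _)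
    (Nat.pos_of_ne_zero hx.2.2.1) hx.1 hx.2.1

end Pool.Agent.Helper10.SQ
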