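import Mathlib

/-! SQ-C3: the Euler product.

PROOF. `∏_p (1 - p^(-2))^(-1) = ζ(2) = π^2/6` (`riemannZeta_eulerProduct_tendsto` or `riemannZeta_eulerProduct_hasProd`, `riemannZeta_two`; or
the real version `EulerProduct...` with `∑ 1/n^2 = π^2/6`, `hasSum_zeta_two`). Over the primes `≤ z` the product of `(1 - 1/p^2)` tends to
`6/π^2`; divide by the factors `3/4` and `24/25` of `p = 2, 5` (present for `z ≥ 5`): `6/π^2/(3/4 * 24/25) = 25/(3 π^2)`. -/

namespace Pool.Agent.Helper10.SQ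

open Finset Filter Topology

private noncomputable def sqinv : ℕ →*₀ ℝ where
  toFun n := ((n : ℝ) ^ 2)⁻¹
  map_zero' := by simp
  map_one' := by simp
  map_mul' a b := by
    push_cast
    rw [mul_pow, mul_inv]

private theorem sqinv_apply (n : ℕ) : sqinv n = ((n : ℝ) ^ 2)⁻¹ := rfl

private theorem prod_all : Tendsto (fun z : ℕ => ∏ p ∈ Nat.primesBelow z,
    (1 - 1 / (p : ℝ) ^ 2)) atTop (𝓝 (6 / Real.pi ^ 2)) := by
  have hs : HasSum (fun n : ℕ => sqinv n) (Real.pi ^ 2 / 6) := by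
    have h := hasSum_zeta_two
    simpa only [sqinv_apply, one_div] using h
  have hsum : Summable (fun n : ℕ => ‖sqinv n‖) := hs.summable.norm
  have h1 := EulerProduct.eulerProduct_completely_multiplicative hsum
  rw [hs.tsum_eq] at h1
  have h2 := h1.inv₀ (by positivity)
  have h3 : (Real.pi ^ 2 / 6)⁻¹ = 6 / Real.pi ^ 2 := by rw [inv_div]
  rw [h3] at h2
  refine h2.congr fun n => ?_
  rw [← Finset.prod_inv_distrib]
  refine Finset.prod_congr rfl fun p _ => ?_
  rw [inv_inv, sqinv_apply, one_div]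

theorem sqC3 : Tendsto (fun z : ℕ => ∏ p ∈ (range z).filter (fun p => p.Prime ∧ p ≠ 2 ∧ p ≠ 5),
    (1 - 1 / (p : ℝ) ^ 2)) atTop (𝓝 (25 / (3 * Real.pi ^ 2))) := by
  have h1 := prod_all.div_const (18 / 25 : ℝ)
  have h2 : 6 / Real.pi ^ 2 / (18 / 25 : ℝ) = 25 / (3 * Real.pi ^ 2) := by
    have h3 : (Real.pi : ℝ) ≠ 0 := Real.pi_ne_zero
    field_simp
    norm_num
  rw [h2] at h1
  refine h1.congr' ?_
  filter_upwards [eventually_ge_atTop 6] with z hz
  have h4 : Nat.primesBelow z = insert 2 (insert 5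
      ((range z).filter (fun p => p.Prime ∧ p ≠ 2 ∧ p ≠ 5))) := by
    ext p
    simp only [Nat.mem_primesBelow, Finset.mem_insert, Finset.mem_filter, Finset.mem_range]
    constructor
    · rintro ⟨h5, h6⟩
      by_cases h7 : p = 2
      · exact Or.inl h7
      · by_cases h8 : p = 5
        · exact Or.inr (Or.inl h8)
        · exact Or.inr (Or.inr ⟨h5, h6, h7, h8⟩)
    · rintro (rfl | rfl | ⟨h5, h6, -, -⟩)
      · exact ⟨by omega, Nat.prime_two⟩
      · exact ⟨by omega, Nat.prime_five⟩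
      · exact ⟨h5, h6⟩
  rw [h4, Finset.prod_insert (by simp), Finset.prod_insert (by simp)]
  push_cast
  ring

end Pool.Agent.Helper10.SQ
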