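import Pool.Agent.Helper10.SQ.B1
import Pool.Agent.Helper10.SQ.B2
import Pool.Agent.Helper10.SQ.C2
import Pool.Agent.Helper10.SQ.C3

/-! SQ-C4: Theorem 2, the number of squarefree palindromes.

PROOF. `S_z = (range z).filter (p prime, p ≠ 2, p ≠ 5)`, `A_n(z)` = the count of `sqC2` for `S_z`, `Q_n` = number of squarefree `P ∈ Pal n`.
`Q_n ≤ A_n(z)` (a squarefree number is not divisible by `4`, `25`, `p^2`). `A_n(z) - Q_n ≤ #{P : some prime p ≥ z, p ≠ 2, 5, p^2 ∣ P}` for `z ≥ 6`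
(`Nat.squarefree_iff_prime_squarefree`) `≤ ∑_{z ≤ d ≤ D, (d,10)=1} cl n (d^2) 0 + #{P : d^2 ∣ P for some d > D}`, `D = ⌊10^(0.9 n)⌋`. The first sum is
`≤ ∑_{d ≥ z} 9 10^n/d^2 + 10^n/n ≤ 18 10^n/z + 10^n/n` by `sqB2` (`ε = 1/10`, `A = 1`, `a = 0`); the second count is, with `e = n - ⌊0.9 n⌋ ≤ n/10 + 2`, at most
`10^(2e+1) 10^(n/2+1) ≤ 10^(0.7n+8)` by `sqB1`. So `limsup |Q_n/10^n - A_n(z)/10^n| ≤ 18/z`, and `A_n(z)/10^n → 34/5 ∏_{p ∈ S_z}(1 - 1/p^2)`, which tends to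
`34/5 * 25/(3 π^2) = 170/(3 π^2)` as `z → ∞` (`sqC3`). -/

namespace Pool.Agent.Helper10.SQ

open Finset Filter Topology Pool.Agent.Helper10 Pool.Agent.Helper10.P5 Pool.Agent.Helper10.P4

/-- the primes below `z` apart from 2 and 5 -/
private def Sz (z : ℕ) : Finset ℕ := (range z).filter (fun p => p.Prime ∧ p ≠ 2 ∧ p ≠ 5)

/-- squarefree palindromes -/
private noncomputable def Qn (n : ℕ) : Finset ℕ := (Pal n).filter (fun P => Squarefree P)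

/-- palindromes which are not divisible by 4, 25 and the squares of the primes in `Sz z` -/
private noncomputable def An (z n : ℕ) : Finset ℕ := (Pal n).filter (fun P => ¬ 4 ∣ P ∧ ¬ 25 ∣ P ∧
      ∀ p ∈ Sz z, ¬ p ^ 2 ∣ P)

private theorem Qn_sub (z n : ℕ) : Qn n ⊆ An z n := by
  intro P hP
  unfold Qn at hP
  unfold An
  rw [mem_filter] at hP ⊢
  obtain ⟨h1, h2⟩ := hP
  rw [Nat.squarefree_iff_prime_squarefree] at h2
  refine ⟨h1, ?_, ?_, ?_⟩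
  · exact h2 2 Nat.prime_two
  · exact h2 5 Nat.prime_five
  · intro p hp
    unfold Sz at hp
    rw [mem_filter] at hp
    rw [pow_two]
    exact h2 p hp.2.1

private theorem An_sub (z n D : ℕ) : ∀ P ∈ An z n, P ∈ Qn n ∨
    (∃ d ∈ ((Icc 1 D).filter (fun d : ℕ => d.Coprime 10)).filter (fun d => z ≤ d),
      P ∈ (Pal n).filter (fun N => N ≡ 0 [MOD d ^ 2])) ∨
    (P ∈ Pal n ∧ ∃ d : ℕ, D ≤ d ∧ d ^ 2 ∣ P) := by
  intro P hP
  unfold An at hP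
  rw [mem_filter] at hP
  obtain ⟨h1, h2, h3, h4⟩ := hP
  by_cases hsq : Squarefree P
  · left
    unfold Qn
    rw [mem_filter]
    exact ⟨h1, hsq⟩
  right
  rw [Nat.squarefree_iff_prime_squarefree] at hsq
  push Not at hsq
  obtain ⟨p, hp, hpp⟩ := hsq
  rw [← pow_two] at hpp
  have hp2 : p ≠ 2 := by
    rintro rfl
    exact h2 hpp
  have hp5 : p ≠ 5 := by
    rintro rfl
    exact h3 hpp
  have hpz : z ≤ p := by
    by_contra hlt
    push Not at hlt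
    apply h4 p _ hpp
    unfold Sz
    rw [mem_filter, mem_range]
    exact ⟨hlt, hp, hp2, hp5⟩
  rcases le_or_gt p D with hpD | hpD
  · left
    refine ⟨p, ?_, ?_⟩
    · rw [mem_filter, mem_filter, mem_Icc]
      refine ⟨⟨⟨hp.one_lt.le, hpD⟩, ?_⟩, hpz⟩
      rw [show (10 : ℕ) = 2 * 5 by norm_num]
      apply Nat.Coprime.mul_right
      · exact (Nat.coprime_primes hp Nat.prime_two).2 hp2
      · exact (Nat.coprime_primes hp Nat.prime_five).2 hp5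
    · rw [mem_filter]
      exact ⟨h1, (Nat.modEq_zero_iff_dvd).2 hpp⟩
  · right
    exact ⟨h1, p, hpD.le, hpp⟩

open Classical in
private theorem An_card (z n D : ℕ) : (An z n).card ≤ (Qn n).card +
    ∑ d ∈ ((Icc 1 D).filter (fun d : ℕ => d.Coprime 10)).filter (fun d => z ≤ d),
      cl n (d ^ 2) 0 + ((Pal n).filter (fun P => ∃ d : ℕ, D ≤ d ∧ d ^ 2 ∣ P)).card := by
  have hsub : An z n ⊆ Qn n ∪
      (((Icc 1 D).filter (fun d : ℕ => d.Coprime 10)).filter (fun d => z ≤ d)).biUnion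
        (fun d => (Pal n).filter (fun N => N ≡ 0 [MOD d ^ 2])) ∪
      (Pal n).filter (fun P => ∃ d : ℕ, D ≤ d ∧ d ^ 2 ∣ P) := by
    intro P hP
    rw [mem_union, mem_union, mem_biUnion, mem_filter]
    rcases An_sub z n D P hP with h | h | h
    · exact Or.inl (Or.inl h)
    · exact Or.inl (Or.inr h)
    · exact Or.inr h
  refine (card_le_card hsub).trans ((card_union_le _ _).trans ?_)
  refine Nat.add_le_add_right ((card_union_le _ _).trans ?_) _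
  exact Nat.add_le_add_left card_biUnion_le _

private theorem sum_bound (n0 : ℕ) (hn0 : ∀ n : ℕ, n0 ≤ n → ∀ D : ℕ,
    (D : ℝ) ≤ (10 : ℝ) ^ ((1 - 1 / 10 : ℝ) * (n : ℝ)) → ∀ a : ℕ → ℕ,
    ∑ d ∈ (Icc 1 D).filter (fun d : ℕ => d.Coprime 10),
      |((cl n (d ^ 2) (a d) : ℕ) : ℝ) - 9 * 10 ^ n / ((d : ℝ) ^ 2)| ≤ (10 : ℝ) ^ n / (n : ℝ) ^ 1)
    {z n : ℕ} (hz : 1 ≤ z) (hn : n0 ≤ n) :
    ((∑ d ∈ ((Icc 1 (10 ^ (9 * n / 10))).filter (fun d : ℕ => d.Coprime 10)).filter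
      (fun d => z ≤ d), cl n (d ^ 2) 0 : ℕ) : ℝ) ≤ 18 / z * 10 ^ n + 10 ^ n / n := by
  set D := 10 ^ (9 * n / 10) with hD
  have hDR : (D : ℝ) ≤ (10 : ℝ) ^ ((1 - 1 / 10 : ℝ) * (n : ℝ)) := by
    rw [hD]
    push_cast
    rw [← Real.rpow_natCast]
    apply Real.rpow_le_rpow_of_exponent_le (by norm_num)
    have h1 : (9 * n / 10) * 10 ≤ 9 * n := Nat.div_mul_le_self _ _
    have h2 : (((9 * n / 10 : ℕ) : ℝ)) * 10 ≤ 9 * n := by exact_mod_cast h1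
    linarith
  have h1 := hn0 n hn D hDR (fun _ => 0)
  rw [pow_one] at h1
  push_cast
  have h2 : ∀ d ∈ ((Icc 1 D).filter (fun d : ℕ => d.Coprime 10)).filter (fun d => z ≤ d),
      ((cl n (d ^ 2) 0 : ℕ) : ℝ) ≤ 9 * 10 ^ n * ((d : ℝ) ^ 2)⁻¹ +
        |((cl n (d ^ 2) 0 : ℕ) : ℝ) - 9 * 10 ^ n / ((d : ℝ) ^ 2)| := by
    intro d _
    have := le_abs_self (((cl n (d ^ 2) 0 : ℕ) : ℝ) - 9 * 10 ^ n / ((d : ℝ) ^ 2))
    rw [div_eq_mul_inv] at this ⊢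
    linarith
  refine (sum_le_sum h2).trans ?_
  rw [sum_add_distrib, ← mul_sum]
  have h3 : ∑ d ∈ ((Icc 1 D).filter (fun d : ℕ => d.Coprime 10)).filter (fun d => z ≤ d),
      |((cl n (d ^ 2) 0 : ℕ) : ℝ) - 9 * 10 ^ n / ((d : ℝ) ^ 2)| ≤ (10 : ℝ) ^ n / (n : ℝ) := by
    refine le_trans (sum_le_sum_of_subset_of_nonneg (filter_subset _ _) ?_) h1
    intro _ _ _
    exact abs_nonneg _
  have h4 : ∑ d ∈ ((Icc 1 D).filter (fun d : ℕ => d.Coprime 10)).filter (fun d => z ≤ d),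
      ((d : ℝ) ^ 2)⁻¹ ≤ 2 / z := by
    have h5 := sum_Ioo_inv_sq_le (α := ℝ) (z - 1) (D + 1)
    have h6 : ((z - 1 : ℕ) : ℝ) + 1 = z := by
      rw [Nat.cast_sub hz]
      push_cast
      ring
    rw [h6] at h5
    refine le_trans (sum_le_sum_of_subset_of_nonneg ?_ ?_) h5
    · intro d hd
      rw [mem_filter, mem_filter, mem_Icc] at hd
      rw [mem_Ioo]
      omega
    · intro _ _ _
      positivity
  have h7 : 9 * (10 : ℝ) ^ n * ∑ d ∈ ((Icc 1 D).filter (fun d : ℕ => d.Coprime 10)).filter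
      (fun d => z ≤ d), ((d : ℝ) ^ 2)⁻¹ ≤ 9 * 10 ^ n * (2 / z) :=
    mul_le_mul_of_nonneg_left h4 (by positivity)
  have h8 : 9 * (10 : ℝ) ^ n * (2 / z) = 18 / z * 10 ^ n := by ring
  linarith

private theorem diff_bound (n0 : ℕ) (hn0 : ∀ n : ℕ, n0 ≤ n → ∀ D : ℕ,
    (D : ℝ) ≤ (10 : ℝ) ^ ((1 - 1 / 10 : ℝ) * (n : ℝ)) → ∀ a : ℕ → ℕ,
    ∑ d ∈ (Icc 1 D).filter (fun d : ℕ => d.Coprime 10),
      |((cl n (d ^ 2) (a d) : ℕ) : ℝ) - 9 * 10 ^ n / ((d : ℝ) ^ 2)| ≤ (10 : ℝ) ^ n / (n : ℝ) ^ 1)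
    {z n : ℕ} (hz : 1 ≤ z) (hn : n0 ≤ n) :
    ((An z n).card : ℝ) / 10 ^ n ≤ ((Qn n).card : ℝ) / 10 ^ n + 18 / z + 1 / n +
      10 ^ 4 / 10 ^ (n / 5) := by
  classical
  set m := 9 * n / 10 with hm
  have hmn : m ≤ n := by omega
  have h1 := An_card z n (10 ^ m)
  have h2 := sqB1 n (n - m) (Nat.sub_le _ _)
  rw [Nat.sub_sub_self hmn] at h2
  have h3 := sum_bound n0 hn0 hz hn
  have h4 : 10 ^ (2 * (n - m) + 1) * 10 ^ (n / 2 + 1) * 10 ^ (n / 5) ≤ 10 ^ (n + 4) := by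
    rw [← pow_add, ← pow_add]
    apply Nat.pow_le_pow_right (by norm_num)
    omega
  have h5 : (((Pal n).filter (fun P => ∃ d : ℕ, 10 ^ m ≤ d ∧ d ^ 2 ∣ P)).card : ℝ)
      ≤ 10 ^ n * (10 ^ 4 / 10 ^ (n / 5)) := by
    have h6 : (((Pal n).filter (fun P => ∃ d : ℕ, 10 ^ m ≤ d ∧ d ^ 2 ∣ P)).card *
        10 ^ (n / 5) : ℕ) ≤ 10 ^ (n + 4) := (Nat.mul_le_mul_right _ h2).trans h4
    have h7 : (((Pal n).filter (fun P => ∃ d : ℕ, 10 ^ m ≤ d ∧ d ^ 2 ∣ P)).card : ℝ) *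
        10 ^ (n / 5) ≤ 10 ^ (n + 4) := by exact_mod_cast h6
    rw [← mul_div_assoc, le_div_iff₀ (by positivity), ← pow_add]
    exact h7
  have h8 : ((An z n).card : ℝ) ≤ (Qn n).card + (18 / z * 10 ^ n + 10 ^ n / n) +
      10 ^ n * (10 ^ 4 / 10 ^ (n / 5)) := by
    have h9 : ((An z n).card : ℝ) ≤ (((Qn n).card +
      ∑ d ∈ ((Icc 1 (10 ^ m)).filter (fun d : ℕ => d.Coprime 10)).filter (fun d => z ≤ d),
        cl n (d ^ 2) 0 + ((Pal n).filter (fun P => ∃ d : ℕ, 10 ^ m ≤ d ∧ d ^ 2 ∣ P)).card : ℕ) : ℝ) := by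
      exact_mod_cast h1
    rw [Nat.cast_add, Nat.cast_add] at h9
    linarith
  have h10 : (0 : ℝ) < 10 ^ n := by positivity
  rw [div_le_iff₀ h10]
  have h11 : (((Qn n).card : ℝ) / 10 ^ n + 18 / z + 1 / n + 10 ^ 4 / 10 ^ (n / 5)) * 10 ^ n
      = (Qn n).card + (18 / z * 10 ^ n + 10 ^ n / n) + 10 ^ n * (10 ^ 4 / 10 ^ (n / 5)) := by
    rw [add_mul, add_mul, add_mul, div_mul_cancel₀ _ h10.ne']
    ring
  rw [h11]
  exact h8

theorem sqC4 : Tendsto (fun n : ℕ => (((Pal n).filter (fun P => Squarefree P)).card : ℝ) / 10 ^ n)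
    atTop (𝓝 (170 / (3 * Real.pi ^ 2))) := by
  obtain ⟨n0, hn0⟩ := sqB2 (1 / 10) (by norm_num) 1
  rw [Metric.tendsto_nhds]
  intro ε hε
  have hL : Tendsto (fun z : ℕ => 34 / 5 * ∏ p ∈ Sz z, (1 - 1 / (p : ℝ) ^ 2)) atTop
      (𝓝 (170 / (3 * Real.pi ^ 2))) := by
    have h1 := sqC3.const_mul (34 / 5 : ℝ)
    have h2 : 34 / 5 * (25 / (3 * Real.pi ^ 2)) = 170 / (3 * Real.pi ^ 2) := by
      have h3 : (Real.pi : ℝ) ≠ 0 := Real.pi_ne_zero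
      field_simp
      norm_num
    rw [h2] at h1
    exact h1
  have hz1 := Metric.tendsto_nhds.1 hL (ε / 4) (by positivity)
  have hz2 : ∀ᶠ z : ℕ in atTop, 18 / (z : ℝ) < ε / 4 := by
    have h1 : Tendsto (fun z : ℕ => 18 / (z : ℝ)) atTop (𝓝 0) :=
      tendsto_const_div_atTop_nhds_zero_nat 18
    exact (tendsto_order.1 h1).2 _ (by positivity)
  obtain ⟨z, hz3, hz4, hz5⟩ := (hz1.and (hz2.and (eventually_ge_atTop 1))).exists
  have hA := sqC2 (Sz z) (by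
    intro p hp
    unfold Sz at hp
    rw [mem_filter] at hp
    exact hp.2)
  have hA1 := Metric.tendsto_nhds.1 hA (ε / 4) (by positivity)
  have hn1 : ∀ᶠ n : ℕ in atTop, 1 / (n : ℝ) < ε / 8 := by
    have h1 : Tendsto (fun n : ℕ => 1 / (n : ℝ)) atTop (𝓝 0) :=
      tendsto_const_div_atTop_nhds_zero_nat 1
    exact (tendsto_order.1 h1).2 _ (by positivity)
  have hn2 : ∀ᶠ n : ℕ in atTop, (10 : ℝ) ^ 4 / 10 ^ (n / 5) < ε / 8 := by
    have h1 : Tendsto (fun n : ℕ => (10 : ℝ) ^ 4 * ((1 / 10 : ℝ) ^ (n / 5))) atTop (𝓝 0) := by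
      have h2 : Tendsto (fun k : ℕ => (1 / 10 : ℝ) ^ k) atTop (𝓝 0) :=
        tendsto_pow_atTop_nhds_zero_of_lt_one (by norm_num) (by norm_num)
      have h3 : Tendsto (fun n : ℕ => n / 5) atTop atTop := by
        refine tendsto_atTop_atTop.2 fun b => ⟨5 * b, fun a ha => ?_⟩
        omega
      have h4 := (h2.comp h3).const_mul ((10 : ℝ) ^ 4)
      rw [mul_zero] at h4
      exact h4
    have h5 := (tendsto_order.1 h1).2 (ε / 8) (by positivity)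
    filter_upwards [h5] with n hn
    rw [one_div, inv_pow] at hn
    rw [div_eq_mul_inv]
    exact hn
  filter_upwards [hA1, hn1, hn2, eventually_ge_atTop n0] with n g1 g2 g3 g4
  have g5 := diff_bound n0 hn0 hz5 g4
  have g6 : ((Qn n).card : ℝ) / 10 ^ n ≤ ((An z n).card : ℝ) / 10 ^ n := by
    apply div_le_div_of_nonneg_right _ (by positivity)
    exact_mod_cast card_le_card (Qn_sub z n)
  rw [Real.dist_eq] at g1 hz3 ⊢
  change |((Qn n).card : ℝ) / 10 ^ n - 170 / (3 * Real.pi ^ 2)| < ε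
  change |((An z n).card : ℝ) / 10 ^ n - _| < ε / 4 at g1
  rw [abs_lt] at g1 hz3 ⊢
  constructor
  · linarith [g1.1, g1.2, hz3.1, hz3.2]
  · linarith [g1.1, g1.2, hz3.1, hz3.2]

end Pool.Agent.Helper10.SQ
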