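import Pool.Agent.Helper10.SQ.Tail
import Pool.Agent.Helper10.SQ.Level
import Pool.Agent.Helper10.P4.Fin4

/-! SQ: squarefree palindromes with at most four prime factors, in the correct order of magnitude. -/

namespace Pool.Agent.Helper10.SQ

open Finset Filter Topology Pool.Agent.Helper10 Pool.Agent.Helper10.P5 Pool.Agent.Helper10.P4

open Classical in
/-- the palindromes with at most four prime factors, all of them large -/
noncomputable def four (n : ℕ) : Finset ℕ :=
  (Pal n).filter (fun N => N.primeFactorsList.length ≤ 4 ∧ ∀ p : ℕ, p.Prime → p ∣ N → N < p ^ 15)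

theorem four_card : ∃ n0 : ℕ, ∀ n : ℕ, n0 ≤ n →
    1 / 200 * ((10 : ℝ) ^ n / n) ≤ (((four n).filter (fun N => N.Coprime 10)).card : ℝ) := by
  classical
  obtain ⟨n0, h0⟩ := main4
  refine ⟨n0, ?_⟩
  intro n hn
  obtain ⟨m, hm, hmn, hmn2, hcount⟩ := h0 n hn
  refine hcount.trans ?_
  have hn1 : 1 ≤ n := by omega
  have hsub : (good4 m n).image (Npal n) ⊆ (four n).filter (fun N => N.Coprime 10) := by
    intro N hN
    rw [Finset.mem_image] at hN
    obtain ⟨f, hf, rfl⟩ := hN
    unfold good4 at hf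
    rw [Finset.mem_filter] at hf
    have hfK : f ∈ KK (n - 1) 10 := by
      have := hf.1
      unfold sift at this
      exact (Finset.mem_filter.mp this).1
    rw [Finset.mem_filter]
    refine ⟨?_, Npal_coprime n hn1 f⟩
    unfold four
    rw [Finset.mem_filter]
    refine ⟨(mem_Pal n _).mpr (Npal_digits n hn1 f hfK), hf.2, ?_⟩
    intro p hp hpN
    have h1 := (sift_prime_gt4 m n (by omega) hn1 f hf.1 p hp hpN).2
    rw [← pow_mul] at h1
    calc Npal n f < 10 ^ (2 * n + 2) := Npal_lt n hn1 f hfK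
      _ ≤ (10 ^ (2 * m * 36)) ^ 15 := by
          rw [← pow_mul]
          apply Nat.pow_le_pow_right (by norm_num)
          omega
      _ ≤ p ^ 15 := Nat.pow_le_pow_left h1.le 15
  have hcard : (good4 m n).card ≤ ((four n).filter (fun N => N.Coprime 10)).card := by
    calc (good4 m n).card = ((good4 m n).image (Npal n)).card := by
          symm
          apply Finset.card_image_of_injOn
          intro f hf f' hf' h
          unfold good4 at hf hf'
          rw [Finset.mem_coe, Finset.mem_filter] at hf hf'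
          have h1 := hf.1
          have h2 := hf'.1
          unfold sift at h1 h2
          exact Npal_inj n f f' (Finset.mem_filter.mp h1).1 (Finset.mem_filter.mp h2).1 h
      _ ≤ _ := Finset.card_le_card hsub
  exact_mod_cast hcard

/-- a palindrome with `2 * n + 1` digits is at least `10 ^ (2 * n)` -/
lemma Pal_ge (n N : ℕ) (h : N ∈ Pal n) : 10 ^ (2 * n) ≤ N := by
  rw [mem_Pal] at h
  have h1 : (Nat.digits 10 N).length = 2 * n + 1 := h.1
  have h2 : 2 * n < (Nat.digits 10 N).length := by omega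
  rwa [Nat.lt_digits_length_iff (by norm_num)] at h2

open Classical in
theorem sqD1 : ∃ n0 : ℕ, ∀ n : ℕ, n0 ≤ n → 1 / 201 * ((10 : ℝ) ^ n / n) ≤
    (((Pal n).filter (fun N => Squarefree N ∧ N.primeFactorsList.length ≤ 4 ∧
      ∀ p : ℕ, p.Prime → p ∣ N → N < p ^ 15)).card : ℝ) := by
  obtain ⟨n1, h1⟩ := four_card
  obtain ⟨n2, h2⟩ := tail
  refine ⟨n1 + n2 + 10 ^ 6, fun n hn => ?_⟩
  have h3 := h1 n (by omega)
  set z := 10 ^ (n / 10) with hz
  have hz1 : 1 ≤ z := Nat.one_le_pow _ _ (by norm_num)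
  have h4 := h2 n (by omega) z hz1
  have hnR : (10 : ℝ) ^ 6 ≤ n := by exact_mod_cast (by omega : 10 ^ 6 ≤ n)
  have hn0 : (0 : ℝ) < n := by linarith
  -- the squarefree members
  have hsub : (four n).filter (fun N => N.Coprime 10) ⊆
      (Pal n).filter (fun N => Squarefree N ∧ N.primeFactorsList.length ≤ 4 ∧
        ∀ p : ℕ, p.Prime → p ∣ N → N < p ^ 15) ∪ big n z := by
    intro N hN
    rw [Finset.mem_filter] at hN
    obtain ⟨hN1, hN2⟩ := hN
    unfold four at hN1
    rw [Finset.mem_filter] at hN1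
    obtain ⟨hN3, hN4, hN5⟩ := hN1
    rw [Finset.mem_union]
    by_cases hsq : Squarefree N
    · left
      rw [Finset.mem_filter]
      exact ⟨hN3, hsq, hN4, hN5⟩
    · right
      rw [Nat.squarefree_iff_prime_squarefree] at hsq
      push Not at hsq
      obtain ⟨p, hp, hpN⟩ := hsq
      have hpd : p ∣ N := (Dvd.intro p rfl).trans hpN
      unfold big
      rw [Finset.mem_filter]
      refine ⟨hN3, p, ?_, Nat.Coprime.coprime_dvd_left hpd hN2, by rwa [pow_two]⟩
      have h5 := hN5 p hp hpd
      have h6 := Pal_ge n N hN3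
      by_contra hcon
      push Not at hcon
      have h7 : p ^ 15 ≤ z ^ 15 := Nat.pow_le_pow_left hcon.le 15
      have h8 : z ^ 15 ≤ 10 ^ (2 * n) := by
        rw [hz, ← pow_mul]
        apply Nat.pow_le_pow_right (by norm_num)
        omega
      omega
  have h5 := (Finset.card_le_card hsub).trans (Finset.card_union_le _ _)
  have h6 : (((four n).filter (fun N => N.Coprime 10)).card : ℝ) ≤
      (((Pal n).filter (fun N => Squarefree N ∧ N.primeFactorsList.length ≤ 4 ∧
        ∀ p : ℕ, p.Prime → p ∣ N → N < p ^ 15)).card : ℝ) + ((big n z).card : ℝ) := by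
    exact_mod_cast h5
  -- the error terms
  have h7 : (18 : ℝ) * 10 ^ n / z ≤ 18 * (10 ^ n / (n : ℝ) ^ 2) := by
    have h8 : (n : ℝ) ^ 2 ≤ z := by
      have h9 : n ^ 2 ≤ 10 ^ (n / 10) := by
        have key : ∀ k : ℕ, 100 ≤ k → (10 * k + 10) ^ 2 ≤ 10 ^ k := by
          intro k hk
          induction k, hk using Nat.le_induction with
          | base => norm_num
          | succ k hk ih =>
            have e1 : (10 * (k + 1) + 10) ^ 2 ≤ (2 * (10 * k + 10)) ^ 2 :=
              Nat.pow_le_pow_left (by omega) 2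
            have e2 : (2 * (10 * k + 10)) ^ 2 = 4 * (10 * k + 10) ^ 2 := by ring
            calc (10 * (k + 1) + 10) ^ 2 ≤ 4 * (10 * k + 10) ^ 2 := e1.trans_eq e2
              _ ≤ 4 * 10 ^ k := Nat.mul_le_mul_left 4 ih
              _ ≤ 10 ^ k * 10 := by
                have := Nat.one_le_pow k 10 (by norm_num)
                omega
              _ = 10 ^ (k + 1) := (pow_succ 10 k).symm
        have h10 := key (n / 10) (by omega)
        refine le_trans (Nat.pow_le_pow_left (by omega) 2) h10
      exact_mod_cast h9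
    have h10 : (0 : ℝ) < (n : ℝ) ^ 2 := by positivity
    calc (18 : ℝ) * 10 ^ n / z ≤ 18 * 10 ^ n / (n : ℝ) ^ 2 :=
          div_le_div_of_nonneg_left (by positivity) h10 h8
      _ = _ := by ring
  have h8 : (10 : ℝ) ^ n / (n : ℝ) ^ 2 ≤ 1 / 10 ^ 6 * (10 ^ n / n) := by
    rw [div_le_iff₀ (by positivity)]
    have : (1 : ℝ) / 10 ^ 6 * (10 ^ n / n) * (n : ℝ) ^ 2 = 10 ^ n * (n / 10 ^ 6) := by
      field_simp
    rw [this]
    have h9 : (1 : ℝ) ≤ n / 10 ^ 6 := by
      rw [le_div_iff₀ (by norm_num)]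
      linarith
    have h10 : (0 : ℝ) < 10 ^ n := by positivity
    nlinarith
  have h9 : (0 : ℝ) < 10 ^ n / n := by positivity
  nlinarith

end Pool.Agent.Helper10.SQ
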